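import Pool.Agent.P5bf.NoMaps

/-! Coarse Lipschitz embeddings and the concentration property. -/

set_option autoImplicit false

open Filter Topology

namespace Pool.Agent.P5bf

universe u v

/-- `g` is a coarse Lipschitz embedding: distances are distorted by a multiplicative and an
additive constant. -/
def CoarseLipEmb (X : Type u) [NormedAddCommGroup X] (Y : Type v) [NormedAddCommGroup Y]
    (g : X → Y) : Prop :=
  ∃ A B : ℝ, 0 < A ∧ ∀ x x' : X,
    ‖x - x'‖ / A - B ≤ ‖g x - g x'‖ ∧ ‖g x - g x'‖ ≤ A * ‖x - x'‖ + B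

/-- the concentration property passes down along coarse Lipschitz embeddings -/
theorem conc_of_coarse {X : Type u} [NormedAddCommGroup X] [NormedSpace ℝ X]
    {Y : Type v} [NormedAddCommGroup Y] [NormedSpace ℝ Y] (g : X → Y)
    (hg : CoarseLipEmb X Y g) (hY : Conc Y) : Conc X := by
  obtain ⟨A, B, hA, H⟩ := hg
  have hB : 0 ≤ B := by
    have := (H 0 0).2
    simpa using this
  intro ε hε
  set Λ : ℝ := A + B with hΛ
  have hΛ0 : 0 < Λ := by positivity
  obtain ⟨K0, hK0⟩ := hY (ε / (2 * A * Λ)) (by positivity)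
  refine ⟨K0 + ⌈2 * A * B / ε⌉₊, fun K hK f hf => ?_⟩
  obtain ⟨x, y, hx, hy, hxy, hyx, hle⟩ := hK0 K (by omega) (fun x => (Λ⁻¹ : ℝ) • g (f x))
    (fun x y hx hy => by
      rw [← smul_sub, norm_smul, norm_inv, Real.norm_eq_abs, abs_of_pos hΛ0,
        inv_mul_le_iff₀ hΛ0]
      have h1 := (H (f x) (f y)).2
      have h2 := hf x y hx hy
      by_cases hxy : x = y
      · subst hxy
        simp
      · have h3 : (1 : ℝ) ≤ hammingDist x y := by
          exact_mod_cast Nat.one_le_iff_ne_zero.2 (fun h => hxy (hammingDist_eq_zero.1 h))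
        calc ‖g (f x) - g (f y)‖ ≤ A * ‖f x - f y‖ + B := h1
          _ ≤ A * hammingDist x y + B * hammingDist x y := by nlinarith
          _ = Λ * hammingDist x y := by rw [hΛ]; ring)
  refine ⟨x, y, hx, hy, hxy, hyx, ?_⟩
  rw [← smul_sub, norm_smul, norm_inv, Real.norm_eq_abs, abs_of_pos hΛ0,
    inv_mul_le_iff₀ hΛ0] at hle
  have h4 := (H (f x) (f y)).1
  have h5 : ‖f x - f y‖ / A ≤ B + ε / (2 * A) * K := by
    have e : Λ * (ε / (2 * A * Λ) * K) = ε / (2 * A) * K := by field_simp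
    rw [e] at hle
    linarith
  rw [div_le_iff₀ hA] at h5
  have h6 : 2 * A * B / ε ≤ K := by
    have h7 := Nat.le_ceil (2 * A * B / ε)
    have h8 : ((⌈2 * A * B / ε⌉₊ : ℕ) : ℝ) ≤ K := by exact_mod_cast (by omega)
    linarith
  rw [div_le_iff₀ hε] at h6
  have e2 : (B + ε / (2 * A) * K) * A = A * B + ε / 2 * K := by field_simp
  rw [e2] at h5
  linarith

end Pool.Agent.P5bf
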