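import Pool.Agent.P5bf.ConcEq

/-! Sublinear concentration excludes the maps of Q1. -/

set_option autoImplicit false

open Filter Topology

namespace Pool.Agent.P5bf

universe u

theorem noMaps_of_conc {X : Type u} [NormedAddCommGroup X] [NormedSpace ℝ X] (h : Conc X) :
    ¬ HasMaps X := by
  classical
  rintro ⟨ℓ, hℓ, L, hL, H⟩
  have hℓr : (1 : ℝ) ≤ ℓ := by exact_mod_cast hℓ
  obtain ⟨K0, hK0⟩ := h (1 / (L * ℓ)) (by positivity)
  set k := K0 + 1 with hk
  have hkr : (0 : ℝ) < k := by rw [hk]; positivity
  obtain ⟨f, hf⟩ := H k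
  have hkK : k ≤ ℓ * k := Nat.le_mul_of_pos_left k (by omega)
  obtain ⟨x, y, hx, hy, hxy, hyx, hle⟩ := hK0 (ℓ * k) (by omega) (fun x => (L⁻¹ : ℝ) • f x)
    (fun x y hx hy => by
      rw [← smul_sub, norm_smul, norm_inv, Real.norm_eq_abs, abs_of_pos hL, inv_mul_le_iff₀ hL]
      exact (hf x y hx hy).2)
  rw [← smul_sub, norm_smul, norm_inv, Real.norm_eq_abs, abs_of_pos hL, inv_mul_le_iff₀ hL] at hle
  have h1 := (hf x y hx hy).1
  set A := (Finset.univ.filter (fun i : Fin (ℓ * k) => i.val < k)).image x with hA
  set B := (Finset.univ.filter (fun i : Fin (ℓ * k) => i.val < k)).image y with hB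
  have hcard : (Finset.univ.filter (fun i : Fin (ℓ * k) => i.val < k)).card = k := by
    have e : (Finset.univ.filter (fun i : Fin (ℓ * k) => i.val < k))
        = (Finset.univ : Finset (Fin k)).map (Fin.castLEEmb hkK) := by
      ext i
      simp only [Finset.mem_filter, Finset.mem_univ, true_and, Finset.mem_map]
      constructor
      · intro hi
        exact ⟨⟨i, hi⟩, rfl⟩
      · rintro ⟨j, rfl⟩
        exact j.2
    rw [e, Finset.card_map, Finset.card_univ, Fintype.card_fin]
  have hAc : A.card = k := by rw [hA, Finset.card_image_of_injective _ hx.injective, hcard]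
  have hBc : B.card = k := by rw [hB, Finset.card_image_of_injective _ hy.injective, hcard]
  have hdisj : Disjoint A B := by
    rw [Finset.disjoint_left]
    intro a ha hb
    rw [hA, Finset.mem_image] at ha
    rw [hB, Finset.mem_image] at hb
    obtain ⟨i, _, rfl⟩ := ha
    obtain ⟨j, _, hj⟩ := hb
    rcases lt_trichotomy i j with h | h | h
    · have h1 := hx h
      have h2 := hxy j
      omega
    · subst h
      have := hxy i
      omega
    · have := hyx j i h
      omega
  have hsd : (symmDiff A B).card = 2 * k := by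
    rw [hdisj.symmDiff_eq_sup, Finset.sup_eq_union, Finset.card_union_of_disjoint hdisj, hAc, hBc]
    ring
  rw [hsd] at h1
  push_cast at h1 hle
  have e : L * (1 / (L * ℓ) * (ℓ * k)) = (k : ℝ) := by field_simp
  rw [e] at hle
  linarith

end Pool.Agent.P5bf
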