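import Pool.Agent.P5bf.Dich
import Pool.Agent.P5bf.NoMaps

/-! Consequences of the failure of the concentration property: finite Hamming spaces. -/

set_option autoImplicit false

namespace Pool.Agent.P5bf

universe u

/-- `X` is `ε`-bad: for arbitrarily large `K` there is a map on the increasing `K`-tuples which is
1-Lipschitz for the Hamming distance and for which all interlaced pairs are at distance
greater than `ε K`. -/
def Bad (X : Type u) [NormedAddCommGroup X] [NormedSpace ℝ X] (ε : ℝ) : Prop :=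
  ∀ K0 : ℕ, ∃ K : ℕ, K0 ≤ K ∧ ∃ f : (Fin K → ℕ) → X,
    (∀ x y : Fin K → ℕ, StrictMono x → StrictMono y → ‖f x - f y‖ ≤ (hammingDist x y : ℝ)) ∧
    ∀ x y : Fin K → ℕ, StrictMono x → StrictMono y → (∀ i, x i < y i) →
      (∀ i j, i < j → y i < x j) → ε * K < ‖f x - f y‖

theorem not_conc_iff (X : Type u) [NormedAddCommGroup X] [NormedSpace ℝ X] :
    ¬ Conc X ↔ ∃ ε : ℝ, 0 < ε ∧ Bad X ε := by
  constructor
  · intro h
    unfold Conc at h
    push Not at h
    obtain ⟨ε, hε, h⟩ := h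
    refine ⟨ε, hε, fun K0 => ?_⟩
    obtain ⟨K, hK, f, hf, hi⟩ := h K0
    exact ⟨K, hK, f, hf, fun x y hx hy hxy hyx => hi x y hx hy hxy hyx⟩
  · rintro ⟨ε, hε, h⟩ hC
    obtain ⟨K0, hK0⟩ := hC ε hε
    obtain ⟨K, hK, f, hf, hi⟩ := h K0
    obtain ⟨x, y, hx, hy, hxy, hyx, h1⟩ := hK0 K hK f hf
    exact absurd (hi x y hx hy hxy hyx) (not_lt.2 h1)

/-- the increasing tuple coding a word -/
def wrd {n N : ℕ} (a : Fin n → Fin N) (i : Fin (2 * n)) : ℕ :=
  (N + 1) * i + if h : i.val < n then (a ⟨i.val, h⟩ : ℕ) else 0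

theorem wrd_sm {n N : ℕ} (a : Fin n → Fin N) : StrictMono (wrd a) := by
  intro i j hij
  rw [Fin.lt_def] at hij
  unfold wrd
  have h1 : (if h : i.val < n then (a ⟨i.val, h⟩ : ℕ) else 0) < N + 1 := by
    split_ifs with h
    · have := (a ⟨i.val, h⟩).2
      omega
    · omega
  have h2 : (N + 1) * ((i : ℕ) + 1) ≤ (N + 1) * (j : ℕ) := Nat.mul_le_mul_left _ hij
  rw [Nat.mul_add, Nat.mul_one] at h2
  omega

theorem wrd_ne {n N : ℕ} (a b : Fin n → Fin N) (i : Fin (2 * n)) :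
    wrd a i ≠ wrd b i ↔ ∃ h : i.val < n, a ⟨i.val, h⟩ ≠ b ⟨i.val, h⟩ := by
  unfold wrd
  constructor
  · intro h
    by_cases hi : i.val < n
    · refine ⟨hi, fun hab => h ?_⟩
      rw [dif_pos hi, dif_pos hi, hab]
    · rw [dif_neg hi, dif_neg hi] at h
      exact absurd rfl h
  · rintro ⟨hi, hab⟩ h
    rw [dif_pos hi, dif_pos hi] at h
    exact hab (Fin.ext (by omega))

theorem wrd_card {n N : ℕ} (a b : Fin n → Fin N) :
    (Finset.univ.filter (fun i : Fin (2 * n) => wrd a i ≠ wrd b i)).card = hammingDist a b := by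
  classical
  unfold hammingDist
  symm
  refine Finset.card_bij (fun (i : Fin n) _ => (⟨i.val, by omega⟩ : Fin (2 * n))) ?_ ?_ ?_
  · intro i hi
    rw [Finset.mem_filter] at hi ⊢
    refine ⟨Finset.mem_univ _, ?_⟩
    rw [wrd_ne]
    exact ⟨i.2, hi.2⟩
  · intro i _ j _ hij
    rw [Fin.mk.injEq] at hij
    exact Fin.ext hij
  · intro i hi
    rw [Finset.mem_filter, wrd_ne] at hi
    obtain ⟨_, h, hab⟩ := hi
    exact ⟨⟨i.val, h⟩, by rw [Finset.mem_filter]; exact ⟨Finset.mem_univ _, hab⟩, rfl⟩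

theorem cubes_of_bad {X : Type u} [NormedAddCommGroup X] [NormedSpace ℝ X] (ε : ℝ) (hε : 0 < ε)
    (h : Bad X ε) (n N : ℕ) : ∃ g : (Fin n → Fin N) → X, ∀ a b : Fin n → Fin N,
      (hammingDist a b : ℝ) ≤ ‖g a - g b‖ ∧
      ‖g a - g b‖ ≤ 144 / ε ^ 2 * (hammingDist a b : ℝ) := by
  classical
  obtain ⟨g, hg⟩ := maps_of_fail ε hε h n
  refine ⟨fun a => (1 / 2 : ℝ) • g (wrd a), fun a b => ?_⟩
  rw [← smul_sub, norm_smul, Real.norm_eq_abs, abs_of_pos (by norm_num : (0 : ℝ) < 1 / 2)]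
  have h1 := hg _ _ (wrd_sm a) (wrd_sm b)
  have h2 : hammingDist (wrd a) (wrd b) = hammingDist a b := wrd_card a b
  have h3 : (Finset.univ.filter (fun i : Fin (2 * n) => i.val < n ∧ wrd a i ≠ wrd b i)).card =
      hammingDist a b := by
    rw [← wrd_card a b]
    congr 1
    ext i
    rw [Finset.mem_filter, Finset.mem_filter]
    refine ⟨fun h => ⟨h.1, h.2.2⟩, fun h => ⟨h.1, ?_, h.2⟩⟩
    obtain ⟨hi, _⟩ := (wrd_ne a b i).1 h.2
    exact hi
  rw [h2, h3] at h1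
  have e : (144 : ℝ) / ε ^ 2 = 1 / 2 * (288 / ε ^ 2) := by ring
  rw [e, mul_assoc]
  constructor
  · linarith [h1.1]
  · exact mul_le_mul_of_nonneg_left h1.2 (by norm_num)

end Pool.Agent.P5bf
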