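import Pool.Agent.P5bf.Equiv
import Pool.Agent.P5bf.Cubes
import Pool.Agent.P5bf.Coarse

/-! Arrays in quotients of the bidual. -/

set_option autoImplicit false

open Filter Topology

namespace Pool.Agent.P5bf

universe u v

/-- `Z` has arrays `z_i(n)`, bounded by `M`, whose sums are at distance at least `δ k` along
interlaced pairs of `k`-tuples, for every `k`. -/
def HasArrays (Z : Type v) [NormedAddCommGroup Z] [NormedSpace ℝ Z] : Prop :=
  ∃ M δ : ℝ, 0 < δ ∧ ∀ k : ℕ, ∃ z : Fin k → ℕ → Z, (∀ i n, ‖z i n‖ ≤ M) ∧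
    ∀ x y : Fin k → ℕ, StrictMono x → StrictMono y → (∀ i, x i < y i) →
      (∀ i j, i < j → y i < x j) → δ * k ≤ ‖∑ i, z i (x i) - ∑ i, z i (y i)‖

theorem exists_opBound {B : Type u} [NormedAddCommGroup B] [NormedSpace ℝ B]
    {Z : Type v} [NormedAddCommGroup Z] [NormedSpace ℝ Z] (q : B →L[ℝ] Z) :
    ∃ κ : ℝ, 0 < κ ∧ ∀ w, ‖q w‖ ≤ κ * ‖w‖ :=
  ⟨‖q‖ + 1, by positivity, fun w => (q.le_opNorm w).trans (by nlinarith [norm_nonneg w])⟩

theorem bad_of_arrays {B : Type u} [NormedAddCommGroup B] [NormedSpace ℝ B] [CompleteSpace B]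
    {Z : Type v} [NormedAddCommGroup Z] [NormedSpace ℝ Z] [CompleteSpace Z]
    (q : B →L[ℝ] Z) (hq : Function.Surjective q) (hz : HasArrays Z) :
    ¬ Conc B := by
  classical
  obtain ⟨M, δ, hδ, H⟩ := hz
  obtain ⟨C, hC0, hC⟩ := open_const q hq
  obtain ⟨κ, hκ, hκ2⟩ := exists_opBound q
  have hM : 0 ≤ M := by
    obtain ⟨z, hz1, _⟩ := H 1
    exact (norm_nonneg _).trans (hz1 0 0)
  set c : ℝ := 2 * (C * M) + 1 with hc
  have hCM : 0 ≤ C * M := by positivity
  have hc0 : 0 < c := by positivity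
  rw [not_conc_iff]
  refine ⟨δ / (2 * κ * c), by positivity, fun K0 => ⟨K0 + 1, by omega, ?_⟩⟩
  obtain ⟨z, hz1, hz2⟩ := H (K0 + 1)
  choose w hw1 hw2 using fun (i : Fin (K0 + 1)) (n : ℕ) => hC (z i n)
  have hwM : ∀ i n, ‖w i n‖ ≤ C * M := fun i n =>
    (hw2 i n).trans (mul_le_mul_of_nonneg_left (hz1 i n) hC0)
  refine ⟨fun x => (c⁻¹ : ℝ) • ∑ i, w i (x i), fun x y _ _ => ?_, fun x y hx hy hxy hyx => ?_⟩
  · rw [← smul_sub, norm_smul, norm_inv, Real.norm_eq_abs, abs_of_pos hc0, inv_mul_le_iff₀ hc0,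
      ← Finset.sum_sub_distrib]
    have h1 : ∑ i, (w i (x i) - w i (y i)) =
        ∑ i ∈ Finset.univ.filter (fun i => x i ≠ y i), (w i (x i) - w i (y i)) := by
      symm
      refine Finset.sum_subset (Finset.filter_subset _ _) fun i _ hi => ?_
      rw [Finset.mem_filter, not_and_not_right] at hi
      rw [hi (Finset.mem_univ i), sub_self]
    rw [h1]
    refine (norm_sum_le _ _).trans ?_
    refine (Finset.sum_le_sum fun i _ => (norm_sub_le _ _).trans
      (add_le_add (hwM i (x i)) (hwM i (y i)))).trans ?_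
    rw [Finset.sum_const, nsmul_eq_mul]
    have h2 : (Finset.univ.filter (fun i => x i ≠ y i)).card = hammingDist x y := rfl
    rw [h2, hc]
    have h3 : (0 : ℝ) ≤ hammingDist x y := Nat.cast_nonneg _
    nlinarith
  · rw [← smul_sub, norm_smul, norm_inv, Real.norm_eq_abs, abs_of_pos hc0]
    have h1 := hz2 x y hx hy hxy hyx
    have h2 : q (∑ i, w i (x i) - ∑ i, w i (y i)) = ∑ i, z i (x i) - ∑ i, z i (y i) := by
      rw [map_sub, map_sum, map_sum]
      simp only [hw1]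
    have h3 := hκ2 (∑ i, w i (x i) - ∑ i, w i (y i))
    rw [h2] at h3
    have h4 : δ * ((K0 + 1 : ℕ) : ℝ) ≤ κ * ‖∑ i, w i (x i) - ∑ i, w i (y i)‖ := h1.trans h3
    have hKpos : (0 : ℝ) < ((K0 + 1 : ℕ) : ℝ) := by exact_mod_cast Nat.succ_pos K0
    have h5 : δ * ((K0 + 1 : ℕ) : ℝ) / (2 * κ) < ‖∑ i, w i (x i) - ∑ i, w i (y i)‖ := by
      rw [div_lt_iff₀ (by positivity)]
      have : 0 < δ * ((K0 + 1 : ℕ) : ℝ) := by positivity
      nlinarith
    calc δ / (2 * κ * c) * ((K0 + 1 : ℕ) : ℝ) = c⁻¹ * (δ * ((K0 + 1 : ℕ) : ℝ) / (2 * κ)) := by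
          field_simp
      _ < c⁻¹ * ‖∑ i, w i (x i) - ∑ i, w i (y i)‖ :=
          mul_lt_mul_of_pos_left h5 (by positivity)

theorem hasMaps_iff_not_conc (X : Type u) [NormedAddCommGroup X] [NormedSpace ℝ X] :
    HasMaps X ↔ ¬ Conc X :=
  ⟨fun h hC => noMaps_of_conc hC h, hasMaps_of_not_conc⟩

theorem hasMaps_iff_bidual (X : Type u) [NormedAddCommGroup X] [NormedSpace ℝ X] :
    HasMaps X ↔ HasMaps (StrongDual ℝ (StrongDual ℝ X)) := by
  rw [hasMaps_iff_not_conc, hasMaps_iff_not_conc (StrongDual ℝ (StrongDual ℝ X)),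
    conc_iff_bidual X]

theorem hasMaps_of_arrays (X : Type u) [NormedAddCommGroup X] [NormedSpace ℝ X]
    {Z : Type v} [NormedAddCommGroup Z] [NormedSpace ℝ Z] [CompleteSpace Z]
    (q : StrongDual ℝ (StrongDual ℝ X) →L[ℝ] Z) (hq : Function.Surjective q)
    (hz : HasArrays Z) : HasMaps X := by
  rw [hasMaps_iff_not_conc]
  intro hC
  exact bad_of_arrays (B := StrongDual ℝ (StrongDual ℝ X)) q hq hz ((conc_iff_bidual X).1 hC)

/-- `l_1`-like sequences give arrays -/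
theorem arrays_of_seq {Z : Type v} [NormedAddCommGroup Z] [NormedSpace ℝ Z] (M δ : ℝ)
    (hδ : 0 < δ) (hz : ∀ k : ℕ, ∃ z : ℕ → Z, (∀ n, ‖z n‖ ≤ M) ∧ ∀ A B : Finset ℕ,
      A.card ≤ k → B.card ≤ k → Disjoint A B →
      δ * (A.card + B.card : ℝ) ≤ ‖∑ n ∈ A, z n - ∑ n ∈ B, z n‖) : HasArrays Z := by
  classical
  refine ⟨M, 2 * δ, by positivity, fun k => ?_⟩
  obtain ⟨z, hz1, hz2⟩ := hz k
  refine ⟨fun _ n => z n, fun _ n => hz1 n, fun x y hx hy hxy hyx => ?_⟩
  have hA : (Finset.univ.image x).card = k := by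
    rw [Finset.card_image_of_injective _ hx.injective, Finset.card_univ, Fintype.card_fin]
  have hB : (Finset.univ.image y).card = k := by
    rw [Finset.card_image_of_injective _ hy.injective, Finset.card_univ, Fintype.card_fin]
  have h1 := hz2 (Finset.univ.image x) (Finset.univ.image y) hA.le hB.le (by
    rw [Finset.disjoint_left]
    intro a ha hb
    rw [Finset.mem_image] at ha hb
    obtain ⟨i, _, rfl⟩ := ha
    obtain ⟨j, _, hj⟩ := hb
    rcases lt_trichotomy i j with h | h | h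
    · have := hx h
      have := hxy j
      omega
    · subst h
      have := hxy i
      omega
    · have := hyx j i h
      omega)
  rw [Finset.sum_image (fun a _ b _ h => hx.injective h),
    Finset.sum_image (fun a _ b _ h => hy.injective h), hA, hB] at h1
  calc 2 * δ * (k : ℝ) = δ * (k + k : ℝ) := by ring
    _ ≤ _ := h1

end Pool.Agent.P5bf
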