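import Pool.Agent.P5bf.Helly

/-! Asymptotic uniform smoothness in terms of finitely many functionals. -/

set_option autoImplicit false

open Filter Topology

namespace Pool.Agent.P5bf

universe u

variable {X : Type u} [NormedAddCommGroup X] [NormedSpace ℝ X]

/-- finitely many functionals control the distance to a closed subspace of finite codimension -/
theorem finCodim (V : Submodule ℝ X) (hV : IsClosed (V : Set X))
    (hfin : FiniteDimensional ℝ (X ⧸ V)) (ρ : ℝ) (hρ : 0 < ρ) :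
    ∃ Φ : Finset (StrongDual ℝ X), ∃ δ : ℝ, 0 < δ ∧
      ∀ y : X, (∀ φ ∈ Φ, |φ y| ≤ δ) → ∃ v ∈ V, ‖y - v‖ ≤ ρ := by
  classical
  haveI := hV
  let b := Module.finBasis ℝ (X ⧸ V)
  let e : (X ⧸ V) ≃L[ℝ] (Fin (Module.finrank ℝ (X ⧸ V)) → ℝ) :=
    b.equivFun.toContinuousLinearEquiv
  let π : X →L[ℝ] (X ⧸ V) := V.mkQL
  let φ : Fin (Module.finrank ℝ (X ⧸ V)) → StrongDual ℝ X := fun j =>
    (ContinuousLinearMap.proj (R := ℝ) (φ := fun _ => ℝ) j).comp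
      ((e : (X ⧸ V) →L[ℝ] _).comp π)
  set C : ℝ := ‖(e.symm : (Fin (Module.finrank ℝ (X ⧸ V)) → ℝ) →L[ℝ] (X ⧸ V))‖ with hC
  have hC0 : 0 ≤ C := ContinuousLinearMap.opNorm_nonneg _
  refine ⟨Finset.univ.image φ, ρ / (2 * (C + 1)), by positivity, fun y hy => ?_⟩
  have h1 : ‖e (π y)‖ ≤ ρ / (2 * (C + 1)) := by
    refine (pi_norm_le_iff_of_nonneg (by positivity)).2 fun j => ?_
    have := hy (φ j) (Finset.mem_image_of_mem φ (Finset.mem_univ j))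
    simpa [φ, Real.norm_eq_abs] using this
  have h2 : ‖π y‖ ≤ ρ / 2 := by
    have h3 : π y = e.symm (e (π y)) := by simp
    rw [h3]
    refine ((e.symm : (Fin (Module.finrank ℝ (X ⧸ V)) → ℝ) →L[ℝ] (X ⧸ V)).le_opNorm _).trans ?_
    calc C * ‖e (π y)‖ ≤ (C + 1) * (ρ / (2 * (C + 1))) := by
          apply mul_le_mul (by linarith) h1 (norm_nonneg _) (by positivity)
      _ = ρ / 2 := by field_simp
  obtain ⟨m, hm1, hm2⟩ := Submodule.Quotient.norm_mk_lt (S := V) (π y)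
    (ε := ρ / 2) (by positivity)
  refine ⟨y - m, ?_, ?_⟩
  · have h4 : (Submodule.Quotient.mk m : X ⧸ V) = Submodule.Quotient.mk y := by
      rw [hm1]; rfl
    rw [← Submodule.Quotient.mk_eq_zero, Submodule.Quotient.mk_sub, h4, sub_self]
  · rw [sub_sub_cancel]
    linarith

/-- convexity: from norm one vectors to small vectors -/
theorem aus_conv (x : X) (V : Submodule ℝ X) (t c : ℝ) (ht : 0 < t) (hc : 0 ≤ c) (hx : ‖x‖ = 1)
    (h : ∀ y ∈ V, ‖y‖ = 1 → ‖x + t • y‖ ≤ 1 + c) (v : X) (hv : v ∈ V) (hvt : ‖v‖ ≤ t) :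
    ‖x + v‖ ≤ 1 + c := by
  by_cases hv0 : v = 0
  · rw [hv0, add_zero, hx]; linarith
  have hn : 0 < ‖v‖ := norm_pos_iff.2 hv0
  set s : ℝ := ‖v‖ / t with hs
  have hs0 : 0 ≤ s := by positivity
  have hs1 : s ≤ 1 := (div_le_one ht).2 hvt
  set y : X := (‖v‖⁻¹) • v with hy
  have hyV : y ∈ V := V.smul_mem _ hv
  have hy1 : ‖y‖ = 1 := by
    rw [hy, norm_smul, norm_inv, norm_norm, inv_mul_cancel₀ hn.ne']
  have key : x + v = (1 - s) • x + s • (x + t • y) := by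
    rw [smul_add, ← add_assoc, ← add_smul, sub_add_cancel, one_smul, smul_smul, hs,
      div_mul_cancel₀ _ ht.ne', hy, smul_smul, mul_inv_cancel₀ hn.ne', one_smul]
  rw [key]
  refine (norm_add_le _ _).trans ?_
  rw [norm_smul, norm_smul, hx, Real.norm_eq_abs, Real.norm_eq_abs, abs_of_nonneg hs0,
    abs_of_nonneg (by linarith)]
  have := mul_le_mul_of_nonneg_left (h y hyV hy1) hs0
  nlinarith

theorem aus_fin (h : AUS X) (η : ℝ) (hη : 0 < η) : ∃ T : ℝ, 0 < T ∧ ∀ b : ℝ, 0 < b → ∀ x : X,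
    ∃ Φ : Finset (StrongDual ℝ X), ∃ δ : ℝ, 0 < δ ∧ ∀ y : X, ‖y‖ ≤ b →
      (∀ φ ∈ Φ, |φ y| ≤ δ) → ‖x + y‖ ≤ max (‖x‖ + η * b) ((T + 1) * b) := by
  obtain ⟨t0, ht0, H⟩ := h (η / 4) (by positivity)
  refine ⟨2 / t0, by positivity, fun b hb x => ?_⟩
  by_cases hx : ‖x‖ < 2 / t0 * b
  · refine ⟨∅, 1, one_pos, fun y hy _ => ?_⟩
    refine (norm_add_le _ _).trans (le_trans ?_ (le_max_right _ _))
    nlinarith
  push Not at hx
  have hxpos : 0 < ‖x‖ := lt_of_lt_of_le (by positivity) hx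
  set t : ℝ := 2 * b / ‖x‖ with ht
  have htpos : 0 < t := by positivity
  have htt0 : t ≤ t0 := by
    rw [ht, div_le_iff₀ hxpos]
    have : 2 / t0 * b * t0 ≤ ‖x‖ * t0 := mul_le_mul_of_nonneg_right hx ht0.le
    have e : 2 / t0 * b * t0 = 2 * b := by field_simp
    rw [e] at this
    linarith
  have hx1 : ‖(‖x‖⁻¹) • x‖ = 1 := by
    rw [norm_smul, norm_inv, norm_norm, inv_mul_cancel₀ hxpos.ne']
  obtain ⟨V, hVc, hVf, hV⟩ := H t htpos htt0 _ hx1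
  obtain ⟨Φ, δ, hδ, hΦ⟩ := finCodim V hVc hVf (min b (η / 2 * b)) (by positivity)
  refine ⟨Φ, δ, hδ, fun y hy hφ => le_trans ?_ (le_max_left _ _)⟩
  obtain ⟨v, hv, hyv⟩ := hΦ y hφ
  have hv2 : ‖v‖ ≤ 2 * b := by
    have : ‖v‖ ≤ ‖y‖ + ‖y - v‖ := by
      calc ‖v‖ = ‖y - (y - v)‖ := by rw [sub_sub_cancel]
        _ ≤ _ := norm_sub_le _ _
    have := hyv.trans (min_le_left _ _)
    linarith
  have h3 : ‖(‖x‖⁻¹) • x + (‖x‖⁻¹) • v‖ ≤ 1 + η / 4 * t := by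
    refine aus_conv _ V t _ htpos (by positivity) hx1 hV _ (V.smul_mem _ hv) ?_
    rw [norm_smul, norm_inv, norm_norm, ht, inv_mul_eq_div]
    exact div_le_div_of_nonneg_right hv2 hxpos.le
  rw [← smul_add, norm_smul, norm_inv, norm_norm, inv_mul_le_iff₀ hxpos] at h3
  have h4 : ‖x‖ * (1 + η / 4 * t) = ‖x‖ + η / 2 * b := by
    rw [ht]; field_simp; ring
  rw [h4] at h3
  calc ‖x + y‖ = ‖(x + v) + (y - v)‖ := by congr 1; abel
    _ ≤ ‖x + v‖ + ‖y - v‖ := norm_add_le _ _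
    _ ≤ (‖x‖ + η / 2 * b) + η / 2 * b := add_le_add h3 (hyv.trans (min_le_right _ _))
    _ = ‖x‖ + η * b := by ring

/-- the same for increments in the bidual -/
theorem aus_bidual (h : AUS X) (η : ℝ) (hη : 0 < η) : ∃ T : ℝ, 0 < T ∧ ∀ b : ℝ, 0 < b →
    ∀ x : X, ∃ Φ : Finset (StrongDual ℝ X), ∃ δ : ℝ, 0 < δ ∧
      ∀ w : StrongDual ℝ (StrongDual ℝ X), ‖w‖ ≤ b → (∀ φ ∈ Φ, |w φ| ≤ δ) →
        ‖J X x + w‖ ≤ max (‖x‖ + η * b) ((T + 1) * b) := by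
  classical
  obtain ⟨T, hT, H⟩ := aus_fin h (η / 2) (by positivity)
  refine ⟨2 * T + 1, by positivity, fun b hb x => ?_⟩
  obtain ⟨Φ, δ, hδ, hΦ⟩ := H (2 * b) (by positivity) x
  refine ⟨Φ, δ / 2, by positivity, fun w hw hwφ => ?_⟩
  set B := max (‖x‖ + η * b) ((2 * T + 1 + 1) * b) with hB
  have hB' : max (‖x‖ + η / 2 * (2 * b)) ((T + 1) * (2 * b)) = B := by
    rw [hB]; congr 1 <;> ring
  have hB0 : 0 ≤ B := le_trans (by positivity) (le_max_left _ _)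
  refine ContinuousLinearMap.opNorm_le_bound _ hB0 fun ψ => ?_
  refine le_of_forall_pos_le_add fun ε hε => ?_
  obtain ⟨y, hy1, hy2⟩ := helly w (insert ψ Φ) (min ε (min b (δ / 2))) (by positivity)
  have hyb : ‖y‖ ≤ 2 * b := by
    have := (min_le_right ε (min b (δ / 2))).trans (min_le_left _ _)
    linarith
  have hyΦ : ∀ φ ∈ Φ, |φ y| ≤ δ := fun φ hφ => by
    have h1 := hy2 φ (Finset.mem_insert_of_mem hφ)
    have h2 := hwφ φ hφ
    have h3 := (min_le_right ε (min b (δ / 2))).trans (min_le_right _ _)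
    have h4 : |φ y| ≤ |φ y - w φ| + |w φ| := by
      have := abs_add_le (φ y - w φ) (w φ)
      rwa [sub_add_cancel] at this
    linarith
  have h5 := hΦ y hyb hyΦ
  rw [hB'] at h5
  have h6 : |ψ (x + y)| ≤ B * ‖ψ‖ := by
    have := ψ.le_opNorm (x + y)
    rw [Real.norm_eq_abs] at this
    calc |ψ (x + y)| ≤ ‖ψ‖ * ‖x + y‖ := this
      _ ≤ ‖ψ‖ * B := mul_le_mul_of_nonneg_left h5 (norm_nonneg _)
      _ = B * ‖ψ‖ := mul_comm _ _
  have h7 := hy2 ψ (Finset.mem_insert_self _ _)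
  have h8 := min_le_left ε (min b (δ / 2))
  have h9 : (J X x + w) ψ = ψ (x + y) - (ψ y - w ψ) := by
    have e1 : (J X x + w) ψ = ψ x + w ψ := rfl
    rw [e1, map_add]; ring
  rw [h9, Real.norm_eq_abs]
  have h10 := abs_sub (ψ (x + y)) (ψ y - w ψ)
  linarith

end Pool.Agent.P5bf
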