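import Pool.Agent.P5bf.Helly

/-! Theorem B: approximation of bidual vectors stage by stage. -/

set_option autoImplicit false

open Filter Topology

namespace Pool.Agent.P5bf

universe u

variable {X : Type u} [NormedAddCommGroup X] [NormedSpace ℝ X]

theorem exists_norming (v : StrongDual ℝ (StrongDual ℝ X)) :
    ∃ φ : StrongDual ℝ X, ‖φ‖ ≤ 1 ∧ ‖v‖ / 2 ≤ v φ := by
  by_cases hv : ‖v‖ ≤ 0
  · refine ⟨0, by simp, ?_⟩
    rw [map_zero]; linarith
  push Not at hv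
  obtain ⟨φ, hφ1, hφ2⟩ := ContinuousLinearMap.exists_lt_apply_of_lt_opNorm v
    (r := ‖v‖ / 2) (by linarith)
  rw [Real.norm_eq_abs] at hφ2
  rcases le_total 0 (v φ) with h | h
  · exact ⟨φ, hφ1.le, by rw [abs_of_nonneg h] at hφ2; exact hφ2.le⟩
  · refine ⟨-φ, by rw [norm_neg]; exact hφ1.le, ?_⟩
    rw [map_neg]
    rw [abs_of_nonpos h] at hφ2; exact hφ2.le

/-- the vectors met in the construction -/
noncomputable def vec (w : ℕ → StrongDual ℝ (StrongDual ℝ X)) (x : ℕ → ℕ → X)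
    (S S' : Finset (ℕ × ℕ)) (A B : Finset ℕ) : StrongDual ℝ (StrongDual ℝ X) :=
  J X (∑ c ∈ S, x c.2 c.1 - ∑ c ∈ S', x c.2 c.1) + (∑ n ∈ A, w n - ∑ n ∈ B, w n)

theorem vec_congr (w : ℕ → StrongDual ℝ (StrongDual ℝ X)) (x x' : ℕ → ℕ → X) (a : ℕ)
    (h : ∀ a' < a, x a' = x' a')
    (S S' : Finset (ℕ × ℕ)) (A B : Finset ℕ)
    (hS : S ⊆ Finset.range a ×ˢ Finset.range a) (hS' : S' ⊆ Finset.range a ×ˢ Finset.range a) :
    vec w x S S' A B = vec w x' S S' A B := by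
  unfold vec
  have e1 : ∑ c ∈ S, x c.2 c.1 = ∑ c ∈ S, x' c.2 c.1 := by
    refine Finset.sum_congr rfl fun c hc => ?_
    have := Finset.mem_product.1 (hS hc)
    rw [h c.2 (Finset.mem_range.1 this.2)]
  have e2 : ∑ c ∈ S', x c.2 c.1 = ∑ c ∈ S', x' c.2 c.1 := by
    refine Finset.sum_congr rfl fun c hc => ?_
    have := Finset.mem_product.1 (hS' hc)
    rw [h c.2 (Finset.mem_range.1 this.2)]
  rw [e1, e2]

theorem exists_stages (w : ℕ → StrongDual ℝ (StrongDual ℝ X)) (M' : ℝ) (hw : ∀ n, ‖w n‖ ≤ M')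
    (nf : StrongDual ℝ (StrongDual ℝ X) → StrongDual ℝ X) (ε : ℝ) (hε : 0 < ε) (hε1 : ε ≤ 1) :
    ∃ x : ℕ → ℕ → X, (∀ a n, ‖x a n‖ ≤ M' + 1) ∧
      ∀ (a n : ℕ) (S S' : Finset (ℕ × ℕ)) (A B : Finset ℕ),
        S ⊆ Finset.range a ×ˢ Finset.range a → S' ⊆ Finset.range a ×ˢ Finset.range a →
        A ⊆ Finset.range a → B ⊆ Finset.range a →
        |nf (vec w x S S' A B) (x a n) - w n (nf (vec w x S S' A B))| ≤ ε := by
  classical
  let P2 : ℕ → Finset (Finset (ℕ × ℕ)) := fun a =>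
    (Finset.range a ×ˢ Finset.range a).powerset
  let P1 : ℕ → Finset (Finset ℕ) := fun a => (Finset.range a).powerset
  let Φ : ℕ → (ℕ → ℕ → X) → Finset (StrongDual ℝ X) := fun a H =>
    ((P2 a ×ˢ P2 a) ×ˢ (P1 a ×ˢ P1 a)).image
      (fun c => nf (vec w H c.1.1 c.1.2 c.2.1 c.2.2))
  choose nw hn1 hn2 using fun (a : ℕ) (H : ℕ → ℕ → X) (n : ℕ) => helly (w n) (Φ a H) ε hε
  let st : ℕ → (ℕ → ℕ → X) := fun a => Nat.rec (fun _ _ => 0)
    (fun a H => Function.update H a (nw a H)) a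
  have st1 : ∀ a, st (a + 1) = Function.update (st a) a (nw a (st a)) := fun a => rfl
  let x : ℕ → ℕ → X := fun a => nw a (st a)
  have hst : ∀ a a', a' < a → st a a' = x a' := by
    intro a
    induction a with
    | zero => intro a' h; omega
    | succ a ih =>
      intro a' h
      rw [st1]
      by_cases ha : a' = a
      · subst ha; rw [Function.update_self]
      · rw [Function.update_of_ne ha]; exact ih a' (by omega)
  refine ⟨x, fun a n => (hn1 a (st a) n).trans ?_, ?_⟩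
  · have := hw n; linarith
  · intro a n S S' A B hS hS' hA hB
    have e := vec_congr w x (st a) a (fun a' h => (hst a a' h).symm) S S' A B hS hS'
    rw [e]
    refine hn2 a (st a) n _ ?_
    refine Finset.mem_image.2 ⟨((S, S'), (A, B)), ?_, rfl⟩
    simp only [P2, P1, Finset.mem_product, Finset.mem_powerset]
    exact ⟨⟨hS, hS'⟩, hA, hB⟩

end Pool.Agent.P5bf
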