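import Pool.Agent.P5bf.BMaps

/-! Theorem B, assembly. -/

set_option autoImplicit false

open Filter Topology

namespace Pool.Agent.P5bf

universe u v

theorem hasMaps_of_quotient {X : Type u} [NormedAddCommGroup X] [NormedSpace ℝ X]
    {Z : Type v} [NormedAddCommGroup Z] [NormedSpace ℝ Z] [CompleteSpace Z]
    (q : StrongDual ℝ (StrongDual ℝ X) →L[ℝ] Z) (hq : IsBidualQuotient X Z q)
    (M δ : ℝ) (hδ : 0 < δ)
    (hz : ∀ k : ℕ, ∃ z : ℕ → Z, (∀ n, ‖z n‖ ≤ M) ∧ ∀ A B : Finset ℕ, A.card ≤ k → B.card ≤ k →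
      δ * ((symmDiff A B).card : ℝ) ≤ ‖∑ n ∈ A, z n - ∑ n ∈ B, z n‖) : HasMaps X := by
  classical
  obtain ⟨C, hC0, hC⟩ := open_const (B := StrongDual ℝ (StrongDual ℝ X)) q hq.1
  obtain ⟨κ, hκ, hκ2⟩ := exists_bound (B := StrongDual ℝ (StrongDual ℝ X)) q
  choose nf hnf using fun v : StrongDual ℝ (StrongDual ℝ X) => exists_norming v
  have hM : 0 ≤ M := by
    obtain ⟨z, hz1, _⟩ := hz 0
    exact (norm_nonneg _).trans (hz1 0)
  set c : ℝ := 8 * κ / δ with hc
  have hcpos : 0 < c := by positivity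
  set M' : ℝ := C * M with hM'
  have hM'0 : 0 ≤ M' := by positivity
  refine ⟨2, by norm_num, c * (2 * (M' + 1)), by positivity, fun k => ?_⟩
  rcases Nat.eq_zero_or_pos k with hk | hk
  · refine ⟨fun _ => 0, fun x y _ _ => ?_⟩
    subst hk
    have e : (Finset.univ.filter (fun i : Fin (2 * 0) => i.val < 0)) = ∅ := by
      ext i; simp
    rw [e]
    simp only [Finset.image_empty, symmDiff_self, Finset.bot_eq_empty, Finset.card_empty,
      Nat.cast_zero, sub_self, norm_zero, le_refl, true_and]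
    positivity
  have hkr : (0 : ℝ) < k := by exact_mod_cast hk
  obtain ⟨z, hz1, hz2⟩ := hz k
  choose w hw1 hw2 using fun n => hC (z n)
  have hwM : ∀ n, ‖w n‖ ≤ M' := fun n =>
    (hw2 n).trans (mul_le_mul_of_nonneg_left (hz1 n) hC0)
  set ε : ℝ := min 1 (δ / (8 * κ * k)) with hε
  have hεpos : 0 < ε := by positivity
  obtain ⟨x, hx1, hx2⟩ := exists_stages w M' hwM nf ε hεpos (min_le_left _ _)
  refine ⟨fun s => c • fB x s, fun s t hs ht => ⟨?_, ?_⟩⟩
  · rw [← smul_sub, norm_smul, Real.norm_eq_abs, abs_of_pos hcpos]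
    obtain ⟨u, A, B, hA, hB, hAB, hlow⟩ := fB_lower hk w x nf ε hnf hx2 s t hs ht
    set d := (symmDiff ((Finset.univ.filter (fun i : Fin (2 * k) => i.val < k)).image s)
          ((Finset.univ.filter (fun i : Fin (2 * k) => i.val < k)).image t)).card with hd
    have h1 := map_vec (B := StrongDual ℝ (StrongDual ℝ X)) q (J X u) w A B
      ((hq.2 _).2 ⟨u, rfl⟩)
    have h2 : q (J X u + (∑ n ∈ A, w n - ∑ n ∈ B, w n)) = ∑ n ∈ A, z n - ∑ n ∈ B, z n := by
      rw [h1]; simp only [hw1]
    have h3 := hκ2 (J X u + (∑ n ∈ A, w n - ∑ n ∈ B, w n))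
    rw [h2] at h3
    have h4 := (hz2 A B hA hB).trans h3
    set V := ‖J X u + (∑ n ∈ A, w n - ∑ n ∈ B, w n)‖ with hV
    have hV0 : 0 ≤ V := norm_nonneg (J X u + (∑ n ∈ A, w n - ∑ n ∈ B, w n))
    have h5 : (d : ℝ) ≤ 2 * ((symmDiff A B).card : ℝ) := by exact_mod_cast hAB
    -- V ≥ δ d / (2 κ)
    have h6 : δ * d ≤ 2 * κ * V := by nlinarith
    rcases Nat.eq_zero_or_pos d with hd0 | hd0
    · rw [hd0]; simp only [Nat.cast_zero]; positivity
    have hd1 : (1 : ℝ) ≤ d := by exact_mod_cast hd0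
    have h7 : 2 * (k : ℝ) * ε ≤ δ / (4 * κ) := by
      have := min_le_right 1 (δ / (8 * κ * k))
      calc 2 * (k : ℝ) * ε ≤ 2 * k * (δ / (8 * κ * k)) :=
            mul_le_mul_of_nonneg_left this (by positivity)
        _ = δ / (4 * κ) := by field_simp; ring
    have h8 : δ * d / (4 * κ) ≤ V / 2 := by
      rw [div_le_iff₀ (by positivity)]; nlinarith
    -- need: d ≥ 2 when positive; use instead the bound through the even cardinality
    have h9 : (2 : ℝ) ≤ d := by
      have hev : ∃ m, d = 2 * m := by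
        have hcard : ∀ r : Fin (2 * k) → ℕ, StrictMono r →
            ((Finset.univ.filter (fun i : Fin (2 * k) => i.val < k)).image r).card
              = (Finset.univ.filter (fun i : Fin (2 * k) => i.val < k)).card := fun r hr =>
          Finset.card_image_of_injective _ hr.injective
        set P := (Finset.univ.filter (fun i : Fin (2 * k) => i.val < k)).image s
        set Q := (Finset.univ.filter (fun i : Fin (2 * k) => i.val < k)).image t
        have e0 : P.card = Q.card := by rw [hcard s hs, hcard t ht]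
        have e1 : (symmDiff P Q).card = (P \ Q).card + (Q \ P).card := by
          rw [symmDiff_def, Finset.sup_eq_union, Finset.card_union_of_disjoint]
          exact disjoint_sdiff_sdiff
        have e2 := Finset.card_sdiff_add_card_inter P Q
        have e3 := Finset.card_sdiff_add_card_inter Q P
        rw [Finset.inter_comm Q P] at e3
        exact ⟨(P \ Q).card, by omega⟩
      obtain ⟨m, hm⟩ := hev
      have : 1 ≤ m := by omega
      have : 2 ≤ d := by omega
      exact_mod_cast this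
    have h10 : δ / (4 * κ) ≤ δ * d / (8 * κ) := by
      rw [div_le_div_iff₀ (by positivity) (by positivity)]
      have : 0 < δ * κ := by positivity
      nlinarith
    have h11 : δ * d / (8 * κ) ≤ ‖fB x s - fB x t‖ := by
      have e : δ * d / (4 * κ) = δ * d / (8 * κ) + δ * d / (8 * κ) := by field_simp; ring
      linarith
    calc (d : ℝ) = c * (δ * d / (8 * κ)) := by rw [hc]; field_simp
      _ ≤ c * ‖fB x s - fB x t‖ := mul_le_mul_of_nonneg_left h11 hcpos.le
  · rw [← smul_sub, norm_smul, Real.norm_eq_abs, abs_of_pos hcpos, mul_assoc]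
    refine mul_le_mul_of_nonneg_left ?_ hcpos.le
    have := fB_upper x (M' + 1) hx1 s t
    linarith

end Pool.Agent.P5bf
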