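import Pool.Agent.P5bf.MainU
import Pool.Agent.P5bf.AusFin

/-! The step of the tower in ultrafilter form. -/

set_option autoImplicit false

open Filter Topology

namespace Pool.Agent.P5bf

universe u v

theorem open_const {B : Type u} [NormedAddCommGroup B] [NormedSpace ℝ B] [CompleteSpace B]
    {Z : Type v} [NormedAddCommGroup Z] [NormedSpace ℝ Z] [CompleteSpace Z]
    (q : B →L[ℝ] Z) (hq : Function.Surjective q) :
    ∃ C : ℝ, 0 ≤ C ∧ ∀ z : Z, ∃ w' : B, q w' = z ∧ ‖w'‖ ≤ C * ‖z‖ := by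
  obtain ⟨C, hC, H⟩ := ContinuousLinearMap.exists_preimage_norm_le q hq
  exact ⟨C, hC.le, H⟩

theorem sub_mem_ker {B : Type u} [NormedAddCommGroup B] [NormedSpace ℝ B]
    {Z : Type v} [NormedAddCommGroup Z] [NormedSpace ℝ Z]
    (q : B →L[ℝ] Z) (w w' : B) (h : q w' = q w) : q (w - w') = 0 := by
  rw [map_sub, h, sub_self]

theorem bq_const {X : Type u} [NormedAddCommGroup X] [NormedSpace ℝ X]
    {Z : Type v} [NormedAddCommGroup Z] [NormedSpace ℝ Z] [CompleteSpace Z]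
    (q : StrongDual ℝ (StrongDual ℝ X) →L[ℝ] Z) (hq : IsBidualQuotient X Z q) :
    ∃ C : ℝ, 0 ≤ C ∧ ∀ w : StrongDual ℝ (StrongDual ℝ X), ∃ x : X,
      ‖w - J X x‖ ≤ C * ‖q w‖ := by
  obtain ⟨C, hC, H⟩ := open_const (B := StrongDual ℝ (StrongDual ℝ X)) q hq.1
  refine ⟨C, hC, fun w => ?_⟩
  obtain ⟨w', hw', hn⟩ := H (q w)
  have h0 : q (w - w') = 0 := sub_mem_ker (B := StrongDual ℝ (StrongDual ℝ X)) q w w' hw'
  obtain ⟨x, hx⟩ := (hq.2 _).1 h0
  refine ⟨x, ?_⟩
  have : w - J X x = w' := by rw [hx]; exact sub_sub_cancel w w'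
  rw [this]; exact hn

theorem stepU {X : Type u} [NormedAddCommGroup X] [NormedSpace ℝ X]
    {Z : Type v} [NormedAddCommGroup Z] [NormedSpace ℝ Z] [CompleteSpace Z]
    (hX : AUS X) (q : StrongDual ℝ (StrongDual ℝ X) →L[ℝ] Z) (hq : IsBidualQuotient X Z q)
    (hZ : ConcU Z) : ConcU X := by
  obtain ⟨C, hC0, hC⟩ := bq_const q hq
  exact main_abs (E := StrongDual ℝ X) (J X)
    (fun x => (NormedSpace.inclusionInDoubleDualLi (E := X) ℝ).norm_map x)
    (fun η hη => aus_bidual hX η hη) q C hC0 hC hZ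

theorem isoU {X : Type u} [NormedAddCommGroup X] [NormedSpace ℝ X]
    {Y : Type v} [NormedAddCommGroup Y] [NormedSpace ℝ Y] (e : X ≃L[ℝ] Y) (hY : ConcU Y) :
    ConcU X := by
  intro ε hε L
  set c : ℝ := ‖(e.symm : Y →L[ℝ] X)‖ with hc
  have hc0 : 0 ≤ c := ContinuousLinearMap.opNorm_nonneg _
  set c' : ℝ := ‖(e : X →L[ℝ] Y)‖ with hc'
  obtain ⟨K0, hK0⟩ := hY (ε / (c + 1)) (by positivity) (c' * L)
  refine ⟨K0, fun K hK f hf => ?_⟩
  have h1 := hK0 K hK (fun x => e (f x)) (fun x y hx hy => by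
    rw [← map_sub]
    refine ((e : X →L[ℝ] Y).le_opNorm _).trans ?_
    rw [mul_assoc]
    exact mul_le_mul_of_nonneg_left (hf x y hx hy) (ContinuousLinearMap.opNorm_nonneg _))
  refine h1.mono fun p hp => ?_
  rw [← map_sub] at hp
  have h2 : f p.1 - f p.2 = e.symm (e (f p.1 - f p.2)) := by simp
  rw [h2]
  refine ((e.symm : Y →L[ℝ] X).le_opNorm _).trans ?_
  have h3 : ε / (c + 1) * K ≤ ε / (c + 1) * K := le_rfl
  calc c * ‖e (f p.1 - f p.2)‖ ≤ (c + 1) * (ε / (c + 1) * K) := by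
        apply mul_le_mul (by linarith) hp (norm_nonneg _) (by positivity)
    _ = ε * K := by field_simp

theorem zeroU {X : Type u} [NormedAddCommGroup X] [NormedSpace ℝ X] (h : Subsingleton X) :
    ConcU X := by
  intro ε hε L
  refine ⟨0, fun K _ f _ => Eventually.of_forall fun p => ?_⟩
  rw [Subsingleton.elim (f p.1) (f p.2), sub_self, norm_zero]
  positivity

theorem towerU {X : Type u} [iX : NormedAddCommGroup X] [iX' : NormedSpace ℝ X]
    (h : Tower X) : ConcU X := by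
  induction h with
  | zero X h => exact zeroU h
  | step X Y Z e hY q hq hZ ih => exact isoU e (stepU hY q hq ih)

end Pool.Agent.P5bf
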