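import Pool.Agent.P5bf.BApprox
import Pool.Agent.P5bf.StepU

/-! Theorem B: the maps of Q1 exist if the bidual quotient has uniform l_1-like sequences. -/

set_option autoImplicit false

open Filter Topology

namespace Pool.Agent.P5bf

universe u v

theorem exists_bound {B : Type u} [NormedAddCommGroup B] [NormedSpace ℝ B]
    {Z : Type v} [NormedAddCommGroup Z] [NormedSpace ℝ Z] (q : B →L[ℝ] Z) :
    ∃ κ : ℝ, 0 < κ ∧ ∀ w : B, ‖q w‖ ≤ κ * ‖w‖ := by
  refine ⟨‖q‖ + 1, by positivity, fun w => (q.le_opNorm w).trans ?_⟩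
  have := norm_nonneg w
  nlinarith

theorem map_vec {B : Type u} [NormedAddCommGroup B] [NormedSpace ℝ B]
    {Z : Type v} [NormedAddCommGroup Z] [NormedSpace ℝ Z] (q : B →L[ℝ] Z) (a : B) (w : ℕ → B)
    (S T : Finset ℕ) (ha : q a = 0) :
    q (a + (∑ n ∈ S, w n - ∑ n ∈ T, w n)) = ∑ n ∈ S, q (w n) - ∑ n ∈ T, q (w n) := by
  simp [ha, map_sum]

variable {X : Type u} [NormedAddCommGroup X] [NormedSpace ℝ X]

/-- first half of the indices -/
def iA {k : ℕ} (i : Fin k) : Fin (2 * k) := ⟨i, by omega⟩

/-- second half of the indices -/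
def iB {k : ℕ} (i : Fin k) : Fin (2 * k) := ⟨k + i, by omega⟩

/-- the map -/
noncomputable def fB {k : ℕ} (x : ℕ → ℕ → X) (s : Fin (2 * k) → ℕ) : X :=
  ∑ i : Fin k, x (s (iB i)) (s (iA i))

omit [NormedSpace ℝ X] in
theorem fB_upper {k : ℕ} (x : ℕ → ℕ → X) (M : ℝ) (hM : ∀ a n, ‖x a n‖ ≤ M)
    (s t : Fin (2 * k) → ℕ) : ‖fB x s - fB x t‖ ≤ 2 * M * (hammingDist s t : ℝ) := by
  classical
  have hM0 : 0 ≤ M := (norm_nonneg (x 0 0)).trans (hM 0 0)
  unfold fB
  rw [← Finset.sum_sub_distrib]
  refine (norm_sum_le _ _).trans ?_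
  set Bad : Finset (Fin k) := Finset.univ.filter
    (fun i => s (iA i) ≠ t (iA i) ∨ s (iB i) ≠ t (iB i)) with hBad
  have h1 : ∀ i : Fin k, ‖x (s (iB i)) (s (iA i)) - x (t (iB i)) (t (iA i))‖
      ≤ if i ∈ Bad then 2 * M else 0 := by
    intro i
    split_ifs with h
    · refine (norm_sub_le _ _).trans ?_
      have := hM (s (iB i)) (s (iA i))
      have := hM (t (iB i)) (t (iA i))
      linarith
    · rw [hBad, Finset.mem_filter] at h
      push Not at h
      obtain ⟨e1, e2⟩ := h (Finset.mem_univ _)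
      rw [e1, e2, sub_self, norm_zero]
  refine (Finset.sum_le_sum fun i _ => h1 i).trans ?_
  rw [Finset.sum_ite_mem, Finset.univ_inter, Finset.sum_const, nsmul_eq_mul, mul_comm]
  refine mul_le_mul_of_nonneg_left ?_ (by positivity)
  have h2 : Bad.card ≤ hammingDist s t := by
    unfold hammingDist
    refine Finset.card_le_card_of_injOn
      (fun i => if s (iA i) ≠ t (iA i) then iA i else iB i) ?_ ?_
    · intro i hi
      have hi' := (Finset.mem_filter.1 hi).2
      simp only [Finset.coe_filter, Finset.mem_univ, true_and]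
      show s _ ≠ t _
      by_cases h : s (iA i) ≠ t (iA i)
      · rw [if_pos h]; exact h
      · rw [if_neg h]; exact hi'.resolve_left h
    · intro i _ j _ hij
      simp only at hij
      have hi := i.2
      have hj := j.2
      apply Fin.ext
      split_ifs at hij <;> simp only [iA, iB, Fin.mk.injEq] at hij <;> omega
  exact_mod_cast h2

theorem card_symm (k : ℕ) (N M A : Finset ℕ) (hN : N.card = k) (hM : M.card = k) (hA : A ⊆ N) :
    (symmDiff N M).card ≤ 2 * (symmDiff A M).card := by
  classical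
  have e : ∀ P Q : Finset ℕ, (symmDiff P Q).card + 2 * (P ∩ Q).card = P.card + Q.card := by
    intro P Q
    have h1 : (symmDiff P Q).card = (P \ Q).card + (Q \ P).card := by
      rw [symmDiff_def, Finset.sup_eq_union, Finset.card_union_of_disjoint]
      exact disjoint_sdiff_sdiff
    have h2 := Finset.card_sdiff_add_card_inter P Q
    have h3 := Finset.card_sdiff_add_card_inter Q P
    rw [Finset.inter_comm Q P] at h3
    omega
  have e1 := e N M
  have e2 := e A M
  have h1 : (A ∩ M).card ≤ (N ∩ M).card := Finset.card_le_card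
    (Finset.inter_subset_inter_right hA)
  have h2 : (A ∩ M).card ≤ A.card := Finset.card_le_card Finset.inter_subset_left
  omega

theorem fB_lower {k : ℕ} (hk : 0 < k) (w : ℕ → StrongDual ℝ (StrongDual ℝ X)) (x : ℕ → ℕ → X)
    (nf : StrongDual ℝ (StrongDual ℝ X) → StrongDual ℝ X) (ε : ℝ)
    (hnf : ∀ v, ‖nf v‖ ≤ 1 ∧ ‖v‖ / 2 ≤ v (nf v))
    (hx : ∀ (a n : ℕ) (S S' : Finset (ℕ × ℕ)) (A B : Finset ℕ),
        S ⊆ Finset.range a ×ˢ Finset.range a → S' ⊆ Finset.range a ×ˢ Finset.range a →
        A ⊆ Finset.range a → B ⊆ Finset.range a →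
        |nf (vec w x S S' A B) (x a n) - w n (nf (vec w x S S' A B))| ≤ ε)
    (s t : Fin (2 * k) → ℕ) (hs : StrictMono s) (ht : StrictMono t) :
    ∃ (u : X) (A B : Finset ℕ), A.card ≤ k ∧ B.card ≤ k ∧
      (symmDiff ((Finset.univ.filter (fun i : Fin (2 * k) => i.val < k)).image s)
          ((Finset.univ.filter (fun i : Fin (2 * k) => i.val < k)).image t)).card
        ≤ 2 * (symmDiff A B).card ∧
      ‖J X u + (∑ n ∈ A, w n - ∑ n ∈ B, w n)‖ / 2 - 2 * k * ε ≤ ‖fB x s - fB x t‖ := by
  classical
  set a0 : ℕ := max (s (iA ⟨k - 1, by omega⟩)) (t (iA ⟨k - 1, by omega⟩)) with ha0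
  have hsA : ∀ i : Fin k, s (iA i) ≤ a0 := fun i =>
    (hs.monotone (by simp only [iA, Fin.le_def]; omega)).trans (le_max_left _ _)
  have htA : ∀ i : Fin k, t (iA i) ≤ a0 := fun i =>
    (ht.monotone (by simp only [iA, Fin.le_def]; omega)).trans (le_max_right _ _)
  have hinjS : Function.Injective (fun i : Fin k => s (iA i)) := fun i j h => by
    have := hs.injective h
    simp only [iA, Fin.mk.injEq] at this
    exact Fin.ext this
  have hinjT : Function.Injective (fun i : Fin k => t (iA i)) := fun i j h => by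
    have := ht.injective h
    simp only [iA, Fin.mk.injEq] at this
    exact Fin.ext this
  set I : Finset (Fin k) := Finset.univ.filter (fun i => a0 < s (iB i)) with hI
  set I' : Finset (Fin k) := Finset.univ.filter (fun i => a0 < t (iB i)) with hI'
  set S : Finset (ℕ × ℕ) := (Finset.univ.filter (fun i => ¬ a0 < s (iB i))).image
    (fun i : Fin k => (s (iA i), s (iB i))) with hS
  set S' : Finset (ℕ × ℕ) := (Finset.univ.filter (fun i => ¬ a0 < t (iB i))).image
    (fun i : Fin k => (t (iA i), t (iB i))) with hS'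
  set A : Finset ℕ := I.image (fun i => s (iA i)) with hA
  set B : Finset ℕ := I'.image (fun i => t (iA i)) with hB
  set u : X := ∑ c ∈ S, x c.2 c.1 - ∑ c ∈ S', x c.2 c.1 with hu
  set v := vec w x S S' A B with hv
  have hSa : ∀ a, a0 < a → S ⊆ Finset.range a ×ˢ Finset.range a := by
    intro a ha c hc
    rw [hS, Finset.mem_image] at hc
    obtain ⟨i, hi, rfl⟩ := hc
    have h1 := (Finset.mem_filter.1 hi).2
    have h2 := hsA i
    simp only [Finset.mem_product, Finset.mem_range]
    omega
  have hSa' : ∀ a, a0 < a → S' ⊆ Finset.range a ×ˢ Finset.range a := by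
    intro a ha c hc
    rw [hS', Finset.mem_image] at hc
    obtain ⟨i, hi, rfl⟩ := hc
    have h1 := (Finset.mem_filter.1 hi).2
    have h2 := htA i
    simp only [Finset.mem_product, Finset.mem_range]
    omega
  have hAa : ∀ a, a0 < a → A ⊆ Finset.range a := by
    intro a ha c hc
    rw [hA, Finset.mem_image] at hc
    obtain ⟨i, _, rfl⟩ := hc
    have h2 := hsA i
    simp only [Finset.mem_range]
    omega
  have hBa : ∀ a, a0 < a → B ⊆ Finset.range a := by
    intro a ha c hc
    rw [hB, Finset.mem_image] at hc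
    obtain ⟨i, _, rfl⟩ := hc
    have h2 := htA i
    simp only [Finset.mem_range]
    omega
  refine ⟨u, A, B, ?_, ?_, ?_, ?_⟩
  · exact (Finset.card_image_le).trans ((Finset.card_filter_le _ _).trans (by simp))
  · exact (Finset.card_image_le).trans ((Finset.card_filter_le _ _).trans (by simp))
  · -- combinatorics
    have himg : ∀ r : Fin (2 * k) → ℕ,
        (Finset.univ.filter (fun i : Fin (2 * k) => i.val < k)).image r
          = Finset.univ.image (fun i : Fin k => r (iA i)) := by
      intro r
      ext c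
      simp only [Finset.mem_image, Finset.mem_filter, Finset.mem_univ, true_and]
      constructor
      · rintro ⟨i, hi, rfl⟩
        exact ⟨⟨i, hi⟩, rfl⟩
      · rintro ⟨i, rfl⟩
        exact ⟨iA i, i.2, rfl⟩
    rw [himg s, himg t]
    set N := Finset.univ.image (fun i : Fin k => s (iA i)) with hN
    set P := Finset.univ.image (fun i : Fin k => t (iA i)) with hP
    have hNc : N.card = k := by
      rw [hN, Finset.card_image_of_injective _ hinjS]; simp
    have hPc : P.card = k := by
      rw [hP, Finset.card_image_of_injective _ hinjT]; simp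
    have hAN : A ⊆ N := Finset.image_subset_image (Finset.subset_univ _)
    have hBP : B ⊆ P := Finset.image_subset_image (Finset.subset_univ _)
    rcases le_total (s (iA ⟨k - 1, by omega⟩)) (t (iA ⟨k - 1, by omega⟩)) with h | h
    · -- a0 is the maximum of t
      have hBeq : B = P := by
        rw [hB, hP]
        congr 1
        rw [hI', Finset.filter_true_of_mem]
        intro i _
        rw [ha0, max_eq_right h]
        exact ht (by simp only [iA, iB, Fin.lt_def]; omega)
      rw [hBeq]
      exact card_symm k N P A hNc hPc hAN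
    · have hAeq : A = N := by
        rw [hA, hN]
        congr 1
        rw [hI, Finset.filter_true_of_mem]
        intro i _
        rw [ha0, max_eq_left h]
        exact hs (by simp only [iA, iB, Fin.lt_def]; omega)
      rw [hAeq, symmDiff_comm N P, symmDiff_comm N B]
      exact card_symm k P N B hPc hNc hBP
  · -- analysis
    set φ := nf v with hφ
    have hsum : ∀ (r : Fin (2 * k) → ℕ), fB x r
        = ∑ i ∈ Finset.univ.filter (fun i : Fin k => a0 < r (iB i)), x (r (iB i)) (r (iA i))
          + ∑ i ∈ Finset.univ.filter (fun i : Fin k => ¬ a0 < r (iB i)),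
              x (r (iB i)) (r (iA i)) := by
      intro r
      unfold fB
      rw [Finset.sum_filter_add_sum_filter_not]
    have hSs : ∑ c ∈ S, x c.2 c.1
        = ∑ i ∈ Finset.univ.filter (fun i : Fin k => ¬ a0 < s (iB i)), x (s (iB i)) (s (iA i)) := by
      rw [hS, Finset.sum_image]
      intro i _ j _ hij
      exact hinjS (Prod.ext_iff.1 hij).1
    have hSt : ∑ c ∈ S', x c.2 c.1
        = ∑ i ∈ Finset.univ.filter (fun i : Fin k => ¬ a0 < t (iB i)), x (t (iB i)) (t (iA i)) := by
      rw [hS', Finset.sum_image]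
      intro i _ j _ hij
      exact hinjT (Prod.ext_iff.1 hij).1
    have hAs : ∑ n ∈ A, w n φ = ∑ i ∈ I, w (s (iA i)) φ := by
      rw [hA, Finset.sum_image]
      intro i _ j _ hij
      exact hinjS hij
    have hBt : ∑ n ∈ B, w n φ = ∑ i ∈ I', w (t (iA i)) φ := by
      rw [hB, Finset.sum_image]
      intro i _ j _ hij
      exact hinjT hij
    have hv1 : v φ = φ u + (∑ n ∈ A, w n φ - ∑ n ∈ B, w n φ) := by
      rw [hv, vec]
      have e1 : ∀ (T : Finset ℕ), (∑ n ∈ T, w n) φ = ∑ n ∈ T, w n φ := fun T => by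
        induction T using Finset.induction_on with
        | empty => rfl
        | insert a T ha ih =>
          rw [Finset.sum_insert ha, Finset.sum_insert ha, ← ih]; rfl
      have e2 : (J X (∑ c ∈ S, x c.2 c.1 - ∑ c ∈ S', x c.2 c.1)
          + (∑ n ∈ A, w n - ∑ n ∈ B, w n)) φ
          = φ (∑ c ∈ S, x c.2 c.1 - ∑ c ∈ S', x c.2 c.1)
            + ((∑ n ∈ A, w n) φ - (∑ n ∈ B, w n) φ) := rfl
      rw [e2, e1, e1]
    have hI1 : ∀ i ∈ I, w (s (iA i)) φ - ε ≤ φ (x (s (iB i)) (s (iA i))) := by
      intro i hi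
      have ha := (Finset.mem_filter.1 hi).2
      have := hx (s (iB i)) (s (iA i)) S S' A B (hSa _ ha) (hSa' _ ha) (hAa _ ha) (hBa _ ha)
      rw [← hv, ← hφ] at this
      have := (abs_le.1 this).1
      linarith
    have hI2 : ∀ i ∈ I', φ (x (t (iB i)) (t (iA i))) ≤ w (t (iA i)) φ + ε := by
      intro i hi
      have ha := (Finset.mem_filter.1 hi).2
      have := hx (t (iB i)) (t (iA i)) S S' A B (hSa _ ha) (hSa' _ ha) (hAa _ ha) (hBa _ ha)
      rw [← hv, ← hφ] at this
      have := (abs_le.1 this).2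
      linarith
    have hε : 0 ≤ ε := (abs_nonneg _).trans (hx 0 0 ∅ ∅ ∅ ∅ (by simp) (by simp) (by simp) (by simp))
    have c1 : (I.card : ℝ) ≤ k := by
      have := (Finset.card_filter_le (Finset.univ : Finset (Fin k)) (fun i => a0 < s (iB i)))
      simp only [Finset.card_univ, Fintype.card_fin] at this
      exact_mod_cast this
    have c2 : (I'.card : ℝ) ≤ k := by
      have := (Finset.card_filter_le (Finset.univ : Finset (Fin k)) (fun i => a0 < t (iB i)))
      simp only [Finset.card_univ, Fintype.card_fin] at this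
      exact_mod_cast this
    have s1 : ∑ i ∈ I, w (s (iA i)) φ - k * ε ≤ ∑ i ∈ I, φ (x (s (iB i)) (s (iA i))) := by
      have := Finset.sum_le_sum hI1
      rw [Finset.sum_sub_distrib, Finset.sum_const, nsmul_eq_mul] at this
      nlinarith
    have s2 : ∑ i ∈ I', φ (x (t (iB i)) (t (iA i))) ≤ ∑ i ∈ I', w (t (iA i)) φ + k * ε := by
      have := Finset.sum_le_sum hI2
      rw [Finset.sum_add_distrib, Finset.sum_const, nsmul_eq_mul] at this
      nlinarith
    have key : v φ - 2 * k * ε ≤ φ (fB x s - fB x t) := by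
      have g1 := hsum s
      have g2 := hsum t
      rw [← hI] at g1
      rw [← hI'] at g2
      rw [hv1, hu, hSs, hSt, hAs, hBt, g1, g2]
      simp only [map_sub, map_add, map_sum]
      linarith
    have h1 : φ (fB x s - fB x t) ≤ ‖fB x s - fB x t‖ := by
      have h2 := φ.le_opNorm (fB x s - fB x t)
      rw [Real.norm_eq_abs] at h2
      have h3 := (hnf v).1
      have h4 := le_abs_self (φ (fB x s - fB x t))
      have h5 := norm_nonneg (fB x s - fB x t)
      nlinarith
    have h2 := (hnf v).2
    rw [← hφ] at h2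
    show ‖v‖ / 2 - 2 * k * ε ≤ _
    linarith

end Pool.Agent.P5bf
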