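import Pool.Agent.P5bf.Null

/-! One block of the induction, and the induction over the blocks. -/

set_option autoImplicit false

open Filter Topology

namespace Pool.Agent.P5bf

universe u v w

variable {X : Type u} [NormedAddCommGroup X] [NormedSpace ℝ X]
variable {E : Type v} [NormedAddCommGroup E] [NormedSpace ℝ E]
variable {Z : Type w} [NormedAddCommGroup Z] [NormedSpace ℝ Z]

theorem block (J' : X →L[ℝ] StrongDual ℝ E) (hJ : ∀ x, ‖J' x‖ = ‖x‖)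
    (g : (ℕ → ℕ) → StrongDual ℝ E) (K : ℕ) (M : ℝ) (hM : ∀ x, ‖g x‖ ≤ M)
    (Λ : ℝ) (hΛ : 0 < Λ) (hL : LipN K Λ g) (η T b ρ R : ℝ) (hη : 0 < η) (hb : 0 < b)
    (hA : ∀ x : X, ∃ Φ : Finset E, ∃ δ : ℝ, 0 < δ ∧ ∀ w : StrongDual ℝ E, ‖w‖ ≤ b →
      (∀ φ ∈ Φ, |w φ| ≤ δ) → ‖J' x + w‖ ≤ max (‖x‖ + η * b) ((T + 1) * b))
    (hR : (T + 1) * b ≤ R) (i a : ℕ) (hia : i + a ≤ K) (hab : 2 * Λ * a ≤ b)
    (p : (ℕ → ℕ) × (ℕ → ℕ)) (hp : Good i p) (hD : ‖D g K i p‖ ≤ R)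
    (hq : ∃ x : X, ‖D g K i p - J' x‖ ≤ ρ) :
    ∀ᶠ p' in Ext i a p, ‖D g K (i + a) p'‖ ≤ R + (η * b + 2 * ρ) := by
  obtain ⟨x, hx⟩ := hq
  have hρ : 0 ≤ ρ := (norm_nonneg (D g K i p - J' x)).trans hx
  obtain ⟨Φ, δ, hδ, hΦ⟩ := hA x
  have h1 := D_norm g K M hM Λ hΛ.le hL a i hia p hp
  have h2 : ∀ᶠ p' in Ext i a p, ∀ φ ∈ Φ, |(D g K (i + a) p' - D g K i p) φ| ≤ δ := by
    rw [eventually_all_finset]
    intro φ _
    exact (D_null g K M hM φ a i hia p δ hδ).mono fun p' h => h.le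
  filter_upwards [h1, h2] with p' h1' h2'
  have h3 := hΦ (D g K (i + a) p' - D g K i p) (h1'.trans hab) h2'
  have hxn : ‖x‖ ≤ R + ρ := by
    rw [← hJ x]
    calc ‖J' x‖ = ‖D g K i p - (D g K i p - J' x)‖ := by rw [sub_sub_cancel]
      _ ≤ ‖D g K i p‖ + ‖D g K i p - J' x‖ := norm_sub_le _ _
      _ ≤ R + ρ := add_le_add hD hx
  have h4 : ‖J' x + (D g K (i + a) p' - D g K i p)‖ ≤ R + ρ + η * b := by
    refine h3.trans (max_le (by linarith) ?_)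
    have : 0 < η * b := by positivity
    linarith
  calc ‖D g K (i + a) p'‖
      = ‖(J' x + (D g K (i + a) p' - D g K i p)) + (D g K i p - J' x)‖ := by congr 1; abel
    _ ≤ ‖J' x + (D g K (i + a) p' - D g K i p)‖ + ‖D g K i p - J' x‖ := norm_add_le _ _
    _ ≤ R + (η * b + 2 * ρ) := by linarith

theorem blocks (J' : X →L[ℝ] StrongDual ℝ E) (hJ : ∀ x, ‖J' x‖ = ‖x‖)
    (g : (ℕ → ℕ) → StrongDual ℝ E) (K : ℕ) (M : ℝ) (hM : ∀ x, ‖g x‖ ≤ M)
    (Λ : ℝ) (hΛ : 0 < Λ) (hL : LipN K Λ g) (η T b ρ : ℝ) (hη : 0 < η) (hb : 0 < b)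
    (hT : 0 < T) (hρ : 0 ≤ ρ)
    (hA : ∀ x : X, ∃ Φ : Finset E, ∃ δ : ℝ, 0 < δ ∧ ∀ w : StrongDual ℝ E, ‖w‖ ≤ b →
      (∀ φ ∈ Φ, |w φ| ≤ δ) → ‖J' x + w‖ ≤ max (‖x‖ + η * b) ((T + 1) * b))
    (s : ℕ) (hs : 0 < s) (hab : 2 * Λ * s ≤ b)
    (hq : ∀ i, min s K ≤ i → i ≤ K → ∀ᶠ p in Ext 0 i p0, ∃ x : X, ‖D g K i p - J' x‖ ≤ ρ)
    (c : ℕ) : ∀ᶠ p in Ext 0 (min (c * s) K) p0,
      ‖D g K (min (c * s) K) p‖ ≤ (T + 1) * b + c * (η * b + 2 * ρ) := by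
  induction c with
  | zero =>
    simp only [Nat.zero_mul, Nat.zero_min, ev_ext_zero]
    have : D g K 0 p0 = 0 := by simp [D, p0]
    rw [this, norm_zero]
    positivity
  | succ c ih =>
    set i := min (c * s) K with hi
    set i' := min ((c + 1) * s) K with hi'
    have hcs : (c + 1) * s = c * s + s := by ring
    have hii : i ≤ i' := by rw [hi, hi', hcs]; omega
    obtain ⟨a, ha⟩ := Nat.exists_eq_add_of_le hii
    have has : a ≤ s := by rw [hi, hi', hcs] at ha; omega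
    have hiK : i + a ≤ K := by rw [← ha, hi']; exact min_le_right _ _
    have hgood : ∀ᶠ p in Ext 0 i p0, Good i p := by
      have := good_ext i good_p0
      rwa [Nat.zero_add] at this
    have hqi : ∀ᶠ p in Ext 0 i p0, ∃ x : X, ‖D g K i p - J' x‖ ≤ ρ := by
      rcases Nat.eq_zero_or_pos c with hc | hc
      · have hi0 : i = 0 := by rw [hi, hc]; simp
        rw [hi0, ev_ext_zero]
        refine ⟨0, ?_⟩
        have : D g K 0 p0 = 0 := by simp [D, p0]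
        rw [this, map_zero, sub_zero, norm_zero]
        exact hρ
      · refine hq i ?_ (min_le_right _ _)
        rw [hi]
        have : s ≤ c * s := Nat.le_mul_of_pos_left s hc
        omega
    rw [ha, ev_ext_add]
    filter_upwards [ih, hgood, hqi] with p h1 h2 h3
    have h4 := block J' hJ g K M hM Λ hΛ hL η T b ρ ((T + 1) * b + c * (η * b + 2 * ρ)) hη hb hA
      (by have : 0 ≤ (c : ℝ) * (η * b + 2 * ρ) := by positivity
          linarith) i a hiK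
      (le_trans (by
        have : (a : ℝ) ≤ s := by exact_mod_cast has
        nlinarith) hab) p h2 h1 h3
    rw [Nat.zero_add]
    refine h4.mono fun p' hp' => ?_
    push_cast
    linarith

end Pool.Agent.P5bf
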