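import Pool.Agent.P5bf.Homog4

/-! Block tuples. -/

set_option autoImplicit false

namespace Pool.Agent.P5bf

variable {k m : ℕ}

theorem lex_split {p q : ℕ} (m : ℕ) (h : p < q) : p / m < q / m ∨ (p / m = q / m ∧ p % m < q % m) := by
  rcases lt_or_eq_of_le (Nat.div_le_div_right (c := m) h.le) with h1 | h1
  · exact Or.inl h1
  · right
    refine ⟨h1, ?_⟩
    have h2 := Nat.div_add_mod p m
    have h3 := Nat.div_add_mod q m
    rw [h1] at h2
    omega

/-- the block of a position -/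
def blk (hm : 0 < m) (p : Fin (k * m)) : Fin k :=
  ⟨p / m, by rw [Nat.div_lt_iff_lt_mul hm]; exact p.2⟩

theorem qd_bound (hm : 0 < m) (c : ℕ) (hc : c ≤ 2 * m + 1) (p : Fin (k * m)) :
    4 * m * ((p : ℕ) / m) + 2 * ((p : ℕ) % m) + c < 4 * (k * m) := by
  have h1 : (p : ℕ) / m + 1 ≤ k := (blk hm p).2
  have h2 := Nat.mul_le_mul_left (4 * m) h1
  have h3 := Nat.mod_lt (p : ℕ) hm
  have h4 : 4 * m * ((p : ℕ) / m + 1) = 4 * m * ((p : ℕ) / m) + 4 * m := by ring
  have h5 : 4 * m * k = 4 * (k * m) := by ring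
  omega

/-- index maps into `4 K` -/
def qd (hm : 0 < m) (c : ℕ) (hc : c ≤ 2 * m + 1) (p : Fin (k * m)) : Fin (4 * (k * m)) :=
  ⟨4 * m * ((p : ℕ) / m) + 2 * ((p : ℕ) % m) + c, qd_bound hm c hc p⟩

theorem qd_sm (hm : 0 < m) (c : ℕ) (hc : c ≤ 2 * m + 1) :
    StrictMono (qd hm c hc : Fin (k * m) → Fin (4 * (k * m))) := by
  intro p q hpq
  rw [Fin.lt_def] at hpq ⊢
  simp only [qd]
  rcases lex_split m hpq with h | ⟨h, h'⟩
  · have h2 := Nat.mul_le_mul_left (4 * m) (Nat.succ_le_of_lt h)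
    have h3 := Nat.mod_lt (p : ℕ) hm
    have h4 : 4 * m * ((p : ℕ) / m).succ = 4 * m * ((p : ℕ) / m) + 4 * m := by
      rw [Nat.succ_eq_add_one]; ring
    omega
  · rw [h]; omega

/-- configurations given blockwise -/
def Uc (hm : 0 < m) (ψ : Fin k → ℕ → ℕ) (i : Fin (4 * (k * m))) : ℕ :=
  ψ ⟨(i : ℕ) / (4 * m), by
    rw [Nat.div_lt_iff_lt_mul (by omega)]
    have := i.2
    have h5 : k * (4 * m) = 4 * (k * m) := by ring
    omega⟩ ((i : ℕ) % (4 * m))

theorem Uc_sm (hm : 0 < m) (ψ : Fin k → ℕ → ℕ)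
    (h1 : ∀ j b b', b < b' → b' < 4 * m → ψ j b < ψ j b')
    (h2 : ∀ j j' : Fin k, j < j' → ∀ b b', b < 4 * m → b' < 4 * m → ψ j b < ψ j' b') :
    StrictMono (Uc hm ψ) := by
  intro p q hpq
  rw [Fin.lt_def] at hpq
  unfold Uc
  have hm4 : 0 < 4 * m := by omega
  rcases lex_split (4 * m) hpq with h | ⟨h, h'⟩
  · exact h2 _ _ (by rw [Fin.lt_def]; exact h) _ _ (Nat.mod_lt _ hm4) (Nat.mod_lt _ hm4)
  · have : (⟨(p : ℕ) / (4 * m), by
        rw [Nat.div_lt_iff_lt_mul (by omega)]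
        have := p.2
        have h5 : k * (4 * m) = 4 * (k * m) := by ring
        omega⟩ : Fin k) = ⟨(q : ℕ) / (4 * m), by
        rw [Nat.div_lt_iff_lt_mul (by omega)]
        have := q.2
        have h5 : k * (4 * m) = 4 * (k * m) := by ring
        omega⟩ := Fin.ext h
    rw [this]
    exact h1 _ _ _ h' (Nat.mod_lt _ hm4)

theorem Uc_qd (hm : 0 < m) (ψ : Fin k → ℕ → ℕ) (c : ℕ) (hc : c ≤ 2 * m + 1) (p : Fin (k * m)) :
    Uc hm ψ (qd hm c hc p) = ψ (blk hm p) (2 * ((p : ℕ) % m) + c) := by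
  unfold Uc qd blk
  have h3 := Nat.mod_lt (p : ℕ) hm
  have h1 : 4 * m * ((p : ℕ) / m) + 2 * ((p : ℕ) % m) + c =
      4 * m * ((p : ℕ) / m) + (2 * ((p : ℕ) % m) + c) := by omega
  have h4 : (4 * m * ((p : ℕ) / m) + (2 * ((p : ℕ) % m) + c)) / (4 * m) = (p : ℕ) / m := by
    have h0 : (2 * ((p : ℕ) % m) + c) / (4 * m) = 0 := Nat.div_eq_of_lt (by omega)
    rw [Nat.mul_add_div (by omega), h0, add_zero]
  have h5 : (4 * m * ((p : ℕ) / m) + (2 * ((p : ℕ) % m) + c)) % (4 * m) =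
      2 * ((p : ℕ) % m) + c := by
    rw [Nat.mul_add_mod, Nat.mod_eq_of_lt (by omega)]
  simp only [h1, h4, h5]

/-- the block tuple with shift -/
def bt (hm : 0 < m) (n : Fin k → ℕ) (c : ℕ) (p : Fin (k * m)) : ℕ :=
  2 * m * n (blk hm p) + 2 * ((p : ℕ) % m) + c

theorem bt_sm (hm : 0 < m) (n : Fin k → ℕ) (hn : StrictMono n) (c : ℕ) : StrictMono (bt hm n c) := by
  intro p q hpq
  rw [Fin.lt_def] at hpq
  unfold bt
  rcases lex_split m hpq with h | ⟨h, h'⟩
  · have h1 : n (blk hm p) < n (blk hm q) := hn (by rw [Fin.lt_def]; exact h)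
    have h2 := Nat.mul_le_mul_left (2 * m) (Nat.succ_le_of_lt h1)
    have h3 := Nat.mod_lt (p : ℕ) hm
    have h4 : 2 * m * (n (blk hm p)).succ = 2 * m * n (blk hm p) + 2 * m := by
      rw [Nat.succ_eq_add_one]; ring
    omega
  · have : blk hm p = blk hm q := Fin.ext h
    rw [this]; omega

/-- the configuration of two interlaced block tuples -/
def psi1 (m : ℕ) (n n' : Fin k → ℕ) (j : Fin k) (b : ℕ) : ℕ :=
  if b < 2 * m then 2 * m * n j + b else 2 * m * n' j + (b - 2 * m)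

theorem psi1_sm (hm : 0 < m) (n n' : Fin k → ℕ) (h1 : ∀ j, n j < n' j)
    (h2 : ∀ i j, i < j → n' i < n j) : StrictMono (Uc hm (psi1 m n n')) := by
  have key : ∀ a b : ℕ, a < b → 2 * m * a + 2 * m ≤ 2 * m * b := by
    intro a b hab
    have h2 := Nat.mul_le_mul_left (2 * m) (Nat.succ_le_of_lt hab)
    have h4 : 2 * m * a.succ = 2 * m * a + 2 * m := by rw [Nat.succ_eq_add_one]; ring
    omega
  refine Uc_sm hm _ ?_ ?_
  · intro j b b' hb hb'
    unfold psi1
    have := key _ _ (h1 j)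
    split_ifs <;> omega
  · intro j j' hjj b b' hb hb'
    unfold psi1
    have e1 := key _ _ (h1 j)
    have e2 := key _ _ (h2 j j' hjj)
    have e3 := key _ _ (h1 j')
    split_ifs <;> omega

theorem psi1_qd0 (hm : 0 < m) (n n' : Fin k → ℕ) (c : ℕ) (hc : c ≤ 1) (p : Fin (k * m)) :
    Uc hm (psi1 m n n') (qd hm c (by omega) p) = bt hm n c p := by
  rw [Uc_qd]
  unfold psi1 bt
  have h3 := Nat.mod_lt (p : ℕ) hm
  rw [if_pos (by omega)]
  omega

theorem psi1_qd1 (hm : 0 < m) (n n' : Fin k → ℕ) (c : ℕ) (hc : c ≤ 1) (p : Fin (k * m)) :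
    Uc hm (psi1 m n n') (qd hm (2 * m + c) (by omega) p) = bt hm n' c p := by
  rw [Uc_qd]
  unfold psi1 bt
  have h3 := Nat.mod_lt (p : ℕ) hm
  rw [if_neg (by omega)]
  omega

/-- the configuration of the chain -/
def psi2 (m R i : ℕ) (j : Fin k) (b : ℕ) : ℕ :=
  j * (m * R + 2 * m) + if b < 2 * m then (b / 2) * R + i + b % 2 else m * R + (b - 2 * m)

theorem psi2_sm (hm : 0 < m) (R i : ℕ) (hi : i + 1 < R) :
    StrictMono (Uc hm (psi2 m R i : Fin k → ℕ → ℕ)) := by
  have key : ∀ a b : ℕ, a < b → a * R + R ≤ b * R := by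
    intro a b hab
    have h2 := Nat.mul_le_mul_right R (Nat.succ_le_of_lt hab)
    have h4 : a.succ * R = a * R + R := by rw [Nat.succ_eq_add_one]; ring
    omega
  refine Uc_sm hm _ ?_ ?_
  · intro j b b' hb hb'
    unfold psi2
    have : (if b < 2 * m then (b / 2) * R + i + b % 2 else m * R + (b - 2 * m)) <
        (if b' < 2 * m then (b' / 2) * R + i + b' % 2 else m * R + (b' - 2 * m)) := by
      split_ifs with h1 h2 h2
      · rcases lt_or_eq_of_le (Nat.div_le_div_right (c := 2) hb.le) with h3 | h3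
        · have := key _ _ h3; omega
        · rw [h3]; omega
      · have := key (b / 2) m (by omega); omega
      · omega
      · omega
    omega
  · intro j j' hjj b b' hb hb'
    unfold psi2
    have h0 : (j : ℕ) + 1 ≤ j' := hjj
    have h2 := Nat.mul_le_mul_right (m * R + 2 * m) h0
    have h4 : ((j : ℕ) + 1) * (m * R + 2 * m) = j * (m * R + 2 * m) + (m * R + 2 * m) := by ring
    have h5 : (if b < 2 * m then (b / 2) * R + i + b % 2 else m * R + (b - 2 * m)) <
        m * R + 2 * m := by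
      split_ifs with h1
      · have := key (b / 2) m (by omega); omega
      · omega
    omega

/-- the chain tuples -/
def xt (hm : 0 < m) (R i : ℕ) (p : Fin (k * m)) : ℕ :=
  (blk hm p : ℕ) * (m * R + 2 * m) + (((p : ℕ) % m) * R + i)

theorem psi2_qd0 (hm : 0 < m) (R i : ℕ) (p : Fin (k * m)) :
    Uc hm (psi2 m R i) (qd hm 0 (by omega) p) = xt hm R i p := by
  rw [Uc_qd]
  unfold psi2 xt
  have h3 := Nat.mod_lt (p : ℕ) hm
  have h4 : (2 * ((p : ℕ) % m) + 0) / 2 = (p : ℕ) % m := by omega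
  rw [if_pos (by omega), h4]
  omega

theorem psi2_qd1 (hm : 0 < m) (R i : ℕ) (p : Fin (k * m)) :
    Uc hm (psi2 m R i) (qd hm 1 (by omega) p) = xt hm R (i + 1) p := by
  rw [Uc_qd]
  unfold psi2 xt
  have h3 := Nat.mod_lt (p : ℕ) hm
  have h4 : (2 * ((p : ℕ) % m) + 1) / 2 = (p : ℕ) % m := by omega
  rw [if_pos (by omega), h4]
  omega

/-- the comparison tuples -/
def yt (hm : 0 < m) (R c : ℕ) (p : Fin (k * m)) : ℕ :=
  (blk hm p : ℕ) * (m * R + 2 * m) + (m * R + (2 * ((p : ℕ) % m) + c))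

theorem psi2_qd2 (hm : 0 < m) (R i c : ℕ) (hc : c ≤ 1) (p : Fin (k * m)) :
    Uc hm (psi2 m R i) (qd hm (2 * m + c) (by omega) p) = yt hm R c p := by
  rw [Uc_qd]
  unfold psi2 yt
  have h3 := Nat.mod_lt (p : ℕ) hm
  rw [if_neg (by omega)]
  have : 2 * ((p : ℕ) % m) + (2 * m + c) - 2 * m = 2 * ((p : ℕ) % m) + c := by omega
  rw [this]

theorem xt_sm (hm : 0 < m) (R i : ℕ) (hi : i < R) : StrictMono (xt hm R i : Fin (k * m) → ℕ) := by
  intro p q hpq
  rw [Fin.lt_def] at hpq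
  unfold xt
  have key : ∀ a b : ℕ, a < b → a * R + R ≤ b * R := by
    intro a b hab
    have h2 := Nat.mul_le_mul_right R (Nat.succ_le_of_lt hab)
    have h4 : a.succ * R = a * R + R := by rw [Nat.succ_eq_add_one]; ring
    omega
  have h3 := Nat.mod_lt (p : ℕ) hm
  rcases lex_split m hpq with h | ⟨h, h'⟩
  · have h1 : (blk hm p : ℕ) + 1 ≤ blk hm q := h
    have h2 := Nat.mul_le_mul_right (m * R + 2 * m) h1
    have h4 : ((blk hm p : ℕ) + 1) * (m * R + 2 * m) =
      (blk hm p : ℕ) * (m * R + 2 * m) + (m * R + 2 * m) := by ring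
    have := key _ _ h3
    omega
  · have : blk hm p = blk hm q := Fin.ext h
    rw [this]
    have := key _ _ h'
    omega

/-- interlaced pairs -/
def Inter {K : ℕ} (x y : Fin K → ℕ) : Prop :=
  StrictMono x ∧ StrictMono y ∧ (∀ i, x i < y i) ∧ ∀ i j, i < j → y i < x j

theorem inter_of_spaced {K : ℕ} (x y : Fin K → ℕ) (hx : ∀ i j, i < j → x i + 2 ≤ x j)
    (hy : ∀ i, y i = x i + 1) : Inter x y := by
  refine ⟨fun a b h => ?_, fun a b h => ?_, fun i => ?_, fun i j h => ?_⟩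
  · have := hx a b h; omega
  · have := hx a b h; rw [hy, hy]; omega
  · rw [hy]; omega
  · have := hx i j h; rw [hy]; omega

theorem yt_inter (hm : 0 < m) (R : ℕ) : Inter (yt hm R 0 : Fin (k * m) → ℕ) (yt hm R 1) := by
  refine inter_of_spaced _ _ (fun p q hpq => ?_) (fun p => by unfold yt; omega)
  rw [Fin.lt_def] at hpq
  unfold yt
  have h3 := Nat.mod_lt (p : ℕ) hm
  rcases lex_split m hpq with h | ⟨h, h'⟩
  · have h1 : (blk hm p : ℕ) + 1 ≤ blk hm q := h
    have h2 := Nat.mul_le_mul_right (m * R + 2 * m) h1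
    have h4 : ((blk hm p : ℕ) + 1) * (m * R + 2 * m) =
      (blk hm p : ℕ) * (m * R + 2 * m) + (m * R + 2 * m) := by ring
    omega
  · have : blk hm p = blk hm q := Fin.ext h
    rw [this]
    omega

theorem bt_inter (hm : 0 < m) (n : Fin k → ℕ) (hn : StrictMono n) :
    Inter (bt hm n 0) (bt hm n 1) := by
  refine inter_of_spaced _ _ (fun p q hpq => ?_) (fun p => by unfold bt; omega)
  rw [Fin.lt_def] at hpq
  unfold bt
  have h3 := Nat.mod_lt (p : ℕ) hm
  rcases lex_split m hpq with h | ⟨h, h'⟩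
  · have h1 : n (blk hm p) < n (blk hm q) := hn (by rw [Fin.lt_def]; exact h)
    have h2 := Nat.mul_le_mul_left (2 * m) (Nat.succ_le_of_lt h1)
    have h4 : 2 * m * (n (blk hm p)).succ = 2 * m * n (blk hm p) + 2 * m := by
      rw [Nat.succ_eq_add_one]; ring
    omega
  · have : blk hm p = blk hm q := Fin.ext h
    rw [this]; omega

theorem bt_hamming (hm : 0 < m) (n n' : Fin k → ℕ) (c : ℕ) :
    hammingDist (bt hm n c) (bt hm n' c) ≤ m * hammingDist n n' := by
  classical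
  unfold hammingDist
  have hsub : Finset.univ.filter (fun p => bt hm n c p ≠ bt hm n' c p) ⊆
      (Finset.univ.filter (fun j => n j ≠ n' j)).biUnion
        (fun j => Finset.univ.filter (fun p => blk hm p = j)) := by
    intro p hp
    rw [Finset.mem_filter] at hp
    rw [Finset.mem_biUnion]
    refine ⟨blk hm p, Finset.mem_filter.2 ⟨Finset.mem_univ _, fun h => hp.2 ?_⟩,
      Finset.mem_filter.2 ⟨Finset.mem_univ _, rfl⟩⟩
    unfold bt; rw [h]
  refine (Finset.card_le_card hsub).trans ((Finset.card_biUnion_le).trans ?_)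
  have h1 : ∀ j : Fin k, (Finset.univ.filter (fun p : Fin (k * m) => blk hm p = j)).card ≤ m := by
    intro j
    have : (Finset.univ.filter (fun p : Fin (k * m) => blk hm p = j)).card ≤
        (Finset.range m).card := by
      refine Finset.card_le_card_of_injOn (fun p => (p : ℕ) % m) ?_ ?_
      · intro p _
        rw [Finset.mem_coe, Finset.mem_range]
        exact Nat.mod_lt _ hm
      · intro p hp q hq hpq
        rw [Finset.mem_coe, Finset.mem_filter] at hp hq
        have h1 := congrArg Fin.val (hp.2.trans hq.2.symm)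
        simp only [blk] at h1
        have h2 := Nat.div_add_mod (p : ℕ) m
        have h3 := Nat.div_add_mod (q : ℕ) m
        simp only at hpq
        rw [h1, hpq] at h2
        exact Fin.ext (h2.symm.trans h3)
    rwa [Finset.card_range] at this
  refine (Finset.sum_le_sum fun j _ => h1 j).trans ?_
  rw [Finset.sum_const, smul_eq_mul, mul_comm]

end Pool.Agent.P5bf
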