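import Mathlib

/-! Coding of pairs (tuple, stages) by increasing tuples. -/

set_option autoImplicit false

namespace Pool.Agent.P5bf

/-- the slot of stage `a`, position `p`, with code `v ≤ a` -/
def pos (K a p v : ℕ) : ℕ := K * (a + 1) ^ 2 + p * (a + 1) + v

theorem pos_lt_of_stage {K a a' p q v v' : ℕ} (hp : p < K) (hv : v ≤ a) (h : a < a') :
    pos K a p v < pos K a' q v' := by
  unfold pos
  have h1 : K * (a + 2) ^ 2 ≤ K * (a' + 1) ^ 2 :=
    Nat.mul_le_mul_left _ (Nat.pow_le_pow_left (by omega) 2)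
  have h2 : (p + 1) * (a + 1) ≤ K * (a + 1) := Nat.mul_le_mul_right _ hp
  nlinarith [Nat.zero_le (q * (a' + 1)), Nat.zero_le v']

theorem pos_lt_of_pos {K a p q v v' : ℕ} (hv : v ≤ a) (h : p < q) :
    pos K a p v < pos K a q v' := by
  unfold pos
  have h2 : (p + 1) * (a + 1) ≤ q * (a + 1) := Nat.mul_le_mul_right _ h
  nlinarith [Nat.zero_le v']

theorem pos_inj {K a a' p q v v' : ℕ} (hp : p < K) (hq : q < K) (hv : v ≤ a) (hv' : v' ≤ a')
    (h : pos K a p v = pos K a' q v') : a = a' ∧ p = q ∧ v = v' := by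
  rcases lt_trichotomy a a' with h1 | h1 | h1
  · exact absurd h (ne_of_lt (pos_lt_of_stage hp hv h1))
  · subst h1
    rcases lt_trichotomy p q with h2 | h2 | h2
    · exact absurd h (ne_of_lt (pos_lt_of_pos hv h2))
    · subst h2
      unfold pos at h
      exact ⟨rfl, rfl, by omega⟩
    · exact absurd h.symm (ne_of_lt (pos_lt_of_pos hv' h2))
  · exact absurd h.symm (ne_of_lt (pos_lt_of_stage hq hv' h1))

/-- the code carried by the position `p` -/
noncomputable def vcode {K k m : ℕ} (J : Fin m × Fin k → Fin K) (w : Fin (2 * k) → ℕ) (p : Fin K) :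
    ℕ :=
  open Classical in
  if h : ∃ c, J c = p then w ⟨(h.choose.2 : ℕ), by have := h.choose.2.2; omega⟩ else 0

theorem vcode_J {K k m : ℕ} (J : Fin m × Fin k → Fin K) (hJ : Function.Injective J)
    (w : Fin (2 * k) → ℕ) (c : Fin m × Fin k) :
    vcode J w (J c) = w ⟨(c.2 : ℕ), by have := c.2.2; omega⟩ := by
  classical
  have h : ∃ c', J c' = J c := ⟨c, rfl⟩
  unfold vcode
  rw [dif_pos h]
  have : h.choose = c := hJ h.choose_spec
  simp only [this]

theorem vcode_le {K k m : ℕ} (J : Fin m × Fin k → Fin K) (w : Fin (2 * k) → ℕ)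
    (hw : StrictMono w) (p : Fin K) (j : Fin (2 * k)) (hj : k ≤ j) : vcode J w p ≤ w j := by
  classical
  unfold vcode
  split_ifs with h
  · refine (hw ?_).le
    rw [Fin.lt_def]
    have := h.choose.2.2
    simp only
    omega
  · exact Nat.zero_le _

/-- the stage coordinate that controls the position `p` -/
def stg {K k : ℕ} (hk : 0 < k) (p : Fin K) : Fin (2 * k) :=
  ⟨k + p / (K / k + 1), by
    have h1 : (p : ℕ) / (K / k + 1) < k := by
      rw [Nat.div_lt_iff_lt_mul (Nat.succ_pos _)]
      have h2 := Nat.div_add_mod K k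
      have h3 := Nat.mod_lt K hk
      have h4 := p.2
      nlinarith
    omega⟩

theorem stg_mono {K k : ℕ} (hk : 0 < k) {p q : Fin K} (h : p < q) : stg hk p ≤ stg hk q := by
  rw [Fin.le_def]
  simp only [stg]
  have := Nat.div_le_div_right (c := K / k + 1) (le_of_lt (Fin.lt_def.1 h))
  omega

/-- the coded tuple -/
noncomputable def code {K k m : ℕ} (hk : 0 < k) (J : Fin m × Fin k → Fin K)
    (w : Fin (2 * k) → ℕ) (p : Fin K) : ℕ :=
  pos K (w (stg hk p)) p (vcode J w p)

theorem stg_ge {K k : ℕ} (hk : 0 < k) (p : Fin K) : k ≤ (stg hk p : ℕ) := by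
  simp only [stg]; exact Nat.le_add_right _ _

theorem code_sm {K k m : ℕ} (hk : 0 < k) (J : Fin m × Fin k → Fin K)
    (w : Fin (2 * k) → ℕ) (hw : StrictMono w) : StrictMono (code hk J w) := by
  intro p q hpq
  have h1 := vcode_le J w hw p (stg hk p) (stg_ge hk p)
  have h2 := hw.monotone (stg_mono hk hpq)
  unfold code
  rcases lt_or_eq_of_le h2 with h3 | h3
  · exact pos_lt_of_stage p.2 h1 h3
  · rw [← h3]
    exact pos_lt_of_pos h1 hpq

theorem code_inj {K k m : ℕ} (hk : 0 < k) (J : Fin m × Fin k → Fin K)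
    (w w' : Fin (2 * k) → ℕ) (hw : StrictMono w) (hw' : StrictMono w') (p q : Fin K)
    (h : code hk J w p = code hk J w' q) : p = q ∧ vcode J w p = vcode J w' q := by
  have h1 := vcode_le J w hw p (stg hk p) (stg_ge hk p)
  have h2 := vcode_le J w' hw' q (stg hk q) (stg_ge hk q)
  have h3 := pos_inj p.2 q.2 h1 h2 h
  exact ⟨Fin.ext h3.2.1, h3.2.2⟩

/-- the moved positions -/
noncomputable def moved {K k m : ℕ} (J : Fin m × Fin k → Fin K) (w w' : Fin (2 * k) → ℕ) :
    Finset (Fin K) :=
  open Classical in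
  ((Finset.univ : Finset (Fin m)) ×ˢ
    (Finset.univ.filter (fun i : Fin k => w ⟨i, by omega⟩ ≠ w' ⟨i, by omega⟩))).image J

theorem moved_card {K k m : ℕ} (J : Fin m × Fin k → Fin K) (hJ : Function.Injective J)
    (w w' : Fin (2 * k) → ℕ) :
    (moved J w w').card =
      m * (Finset.univ.filter (fun i : Fin (2 * k) => i.val < k ∧ w i ≠ w' i)).card := by
  classical
  unfold moved
  rw [Finset.card_image_of_injective _ hJ, Finset.card_product, Finset.card_univ, Fintype.card_fin]
  congr 1
  refine Finset.card_bij (fun i _ => (⟨i, by omega⟩ : Fin (2 * k))) ?_ ?_ ?_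
  · intro i hi
    rw [Finset.mem_filter] at hi ⊢
    exact ⟨Finset.mem_univ _, i.2, hi.2⟩
  · intro i _ j _ hij
    rw [Fin.mk.injEq] at hij
    exact Fin.ext hij
  · intro j hj
    rw [Finset.mem_filter] at hj
    exact ⟨⟨j, hj.2.1⟩, Finset.mem_filter.2 ⟨Finset.mem_univ _, hj.2.2⟩, rfl⟩

theorem moved_ne {K k m : ℕ} (hk : 0 < k) (J : Fin m × Fin k → Fin K)
    (hJ : Function.Injective J) (w w' : Fin (2 * k) → ℕ) (hw : StrictMono w)
    (hw' : StrictMono w') : ∀ p ∈ moved J w w', ∀ q, code hk J w p ≠ code hk J w' q := by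
  classical
  intro p hp q h
  obtain ⟨h1, h2⟩ := code_inj hk J w w' hw hw' p q h
  subst h1
  unfold moved at hp
  rw [Finset.mem_image] at hp
  obtain ⟨c, hc, rfl⟩ := hp
  rw [Finset.mem_product, Finset.mem_filter] at hc
  rw [vcode_J J hJ, vcode_J J hJ] at h2
  exact hc.2.2 h2

theorem code_hamming {K k m : ℕ} (hk : 0 < k) (J : Fin m × Fin k → Fin K)
    (hJ : Function.Injective J) (w w' : Fin (2 * k) → ℕ) :
    (Finset.univ.filter (fun p => code hk J w p ≠ code hk J w' p)).card ≤
      (m + (K / k + 1)) * hammingDist w w' := by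
  classical
  let P : Fin (2 * k) → Finset (Fin K) := fun j =>
    ((Finset.univ : Finset (Fin m × Fin k)).filter (fun c => (c.2 : ℕ) = j)).image J ∪
      Finset.univ.filter (fun p => stg hk p = j)
  have hP : ∀ j, (P j).card ≤ m + (K / k + 1) := by
    intro j
    refine (Finset.card_union_le _ _).trans (Nat.add_le_add ?_ ?_)
    · refine Finset.card_image_le.trans ?_
      have : ((Finset.univ : Finset (Fin m × Fin k)).filter (fun c => (c.2 : ℕ) = j)).card ≤
          (Finset.univ : Finset (Fin m)).card := by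
        refine Finset.card_le_card_of_injOn (fun c => c.1)
          (fun c _ => Finset.mem_coe.2 (Finset.mem_univ _)) ?_
        intro c hc d hd hcd
        rw [Finset.mem_coe, Finset.mem_filter] at hc hd
        exact Prod.ext hcd (Fin.ext (hc.2.trans hd.2.symm))
      rwa [Finset.card_univ, Fintype.card_fin] at this
    · have : (Finset.univ.filter (fun p : Fin K => stg hk p = j)).card ≤
          (Finset.range (K / k + 1)).card := by
        refine Finset.card_le_card_of_injOn (fun p => (p : ℕ) % (K / k + 1)) ?_ ?_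
        · intro p _
          rw [Finset.mem_coe, Finset.mem_range]
          exact Nat.mod_lt _ (Nat.succ_pos _)
        · intro p hp q hq hpq
          rw [Finset.mem_coe, Finset.mem_filter] at hp hq
          have h1 := congrArg Fin.val (hp.2.trans hq.2.symm)
          simp only [stg] at h1
          have h2 := Nat.div_add_mod (p : ℕ) (K / k + 1)
          have h3 := Nat.div_add_mod (q : ℕ) (K / k + 1)
          have h4 : (p : ℕ) / (K / k + 1) = (q : ℕ) / (K / k + 1) := by omega
          simp only at hpq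
          rw [h4, hpq] at h2
          exact Fin.ext (h2.symm.trans h3)
      rwa [Finset.card_range] at this
  have hsub : Finset.univ.filter (fun p => code hk J w p ≠ code hk J w' p) ⊆
      (Finset.univ.filter (fun j => w j ≠ w' j)).biUnion P := by
    intro p hp
    rw [Finset.mem_filter] at hp
    rw [Finset.mem_biUnion]
    by_cases hs : w (stg hk p) = w' (stg hk p)
    · have hv : vcode J w p ≠ vcode J w' p := by
        intro hv
        refine hp.2 ?_
        unfold code
        rw [hs, hv]
      by_cases hc : ∃ c, J c = p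
      · obtain ⟨c, rfl⟩ := hc
        rw [vcode_J J hJ, vcode_J J hJ] at hv
        refine ⟨_, Finset.mem_filter.2 ⟨Finset.mem_univ _, hv⟩, ?_⟩
        refine Finset.mem_union_left _ (Finset.mem_image_of_mem _ ?_)
        exact Finset.mem_filter.2 ⟨Finset.mem_univ _, rfl⟩
      · refine absurd ?_ hv
        unfold vcode
        rw [dif_neg hc, dif_neg hc]
    · exact ⟨stg hk p, Finset.mem_filter.2 ⟨Finset.mem_univ _, hs⟩,
        Finset.mem_union_right _ (Finset.mem_filter.2 ⟨Finset.mem_univ _, rfl⟩)⟩
  refine (Finset.card_le_card hsub).trans ?_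
  refine (Finset.card_biUnion_le).trans ?_
  refine (Finset.sum_le_sum fun j _ => hP j).trans ?_
  rw [Finset.sum_const, smul_eq_mul, mul_comm]
  rfl

end Pool.Agent.P5bf
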