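import Pool.Agent.P5bf.Ramsey

/-! The ultrafilter form and the plain form of the concentration property are equivalent. -/

set_option autoImplicit false

open Filter Topology

namespace Pool.Agent.P5bf

universe u

/-- entries at even places -/
def xs (w : List ℕ) : ℕ → ℕ := fun a => w.getD (2 * a) 0

/-- entries at odd places -/
def ys (w : List ℕ) : ℕ → ℕ := fun a => w.getD (2 * a + 1) 0

theorem xs_append (w : List ℕ) (i n : ℕ) (hw : w.length = 2 * i) :
    xs (w ++ [n]) = Function.update (xs w) i n := by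
  funext a
  unfold xs
  by_cases ha : a = i
  · subst ha
    rw [Function.update_self, ← hw, List.getD_append_right _ _ _ _ le_rfl]
    simp
  · rw [Function.update_of_ne ha]
    rcases Nat.lt_or_ge a i with h | h
    · rw [List.getD_append _ _ _ _ (by omega)]
    · rw [List.getD_eq_default _ _ (by simp; omega), List.getD_eq_default _ _ (by omega)]

theorem ys_append (w : List ℕ) (i n : ℕ) (hw : w.length = 2 * i) :
    ys (w ++ [n]) = ys w := by
  funext a
  unfold ys
  rcases Nat.lt_or_ge a i with h | h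
  · rw [List.getD_append _ _ _ _ (by omega)]
  · rw [List.getD_eq_default _ _ (by simp; omega), List.getD_eq_default _ _ (by omega)]

theorem xs_append' (w : List ℕ) (i n : ℕ) (hw : w.length = 2 * i + 1) :
    xs (w ++ [n]) = xs w := by
  funext a
  unfold xs
  rcases Nat.lt_or_ge a (i + 1) with h | h
  · rw [List.getD_append _ _ _ _ (by omega)]
  · rw [List.getD_eq_default _ _ (by simp; omega), List.getD_eq_default _ _ (by omega)]

theorem ys_append' (w : List ℕ) (i n : ℕ) (hw : w.length = 2 * i + 1) :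
    ys (w ++ [n]) = Function.update (ys w) i n := by
  funext a
  unfold ys
  by_cases ha : a = i
  · subst ha
    rw [Function.update_self, ← hw, List.getD_append_right _ _ _ _ le_rfl]
    simp
  · rw [Function.update_of_ne ha]
    rcases Nat.lt_or_ge a i with h | h
    · rw [List.getD_append _ _ _ _ (by omega)]
    · rw [List.getD_eq_default _ _ (by simp; omega), List.getD_eq_default _ _ (by omega)]

theorem ext_gw (P : (ℕ → ℕ) × (ℕ → ℕ) → Prop) (j : ℕ) : ∀ (i : ℕ) (w : List ℕ),
    w.length = 2 * i → (∀ᶠ p in Ext i j (xs w, ys w), P p) →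
      Gw (fun w => P (xs w, ys w)) (2 * j) w := by
  induction j with
  | zero =>
    intro i w _ h
    rw [ev_ext_zero] at h
    exact h
  | succ j ih =>
    intro i w hw h
    rw [ev_ext_succ] at h
    have e : 2 * (j + 1) = 2 * j + 1 + 1 := by ring
    rw [e]
    show ∀ᶠ n in (U : Filter ℕ), Gw _ (2 * j + 1) (w ++ [n])
    refine h.mono fun n hn => ?_
    show ∀ᶠ m in (U : Filter ℕ), Gw _ (2 * j) (w ++ [n] ++ [m])
    refine hn.mono fun m hm => ?_
    refine ih (i + 1) _ (by simp [hw]; ring) ?_
    have l1 : (w ++ [n]).length = 2 * i + 1 := by simp [hw]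
    rw [xs_append' _ i _ l1, ys_append' _ i _ l1, xs_append _ i _ hw, ys_append _ i _ hw]
    exact hm

/-- composition with a sequence on the first `K` entries -/
def TT (t : ℕ → ℕ) (K : ℕ) (x : ℕ → ℕ) : ℕ → ℕ := fun i => if i < K then t (x i) else 0

theorem ramsey_pair (P : (ℕ → ℕ) × (ℕ → ℕ) → Prop) (K : ℕ) (h : ∀ᶠ p in Ext 0 K p0, P p) :
    ∃ t : ℕ → ℕ, StrictMono t ∧ ∀ x y : ℕ → ℕ, Good K (x, y) → P (TT t K x, TT t K y) := by
  have h0 : (xs [], ys []) = p0 := by
    refine Prod.ext ?_ ?_
    · funext a; simp [xs, p0]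
    · funext a; simp [ys, p0]
  have h1 := ext_gw P K 0 [] rfl (by rw [h0]; exact h)
  obtain ⟨t, ht, H⟩ := ramsey_list _ (2 * K) h1
  refine ⟨t, ht, fun x y hxy => ?_⟩
  obtain ⟨hx, hy, h2, h3⟩ := hxy
  simp only at hx hy h2 h3
  let z : ℕ → ℕ := fun a => if a % 2 = 0 then x (a / 2) else y (a / 2)
  have hz0 : ∀ a, z (2 * a) = x a := fun a => by
    simp only [z]; rw [if_pos (by omega)]; congr 1; omega
  have hz1 : ∀ a, z (2 * a + 1) = y a := fun a => by
    simp only [z]; rw [if_neg (by omega)]; congr 1; omega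
  have hzlt : ∀ a b, a < b → b < 2 * K → z a < z b := by
    intro a b hab hb
    rcases Nat.even_or_odd' a with ⟨a', rfl | rfl⟩ <;> rcases Nat.even_or_odd' b with ⟨b', rfl | rfl⟩
    · rw [hz0, hz0]; exact hx _ _ (by omega) (by omega)
    · rw [hz0, hz1]
      rcases Nat.lt_or_ge a' b' with h | h
      · exact (hx _ _ h (by omega)).trans (h2 _ (by omega))
      · have : a' = b' := by omega
        subst this; exact h2 _ (by omega)
    · rw [hz1, hz0]; exact h3 _ _ (by omega) (by omega)
    · rw [hz1, hz1]; exact hy _ _ (by omega) (by omega)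
  have hs : ((List.range (2 * K)).map z).Pairwise (· < ·) := by
    rw [List.pairwise_map]
    refine List.pairwise_lt_range.imp_of_mem ?_
    intro a b _ hb hab
    exact hzlt a b hab (List.mem_range.1 hb)
  have h4 := H _ hs (by simp)
  have e1 : xs (((List.range (2 * K)).map z).map t) = TT t K x := by
    funext a
    unfold xs TT
    split_ifs with ha
    · rw [List.getD_eq_getElem _ _ (by simp; omega)]
      simp [hz0]
    · rw [List.getD_eq_default _ _ (by simp; omega)]
  have e2 : ys (((List.range (2 * K)).map z).map t) = TT t K y := by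
    funext a
    unfold ys TT
    split_ifs with ha
    · rw [List.getD_eq_getElem _ _ (by simp; omega)]
      simp [hz1]
    · rw [List.getD_eq_default _ _ (by simp; omega)]
  rw [e1, e2] at h4
  exact h4

theorem hd_eq_hamming (K : ℕ) (x y : ℕ → ℕ) :
    hammingDist (fun i : Fin K => x i) (fun i : Fin K => y i) = hd K x y := by
  unfold hammingDist hd
  refine Finset.card_nbij (i := fun i : Fin K => (i : ℕ)) ?_ ?_ ?_
  · intro i hi
    simp only [Finset.coe_filter, Finset.mem_univ, true_and, Set.mem_setOf_eq,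
      Finset.mem_range] at hi ⊢
    simpa using hi
  · intro a _ b _ h
    exact Fin.ext h
  · intro a ha
    simp only [Finset.coe_filter, Finset.mem_range, Set.mem_setOf_eq] at ha
    exact ⟨⟨a, ha.1⟩, by simpa using ha.2, rfl⟩

theorem conc_of_concU {Z : Type u} [NormedAddCommGroup Z] [NormedSpace ℝ Z] (h : ConcU Z) :
    Conc Z := by
  intro ε hε
  obtain ⟨K0, hK0⟩ := h ε hε 1
  refine ⟨K0, fun K hK f hf => ?_⟩
  have h1 := hK0 K hK (fun x => f (fun i : Fin K => x i)) (fun x y hx hy => by
    rw [one_mul, ← hd_eq_hamming]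
    exact hf _ _ (fun a b hab => hx a b hab b.2) (fun a b hab => hy a b hab b.2))
  have h2 : ∀ᶠ p in Ext 0 K p0, Good K p := by
    have := good_ext K good_p0
    rwa [Nat.zero_add] at this
  obtain ⟨p, hp1, hp2⟩ := (h1.and h2).exists
  exact ⟨fun i => p.1 i, fun i => p.2 i, fun a b hab => hp2.1 a b hab b.2,
    fun a b hab => hp2.2.1 a b hab b.2, fun i => hp2.2.2.1 i i.2,
    fun i j hij => hp2.2.2.2 i j hij j.2, hp1⟩

theorem concU_of_conc {Z : Type u} [NormedAddCommGroup Z] [NormedSpace ℝ Z] (h : Conc Z) :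
    ConcU Z := by
  classical
  intro ε hε L
  set Λ : ℝ := max L 1 with hΛd
  have hΛ : 0 < Λ := lt_of_lt_of_le one_pos (le_max_right _ _)
  obtain ⟨K0, hK0⟩ := h (ε / Λ) (by positivity)
  refine ⟨K0, fun K hK f hf => ?_⟩
  rcases ext_em 0 K p0 (fun p => ‖f p.1 - f p.2‖ ≤ ε * K) with H | H
  · exact H
  exfalso
  obtain ⟨t, ht, HT⟩ := ramsey_pair _ K H
  let ex : (Fin K → ℕ) → (ℕ → ℕ) := fun x i => if hi : i < K then x ⟨i, hi⟩ else 0
  have hex : ∀ (x : Fin K → ℕ) (i : Fin K), ex x i = x i := fun x i => by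
    simp only [ex]; rw [dif_pos i.2]
  have hTTsm : ∀ x : Fin K → ℕ, StrictMono x → SM K (TT t K (ex x)) := by
    intro x hx a b hab hb
    unfold TT
    rw [if_pos (by omega), if_pos hb]
    refine ht ?_
    have h1 := hex x ⟨a, by omega⟩
    have h2 := hex x ⟨b, hb⟩
    simp only at h1 h2
    rw [h1, h2]
    exact hx (by simpa using hab)
  have hham : ∀ x y : Fin K → ℕ, hd K (TT t K (ex x)) (TT t K (ex y)) = hammingDist x y := by
    intro x y
    rw [← hd_eq_hamming]
    unfold hammingDist
    congr 1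
    ext i
    simp only [Finset.mem_filter, Finset.mem_univ, true_and, TT, i.2, if_true, hex]
    exact not_congr ht.injective.eq_iff
  obtain ⟨x, y, hx, hy, hxy, hyx, hle⟩ := hK0 K hK (fun x => (Λ⁻¹ : ℝ) • f (TT t K (ex x)))
    (fun x y hx hy => by
      rw [← smul_sub, norm_smul, norm_inv, Real.norm_eq_abs, abs_of_pos hΛ, inv_mul_le_iff₀ hΛ]
      have := hf _ _ (hTTsm x hx) (hTTsm y hy)
      rw [hham] at this
      exact this.trans (mul_le_mul_of_nonneg_right (le_max_left _ _) (Nat.cast_nonneg _)))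
  have hgood : Good K (ex x, ex y) := by
    refine ⟨?_, ?_, ?_, ?_⟩
    · intro a b hab hb
      have h1 := hex x ⟨a, by omega⟩
      have h2 := hex x ⟨b, hb⟩
      simp only at h1 h2 ⊢
      rw [h1, h2]; exact hx (by simpa using hab)
    · intro a b hab hb
      have h1 := hex y ⟨a, by omega⟩
      have h2 := hex y ⟨b, hb⟩
      simp only at h1 h2 ⊢
      rw [h1, h2]; exact hy (by simpa using hab)
    · intro j hj
      have h1 := hex x ⟨j, hj⟩
      have h2 := hex y ⟨j, hj⟩
      simp only at h1 h2 ⊢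
      rw [h1, h2]; exact hxy _
    · intro j l hjl hl
      have h1 := hex y ⟨j, by omega⟩
      have h2 := hex x ⟨l, hl⟩
      simp only at h1 h2 ⊢
      rw [h1, h2]; exact hyx _ _ (by simpa using hjl)
  refine HT _ _ hgood ?_
  rw [← smul_sub, norm_smul, norm_inv, Real.norm_eq_abs, abs_of_pos hΛ, inv_mul_le_iff₀ hΛ] at hle
  have e : Λ * (ε / Λ * K) = ε * K := by field_simp
  rwa [e] at hle

end Pool.Agent.P5bf
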