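import Pool.Agent.P5bf.ConcEq
import Pool.Agent.P5bf.StepU

/-! Concentration of bidual valued maps modulo the space. -/

set_option autoImplicit false

open Filter Topology

namespace Pool.Agent.P5bf

universe u

/-- every 1-Lipschitz `B`-valued map on the increasing `K`-tuples has, for `K` large, an
interlaced pair whose difference is within `ε K` of the image of `j` -/
def ConcModG {X : Type u} [NormedAddCommGroup X] [NormedSpace ℝ X]
    {B : Type u} [NormedAddCommGroup B] [NormedSpace ℝ B] (j : X →L[ℝ] B) : Prop :=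
  ∀ ε : ℝ, 0 < ε → ∃ K0 : ℕ, ∀ K : ℕ, K0 ≤ K → ∀ f : (Fin K → ℕ) → B,
    (∀ x y : Fin K → ℕ, StrictMono x → StrictMono y → ‖f x - f y‖ ≤ (hammingDist x y : ℝ)) →
    ∃ x y : Fin K → ℕ, StrictMono x ∧ StrictMono y ∧ (∀ i, x i < y i) ∧
      (∀ i j, i < j → y i < x j) ∧ ∃ v : X, ‖(f x - f y) - j v‖ ≤ ε * K

/-- the same for bidual valued maps and the canonical image of `X` -/
def ConcMod (X : Type u) [NormedAddCommGroup X] [NormedSpace ℝ X] : Prop :=
  ConcModG (B := StrongDual ℝ (StrongDual ℝ X)) (J X)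

/-- the general form of the passage to ultrafilters -/
theorem concU_gen {Z : Type u} [NormedAddCommGroup Z] [NormedSpace ℝ Z] (P : ℝ → Z → Prop)
    (hP : ∀ c : ℝ, 0 < c → ∀ r v, P r v → P (c * r) (c • v))
    (h : ∀ ε : ℝ, 0 < ε → ∃ K0 : ℕ, ∀ K : ℕ, K0 ≤ K → ∀ f : (Fin K → ℕ) → Z,
      (∀ x y : Fin K → ℕ, StrictMono x → StrictMono y → ‖f x - f y‖ ≤ (hammingDist x y : ℝ)) →
      ∃ x y : Fin K → ℕ, StrictMono x ∧ StrictMono y ∧ (∀ i, x i < y i) ∧
        (∀ i j, i < j → y i < x j) ∧ P (ε * K) (f x - f y)) :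
    ∀ ε : ℝ, 0 < ε → ∀ L : ℝ, ∃ K0 : ℕ, ∀ K : ℕ, K0 ≤ K → ∀ f : (ℕ → ℕ) → Z, LipN K L f →
      ∀ᶠ p in Ext 0 K p0, P (ε * K) (f p.1 - f p.2) := by
  classical
  intro ε hε L
  set Λ : ℝ := max L 1 with hΛd
  have hΛ : 0 < Λ := lt_of_lt_of_le one_pos (le_max_right _ _)
  obtain ⟨K0, hK0⟩ := h (ε / Λ) (by positivity)
  refine ⟨K0, fun K hK f hf => ?_⟩
  rcases ext_em 0 K p0 (fun p => P (ε * K) (f p.1 - f p.2)) with H | H
  · exact H
  exfalso
  obtain ⟨t, ht, HT⟩ := ramsey_pair _ K H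
  let ex : (Fin K → ℕ) → (ℕ → ℕ) := fun x i => if hi : i < K then x ⟨i, hi⟩ else 0
  have hex : ∀ (x : Fin K → ℕ) (i : Fin K), ex x i = x i := fun x i => by
    simp only [ex]; rw [dif_pos i.2]
  have hTTsm : ∀ x : Fin K → ℕ, StrictMono x → SM K (TT t K (ex x)) := by
    intro x hx a b hab hb
    unfold TT
    rw [if_pos (by omega), if_pos hb]
    refine ht ?_
    have h1 := hex x ⟨a, by omega⟩
    have h2 := hex x ⟨b, hb⟩
    simp only at h1 h2
    rw [h1, h2]
    exact hx (by simpa using hab)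
  have hham : ∀ x y : Fin K → ℕ, hd K (TT t K (ex x)) (TT t K (ex y)) = hammingDist x y := by
    intro x y
    rw [← hd_eq_hamming]
    unfold hammingDist
    congr 1
    ext i
    simp only [Finset.mem_filter, Finset.mem_univ, true_and, TT, i.2, if_true, hex]
    exact not_congr ht.injective.eq_iff
  obtain ⟨x, y, hx, hy, hxy, hyx, hle⟩ := hK0 K hK (fun x => (Λ⁻¹ : ℝ) • f (TT t K (ex x)))
    (fun x y hx hy => by
      rw [← smul_sub, norm_smul, norm_inv, Real.norm_eq_abs, abs_of_pos hΛ, inv_mul_le_iff₀ hΛ]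
      have := hf _ _ (hTTsm x hx) (hTTsm y hy)
      rw [hham] at this
      exact this.trans (mul_le_mul_of_nonneg_right (le_max_left _ _) (Nat.cast_nonneg _)))
  have hgood : Good K (ex x, ex y) := by
    refine ⟨?_, ?_, ?_, ?_⟩
    · intro a b hab hb
      have h1 := hex x ⟨a, by omega⟩
      have h2 := hex x ⟨b, hb⟩
      simp only at h1 h2 ⊢
      rw [h1, h2]; exact hx (by simpa using hab)
    · intro a b hab hb
      have h1 := hex y ⟨a, by omega⟩
      have h2 := hex y ⟨b, hb⟩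
      simp only at h1 h2 ⊢
      rw [h1, h2]; exact hy (by simpa using hab)
    · intro j hj
      have h1 := hex x ⟨j, hj⟩
      have h2 := hex y ⟨j, hj⟩
      simp only at h1 h2 ⊢
      rw [h1, h2]; exact hxy _
    · intro j l hjl hl
      have h1 := hex y ⟨j, by omega⟩
      have h2 := hex x ⟨l, hl⟩
      simp only at h1 h2 ⊢
      rw [h1, h2]; exact hyx _ _ (by simpa using hjl)
  refine HT _ _ hgood ?_
  have h5 := hP Λ hΛ _ _ hle
  rw [← smul_sub, smul_smul, mul_inv_cancel₀ hΛ.ne', one_smul] at h5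
  have e : Λ * (ε / Λ * K) = ε * K := by field_simp
  rwa [e] at h5

/-- the scaling property of the distance to a subspace, in general form -/
theorem scale_gen {X : Type u} [NormedAddCommGroup X] [NormedSpace ℝ X]
    {B : Type u} [NormedAddCommGroup B] [NormedSpace ℝ B] (j : X →L[ℝ] B) (c : ℝ) (hc : 0 < c)
    (r : ℝ) (v : B) (h : ∃ x : X, ‖v - j x‖ ≤ r) : ∃ x : X, ‖c • v - j x‖ ≤ c * r := by
  obtain ⟨x, hx⟩ := h
  refine ⟨c • x, ?_⟩
  rw [map_smul, ← smul_sub, norm_smul, Real.norm_eq_abs, abs_of_pos hc]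
  exact mul_le_mul_of_nonneg_left hx hc.le

theorem conc_of_concModG {X : Type u} [NormedAddCommGroup X] [NormedSpace ℝ X]
    {E : Type u} [NormedAddCommGroup E] [NormedSpace ℝ E]
    (J' : X →L[ℝ] StrongDual ℝ E) (hJ : ∀ x, ‖J' x‖ = ‖x‖)
    (hA : ∀ η : ℝ, 0 < η → ∃ T : ℝ, 0 < T ∧ ∀ b : ℝ, 0 < b → ∀ x : X,
      ∃ Φ : Finset E, ∃ δ : ℝ, 0 < δ ∧ ∀ w : StrongDual ℝ E, ‖w‖ ≤ b →
      (∀ φ ∈ Φ, |w φ| ≤ δ) → ‖J' x + w‖ ≤ max (‖x‖ + η * b) ((T + 1) * b))
    (h : ConcModG J') : Conc X :=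
  conc_of_concU (main_core J' hJ hA (concU_gen (fun r v => ∃ x : X, ‖v - J' x‖ ≤ r)
    (fun c hc r v hv => scale_gen J' c hc r v hv) h))

theorem conc_of_concMod {X : Type u} [NormedAddCommGroup X] [NormedSpace ℝ X] (hX : AUS X)
    (h : ConcMod X) : Conc X :=
  conc_of_concModG (E := StrongDual ℝ X) (J X)
    (fun x => (NormedSpace.inclusionInDoubleDualLi (E := X) ℝ).norm_map x)
    (fun η hη => aus_bidual hX η hη) h

end Pool.Agent.P5bf
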