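import Mathlib

/-!
Definitions for MP_5bf80f_an (Hamming-Lipschitz maps into Banach spaces).
-/

set_option autoImplicit false

open Filter Topology

namespace Pool.Agent.P5bf

universe u v

/-- The canonical embedding of a real normed space into its bidual. -/
noncomputable abbrev J (X : Type u) [NormedAddCommGroup X] [NormedSpace ℝ X] :
    X →L[ℝ] StrongDual ℝ (StrongDual ℝ X) :=
  NormedSpace.inclusionInDoubleDual ℝ X

/-- `q` presents `Z` as the quotient of the bidual of `X` by the canonical image of `X`: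
it is a continuous linear map of the bidual onto `Z` whose kernel is the canonical image. -/
def IsBidualQuotient (X : Type u) [NormedAddCommGroup X] [NormedSpace ℝ X]
    (Z : Type v) [NormedAddCommGroup Z] [NormedSpace ℝ Z]
    (q : StrongDual ℝ (StrongDual ℝ X) →L[ℝ] Z) : Prop :=
  Function.Surjective q ∧ ∀ w : StrongDual ℝ (StrongDual ℝ X), q w = 0 ↔ ∃ x : X, J X x = w

/-- The norm of `X` is asymptotically uniformly smooth: for every `η > 0` and all small `t > 0`,
every unit vector `x` has a closed subspace `V` of finite codimension such that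
`‖x + t y‖ ≤ 1 + η t` for all unit vectors `y` of `V`. -/
def AUS (X : Type u) [NormedAddCommGroup X] [NormedSpace ℝ X] : Prop :=
  ∀ η : ℝ, 0 < η → ∃ t0 : ℝ, 0 < t0 ∧ ∀ t : ℝ, 0 < t → t ≤ t0 → ∀ x : X, ‖x‖ = 1 →
    ∃ V : Submodule ℝ X, IsClosed (V : Set X) ∧ FiniteDimensional ℝ (X ⧸ V) ∧
      ∀ y ∈ V, ‖y‖ = 1 → ‖x + t • y‖ ≤ 1 + η * t

/-- Sublinear interlaced concentration: for every `ε > 0` and all large `K`, every map from the
increasing `K`-tuples to `Z` that is 1-Lipschitz for the Hamming distance has an interlaced pair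
`x_1 < y_1 < x_2 < y_2 < ... < x_K < y_K` with `‖f x - f y‖ ≤ ε K`. -/
def Conc (Z : Type u) [NormedAddCommGroup Z] [NormedSpace ℝ Z] : Prop :=
  ∀ ε : ℝ, 0 < ε → ∃ K0 : ℕ, ∀ K : ℕ, K0 ≤ K → ∀ f : (Fin K → ℕ) → Z,
    (∀ x y : Fin K → ℕ, StrictMono x → StrictMono y → ‖f x - f y‖ ≤ (hammingDist x y : ℝ)) →
    ∃ x y : Fin K → ℕ, StrictMono x ∧ StrictMono y ∧ (∀ i, x i < y i) ∧
      (∀ i j, i < j → y i < x j) ∧ ‖f x - f y‖ ≤ ε * K

/-- The maps asked for in Q1 exist for `X`. -/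
def HasMaps (X : Type u) [NormedAddCommGroup X] [NormedSpace ℝ X] : Prop :=
  ∃ ℓ : ℕ, 1 ≤ ℓ ∧ ∃ L : ℝ, 0 < L ∧ ∀ k : ℕ, ∃ f : (Fin (ℓ * k) → ℕ) → X,
    ∀ x y : Fin (ℓ * k) → ℕ, StrictMono x → StrictMono y →
      ((symmDiff ((Finset.univ.filter (fun i : Fin (ℓ * k) => i.val < k)).image x)
          ((Finset.univ.filter (fun i : Fin (ℓ * k) => i.val < k)).image y)).card : ℝ)
        ≤ ‖f x - f y‖ ∧
      ‖f x - f y‖ ≤ L * (hammingDist x y : ℝ)

/-- Towers: `{0}` is in the class, and `X` is in the class if `X` is isomorphic to an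
asymptotically uniformly smooth Banach space `Y` such that (a space isomorphic to) `Y** / Y`
is in the class. -/
inductive Tower : (X : Type u) → [NormedAddCommGroup X] → [NormedSpace ℝ X] → Prop
  | zero (X : Type u) [NormedAddCommGroup X] [NormedSpace ℝ X] (h : Subsingleton X) : Tower X
  | step (X Y Z : Type u) [NormedAddCommGroup X] [NormedSpace ℝ X]
      [NormedAddCommGroup Y] [NormedSpace ℝ Y] [CompleteSpace Y]
      [NormedAddCommGroup Z] [NormedSpace ℝ Z] [CompleteSpace Z]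
      (e : X ≃L[ℝ] Y) (hY : AUS Y) (q : StrongDual ℝ (StrongDual ℝ Y) →L[ℝ] Z)
      (hq : IsBidualQuotient Y Z q) (hZ : Tower Z) : Tower X

/-! ### Working definitions -/

/-- the first `K` entries are strictly increasing -/
def SM (K : ℕ) (x : ℕ → ℕ) : Prop := ∀ a b, a < b → b < K → x a < x b

/-- Hamming distance of the first `K` entries -/
def hd (K : ℕ) (x y : ℕ → ℕ) : ℕ := ((Finset.range K).filter (fun i => x i ≠ y i)).card

/-- `f` is `L`-Lipschitz on the increasing `K`-tuples -/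
def LipN {Z : Type u} [NormedAddCommGroup Z] (K : ℕ) (L : ℝ) (f : (ℕ → ℕ) → Z) : Prop :=
  ∀ x y, SM K x → SM K y → ‖f x - f y‖ ≤ L * (hd K x y : ℝ)

/-- the fixed nonprincipal ultrafilter -/
noncomputable abbrev U : Ultrafilter ℕ := hyperfilter ℕ

/-- add `j` generic pairs of entries at the places `i, i+1, ..., i+j-1` -/
noncomputable def Ext : ℕ → ℕ → (ℕ → ℕ) × (ℕ → ℕ) → Filter ((ℕ → ℕ) × (ℕ → ℕ))
  | _, 0, p => pure p
  | i, (j + 1), p => (U : Filter ℕ).bind (fun n => (U : Filter ℕ).bind (fun m =>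
      Ext (i + 1) j (Function.update p.1 i n, Function.update p.2 i m)))

/-- interlaced up to `i` -/
def Good (i : ℕ) (p : (ℕ → ℕ) × (ℕ → ℕ)) : Prop :=
  SM i p.1 ∧ SM i p.2 ∧ (∀ j, j < i → p.1 j < p.2 j) ∧ (∀ j l, j < l → l < i → p.2 j < p.1 l)

/-- the starting pair -/
def p0 : (ℕ → ℕ) × (ℕ → ℕ) := (fun _ => 0, fun _ => 0)

/-- ultrafilter form of the concentration property -/
def ConcU (Z : Type u) [NormedAddCommGroup Z] [NormedSpace ℝ Z] : Prop :=
  ∀ ε : ℝ, 0 < ε → ∀ L : ℝ, ∃ K0 : ℕ, ∀ K : ℕ, K0 ≤ K → ∀ f : (ℕ → ℕ) → Z, LipN K L f →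
    ∀ᶠ p in Ext 0 K p0, ‖f p.1 - f p.2‖ ≤ ε * K

open scoped Classical in
/-- limit along the ultrafilter in the weak star topology of a dual space -/
noncomputable def wl {E : Type u} [NormedAddCommGroup E] [NormedSpace ℝ E]
    (h : ℕ → StrongDual ℝ E) : StrongDual ℝ E :=
  if H : ∃ e : StrongDual ℝ E, ∀ φ : E, Tendsto (fun n => h n φ) (U : Filter ℕ) (𝓝 (e φ))
  then H.choose else 0

/-- iterated limits, counted from the top -/
noncomputable def FF {E : Type u} [NormedAddCommGroup E] [NormedSpace ℝ E]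
    (g : (ℕ → ℕ) → StrongDual ℝ E) (K : ℕ) : ℕ → (ℕ → ℕ) → StrongDual ℝ E
  | 0, x => g x
  | (j + 1), x => wl (fun n => FF g K j (Function.update x (K - (j + 1)) n))

/-- the level-`i` limit function -/
noncomputable def F {E : Type u} [NormedAddCommGroup E] [NormedSpace ℝ E]
    (g : (ℕ → ℕ) → StrongDual ℝ E) (K i : ℕ) (x : ℕ → ℕ) : StrongDual ℝ E :=
  FF g K (K - i) x

/-- the difference of the level-`i` limit functions along a pair -/
noncomputable def D {E : Type u} [NormedAddCommGroup E] [NormedSpace ℝ E]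
    (g : (ℕ → ℕ) → StrongDual ℝ E) (K i : ℕ) (p : (ℕ → ℕ) × (ℕ → ℕ)) : StrongDual ℝ E :=
  F g K i p.1 - F g K i p.2

end Pool.Agent.P5bf
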