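import Pool.Agent.P5bf.Lower
import Pool.Agent.P5bf.Coding
import Pool.Agent.P5bf.Defs

/-! If the concentration property fails, the maps of Q1 exist. -/

set_option autoImplicit false

namespace Pool.Agent.P5bf

universe u

theorem maps_of_fail {X : Type u} [NormedAddCommGroup X] [NormedSpace ℝ X] (ε : ℝ) (hε : 0 < ε)
    (h : ∀ K0 : ℕ, ∃ K : ℕ, K0 ≤ K ∧ ∃ f : (Fin K → ℕ) → X, Lip1 f ∧
      ∀ x y : Fin K → ℕ, StrictMono x → StrictMono y → (∀ i, x i < y i) →
        (∀ i j, i < j → y i < x j) → ε * K < ‖f x - f y‖) :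
    ∀ k : ℕ, ∃ g : (Fin (2 * k) → ℕ) → X, ∀ x y : Fin (2 * k) → ℕ, StrictMono x → StrictMono y →
      2 * ((Finset.univ.filter (fun i : Fin (2 * k) => i.val < k ∧ x i ≠ y i)).card : ℝ)
        ≤ ‖g x - g y‖ ∧
      ‖g x - g y‖ ≤ 288 / ε ^ 2 * (hammingDist x y : ℝ) := by
  classical
  intro k
  rcases Nat.eq_zero_or_pos k with hk0 | hk
  · refine ⟨fun _ => 0, fun x y _ _ => ?_⟩
    have e : (Finset.univ.filter (fun i : Fin (2 * k) => i.val < k ∧ x i ≠ y i)) = ∅ := by
      ext i; simp [hk0]
    rw [e]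
    simp only [Finset.card_empty, Nat.cast_zero, mul_zero, sub_self, norm_zero, le_refl, true_and]
    positivity
  obtain ⟨K, hK, f, hf, hfi⟩ := h (⌈4 * (k : ℝ) / ε⌉₊ + k)
  have hkr : (1 : ℝ) ≤ k := by exact_mod_cast hk
  have hkK : k ≤ K := by omega
  have hkKr : (k : ℝ) ≤ K := by exact_mod_cast hkK
  have hKr : (1 : ℝ) ≤ K := hkr.trans hkKr
  have hK4 : 4 * (k : ℝ) ≤ ε * K := by
    have h1 : 4 * (k : ℝ) / ε ≤ K := by
      refine (Nat.le_ceil _).trans ?_
      exact_mod_cast (by omega : ⌈4 * (k : ℝ) / ε⌉₊ ≤ K)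
    rw [div_le_iff₀ hε] at h1
    linarith
  set η : ℝ := ε / (24 * (K + 1)) with hη
  have hηpos : 0 < η := by positivity
  have hη1 : 3 * η * (K + 1) = ε / 8 := by
    rw [hη]; field_simp; norm_num
  obtain ⟨t, ht⟩ := exists_homog f hf η hηpos
  have h0 : Spaced (fun p : Fin K => 2 * (p : ℕ)) := fun p q hpq => by
    rw [Fin.lt_def] at hpq; simp only; omega
  have hfull : ε * K ≤ Ph f t Finset.univ := by
    refine (hfi _ _ (fun a b hab => ht.1 (h0.sm hab))
      (fun a b hab => ht.1 (h0.bump_sm Finset.univ hab)) ?_ ?_).le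
    · intro i
      refine ht.1 ?_
      simp [bump]
    · intro i j hij
      refine ht.1 ?_
      rw [Fin.lt_def] at hij
      simp only [bump, Finset.mem_univ, if_true]
      omega
  obtain ⟨T, hT, hgood⟩ := exists_good hf ht hηpos.le (ε / 4) ε (by positivity) hfull
  have hTcard : ε / 2 * K ≤ T.card := by nlinarith
  -- blocks
  set m : ℕ := T.card / k with hm
  have hT2 : 2 * (k : ℝ) ≤ T.card := by linarith
  have hT2' : 2 * k ≤ T.card := by exact_mod_cast hT2
  have hm1 : 1 ≤ m := by
    rw [hm]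
    exact (Nat.one_le_div_iff hk).2 (by omega)
  have hmk : m * k ≤ T.card := Nat.div_mul_le_self _ _
  have hm2 : (T.card : ℝ) ≤ 2 * (m * k) := by
    have h1 : T.card < (m + 1) * k := by
      have := Nat.lt_mul_div_succ T.card hk
      rw [← hm] at this
      linarith
    have h2 : T.card ≤ 2 * (m * k) := by nlinarith
    exact_mod_cast h2
  have hmr : (1 : ℝ) ≤ m := by exact_mod_cast hm1
  -- the injection
  obtain ⟨T', hT'T, hT'⟩ := Finset.exists_subset_card_eq hmk
  have hcard : Fintype.card (Fin m × Fin k) = Fintype.card T' := by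
    rw [Fintype.card_prod, Fintype.card_fin, Fintype.card_fin, Fintype.card_coe, hT']
  let E : (Fin m × Fin k) ≃ T' := Fintype.equivOfCardEq hcard
  let J : Fin m × Fin k → Fin K := fun c => (E c : Fin K)
  have hJ : Function.Injective J := fun c d hcd => E.injective (Subtype.ext hcd)
  have hJT : ∀ c, J c ∈ T := fun c => hT'T (E c).2
  let F : (Fin (2 * k) → ℕ) → X := fun w => f (fun p => t (2 * code hk J w p))
  have hsm : ∀ w : Fin (2 * k) → ℕ, StrictMono w →
      StrictMono (fun p => t (2 * code hk J w p)) := fun w hw a b hab => by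
    refine ht.1 ?_
    have := code_sm hk J w hw hab
    omega
  have upper : ∀ w w' : Fin (2 * k) → ℕ, StrictMono w → StrictMono w' →
      ‖F w - F w'‖ ≤ (m + (K / k + 1 : ℕ)) * (hammingDist w w' : ℝ) := by
    intro w w' hw hw'
    refine (hf _ _ (hsm w hw) (hsm w' hw')).trans ?_
    have h1 : hammingDist (fun p => t (2 * code hk J w p)) (fun p => t (2 * code hk J w' p)) ≤
        (m + (K / k + 1)) * hammingDist w w' := by
      refine le_trans ?_ (code_hamming hk J hJ w w')
      unfold hammingDist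
      refine Finset.card_le_card fun p hp => ?_
      rw [Finset.mem_filter] at hp ⊢
      refine ⟨hp.1, fun h => hp.2 ?_⟩
      simp only
      rw [h]
    exact_mod_cast h1
  have lower : ∀ w w' : Fin (2 * k) → ℕ, StrictMono w → StrictMono w' →
      ε / 16 * m * ((Finset.univ.filter (fun i : Fin (2 * k) => i.val < k ∧ w i ≠ w' i)).card : ℝ)
        ≤ ‖F w - F w'‖ := by
    intro w w' hw hw'
    rcases Nat.eq_zero_or_pos
      (Finset.univ.filter (fun i : Fin (2 * k) => i.val < k ∧ w i ≠ w' i)).card with h1 | h1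
    · rw [h1]; simp
    have h2 := moved_card J hJ w w'
    have h3 : (moved J w w').card ≠ 0 := by
      rw [h2]; exact (Nat.mul_pos hm1 h1).ne'
    have h4 : (moved J w w').Nonempty := Finset.card_ne_zero.1 h3
    have h5 : moved J w w' ⊆ T := by
      intro p hp
      unfold moved at hp
      rw [Finset.mem_image] at hp
      obtain ⟨c, _, rfl⟩ := hp
      exact hJT c
    have h6 := hgood _ h5 h4
    have h7 := Ph_le_pair ht (moved J w w') (code hk J w) (code hk J w') (code_sm hk J w hw)
      (code_sm hk J w' hw') (moved_ne hk J hJ w w' hw hw')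
    have h8 : (1 : ℝ) ≤ (moved J w w').card := by exact_mod_cast h4.card_pos
    have h9 : η ≤ ε / 16 := by
      have : 3 * η * 2 ≤ 3 * η * (K + 1) := by
        refine mul_le_mul_of_nonneg_left (by linarith) (by positivity)
      linarith
    have h10 : ((moved J w w').card : ℝ) = m *
        (Finset.univ.filter (fun i : Fin (2 * k) => i.val < k ∧ w i ≠ w' i)).card := by
      exact_mod_cast h2
    have h11 : ε / 16 * ((moved J w w').card : ℝ) ≤
        ‖f (fun p => t (2 * code hk J w p)) - f (fun p => t (2 * code hk J w' p))‖ := by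
      nlinarith
    rw [h10] at h11
    rw [mul_assoc]
    exact h11
  have hMm : (m : ℝ) + (K / k + 1 : ℕ) ≤ (1 + 8 / ε) * m := by
    have h1 : ((K / k : ℕ) : ℝ) ≤ K / k := Nat.cast_div_le
    have h2 : (K : ℝ) / k + 1 ≤ 2 * K / k := by
      rw [div_add_one (by positivity), div_le_div_iff_of_pos_right (by positivity)]
      linarith
    have h3 : 2 * (K : ℝ) / k ≤ 8 / ε * m := by
      rw [div_le_iff₀ (by positivity), div_mul_eq_mul_div, div_mul_eq_mul_div, le_div_iff₀ hε]
      nlinarith
    push_cast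
    linarith
  have hε1 : ε < 1 := by
    by_contra hcon
    push Not at hcon
    have h1 := Ph_le_card hf ht Finset.univ
    rw [Finset.card_univ, Fintype.card_fin] at h1
    have h2 := hfi (fun p => t (2 * p)) (fun p => t (bump (fun p => 2 * p) Finset.univ p))
      (fun a b hab => ht.1 (h0.sm hab)) (fun a b hab => ht.1 (h0.bump_sm Finset.univ hab))
      (fun i => ht.1 (by simp [bump])) (fun i j hij => ht.1 (by
        rw [Fin.lt_def] at hij
        simp only [bump, Finset.mem_univ, if_true]
        omega))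
    unfold Ph at h1
    nlinarith
  refine ⟨fun w => (32 / (ε * m) : ℝ) • F w, fun w w' hw hw' => ?_⟩
  rw [← smul_sub, norm_smul, Real.norm_eq_abs, abs_of_pos (by positivity)]
  constructor
  · have h1 := lower w w' hw hw'
    have h2 : (32 / (ε * m) : ℝ) * (ε / 16 * m *
        ((Finset.univ.filter (fun i : Fin (2 * k) => i.val < k ∧ w i ≠ w' i)).card : ℝ)) ≤
        32 / (ε * m) * ‖F w - F w'‖ := mul_le_mul_of_nonneg_left h1 (by positivity)
    have h3 : (32 / (ε * m) : ℝ) * (ε / 16 * m *
        ((Finset.univ.filter (fun i : Fin (2 * k) => i.val < k ∧ w i ≠ w' i)).card : ℝ)) =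
        2 * ((Finset.univ.filter (fun i : Fin (2 * k) => i.val < k ∧ w i ≠ w' i)).card : ℝ) := by
      generalize ((Finset.univ.filter (fun i : Fin (2 * k) => i.val < k ∧ w i ≠ w' i)).card : ℝ) = q
      field_simp
      ring
    rw [h3] at h2
    exact h2
  · have h1 := upper w w' hw hw'
    have h2 : (32 / (ε * m) : ℝ) * ‖F w - F w'‖ ≤
        32 / (ε * m) * (((1 + 8 / ε) * m) * (hammingDist w w' : ℝ)) := by
      refine mul_le_mul_of_nonneg_left (h1.trans ?_) (by positivity)
      exact mul_le_mul_of_nonneg_right hMm (Nat.cast_nonneg _)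
    refine h2.trans ?_
    have h3 : 32 / (ε * m) * (((1 + 8 / ε) * m) * (hammingDist w w' : ℝ)) =
        32 * (ε + 8) / ε ^ 2 * (hammingDist w w' : ℝ) := by
      field_simp
    rw [h3]
    refine mul_le_mul_of_nonneg_right ?_ (Nat.cast_nonneg _)
    rw [div_le_div_iff_of_pos_right (by positivity)]
    linarith

/-- the symmetric difference of the first entries is at most twice the number of changes -/
theorem symmDiff_le {k n : ℕ} (x y : Fin n → ℕ) :
    (symmDiff ((Finset.univ.filter (fun i : Fin n => i.val < k)).image x)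
      ((Finset.univ.filter (fun i : Fin n => i.val < k)).image y)).card ≤
      2 * (Finset.univ.filter (fun i : Fin n => i.val < k ∧ x i ≠ y i)).card := by
  classical
  set D := Finset.univ.filter (fun i : Fin n => i.val < k ∧ x i ≠ y i) with hD
  have hsub : symmDiff ((Finset.univ.filter (fun i : Fin n => i.val < k)).image x)
      ((Finset.univ.filter (fun i : Fin n => i.val < k)).image y) ⊆ D.image x ∪ D.image y := by
    intro a ha
    rw [Finset.mem_symmDiff] at ha
    rw [Finset.mem_union]
    rcases ha with ⟨h1, h2⟩ | ⟨h1, h2⟩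
    · left
      rw [Finset.mem_image] at h1 ⊢
      obtain ⟨i, hi, rfl⟩ := h1
      refine ⟨i, ?_, rfl⟩
      rw [hD, Finset.mem_filter]
      rw [Finset.mem_filter] at hi
      refine ⟨Finset.mem_univ _, hi.2, fun hxy => h2 ?_⟩
      rw [hxy]
      exact Finset.mem_image_of_mem _ (Finset.mem_filter.2 ⟨Finset.mem_univ _, hi.2⟩)
    · right
      rw [Finset.mem_image] at h1 ⊢
      obtain ⟨i, hi, rfl⟩ := h1
      refine ⟨i, ?_, rfl⟩
      rw [hD, Finset.mem_filter]
      rw [Finset.mem_filter] at hi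
      refine ⟨Finset.mem_univ _, hi.2, fun hxy => h2 ?_⟩
      rw [← hxy]
      exact Finset.mem_image_of_mem _ (Finset.mem_filter.2 ⟨Finset.mem_univ _, hi.2⟩)
  refine (Finset.card_le_card hsub).trans ((Finset.card_union_le _ _).trans ?_)
  have h1 := Finset.card_image_le (s := D) (f := x)
  have h2 := Finset.card_image_le (s := D) (f := y)
  omega

theorem hasMaps_of_not_conc {X : Type u} [NormedAddCommGroup X] [NormedSpace ℝ X]
    (h : ¬ Conc X) : HasMaps X := by
  unfold Conc at h
  push Not at h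
  obtain ⟨ε, hε, h⟩ := h
  have h' := maps_of_fail (X := X) ε hε (fun K0 => by
    obtain ⟨K, hK, f, hf, hi⟩ := h K0
    exact ⟨K, hK, f, hf, fun x y hx hy hxy hyx => hi x y hx hy hxy hyx⟩)
  refine ⟨2, by norm_num, 288 / ε ^ 2, by positivity, fun k => ?_⟩
  obtain ⟨g, hg⟩ := h' k
  refine ⟨g, fun x y hx hy => ⟨?_, (hg x y hx hy).2⟩⟩
  refine le_trans ?_ (hg x y hx hy).1
  have := symmDiff_le (k := k) x y
  exact_mod_cast this

end Pool.Agent.P5bf
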