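import Pool.Agent.P5bf.SimHelly
import Pool.Agent.P5bf.BApprox

/-! Concentration passes from a space to its bidual. -/

set_option autoImplicit false

open Filter Topology

namespace Pool.Agent.P5bf

universe u

variable {X : Type u} [NormedAddCommGroup X] [NormedSpace ℝ X]

/-- stage approximations of a bidual valued map -/
theorem exists_theta {K : ℕ} (C : (Fin K → ℕ) → StrongDual ℝ (StrongDual ℝ X))
    (hC : ∀ x y : Fin K → ℕ, StrictMono x → StrictMono y →
      ‖C x - C y‖ ≤ (hammingDist x y : ℝ))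
    (hCK : ∀ x : Fin K → ℕ, StrictMono x → ‖C x‖ ≤ K)
    (nf : StrongDual ℝ (StrongDual ℝ X) → StrongDual ℝ X) (ε : ℝ) (hε : 0 < ε) (hε1 : ε ≤ 1) :
    ∃ Θ : ℕ → (Fin K → ℕ) → X, ∀ a : ℕ, ∀ x : Fin K → ℕ, StrictMono x → (∀ i, x i < a) →
      ‖Θ a x‖ ≤ K + 1 ∧ ∀ y : Fin K → ℕ, StrictMono y → (∀ i, y i < a) →
        ‖Θ a x - Θ a y‖ ≤ 2 * (hammingDist x y : ℝ) ∧
        ∀ z z' : Fin K → ℕ, StrictMono z → (∀ i, z i < a) → StrictMono z' → (∀ i, z' i < a) →
          |nf (C z - C z') (Θ a x) - C x (nf (C z - C z'))| ≤ ε := by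
  classical
  have key : ∀ a : ℕ, ∃ Θ : (Fin K → ℕ) → X, ∀ x : Fin K → ℕ, StrictMono x → (∀ i, x i < a) →
      ‖Θ x‖ ≤ K + 1 ∧ ∀ y : Fin K → ℕ, StrictMono y → (∀ i, y i < a) →
        ‖Θ x - Θ y‖ ≤ 2 * (hammingDist x y : ℝ) ∧
        ∀ z z' : Fin K → ℕ, StrictMono z → (∀ i, z i < a) → StrictMono z' → (∀ i, z' i < a) →
          |nf (C z - C z') (Θ x) - C x (nf (C z - C z'))| ≤ ε := by
    intro a
    let T := {x : Fin K → Fin a // StrictMono x}
    let τ : T → (Fin K → ℕ) := fun x i => (x.1 i : ℕ)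
    have hτ : ∀ x : T, StrictMono (τ x) := fun x i j hij => x.2 hij
    obtain ⟨x, h1, h2, h3⟩ := simHelly (T := T) (fun i => C (τ i)) K (fun i => hCK _ (hτ i))
      (fun i j => (hammingDist (τ i) (τ j) : ℝ)) (fun i j => hC _ _ (hτ i) (hτ j))
      (Finset.univ.image (fun c : T × T => nf (C (τ c.1) - C (τ c.2)))) ε hε
    let mk : (x : Fin K → ℕ) → StrictMono x → (∀ i, x i < a) → T := fun x hx hxa =>
      ⟨fun i => ⟨x i, hxa i⟩, fun i j hij => hx hij⟩
    have hmk : ∀ (x : Fin K → ℕ) (hx : StrictMono x) (hxa : ∀ i, x i < a),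
        τ (mk x hx hxa) = x := fun x hx hxa => rfl
    have hmain : ∃ Θ : (Fin K → ℕ) → X, ∀ (y : Fin K → ℕ) (hy : StrictMono y)
        (hya : ∀ i, y i < a), Θ y = x (mk y hy hya) :=
      ⟨fun y => if h : StrictMono y ∧ ∀ i, y i < a then x (mk y h.1 h.2) else 0,
        fun y hy hya => dif_pos ⟨hy, hya⟩⟩
    obtain ⟨Θ, hΘ⟩ := hmain
    refine ⟨Θ, ?_⟩
    intro y hy hya
    rw [hΘ y hy hya]
    refine ⟨(h1 _).trans (by linarith), fun y' hy' hya' => ⟨?_, ?_⟩⟩
    · rw [hΘ y' hy' hya']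
      by_cases hyy : y = y'
      · subst hyy; simp
      have h4 := h2 (mk y hy hya) (mk y' hy' hya')
      rw [hmk, hmk] at h4
      have h5 : (1 : ℝ) ≤ hammingDist y y' := by
        exact_mod_cast Nat.one_le_iff_ne_zero.2 (fun h => hyy (hammingDist_eq_zero.1 h))
      linarith
    · intro z z' hz hza hz' hza'
      exact h3 (mk y hy hya) _ (Finset.mem_image.2 ⟨(mk z hz hza, mk z' hz' hza'),
        Finset.mem_univ _, rfl⟩)
  choose Θ hΘ using key
  exact ⟨Θ, hΘ⟩

theorem cancel3 {B : Type u} [NormedAddCommGroup B] (a b c : B) :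
    (a - c) - (b - c) = a - b := sub_sub_sub_cancel_right a b c

/-- first half -/
def hA {K : ℕ} (s : Fin (K + K) → ℕ) : Fin K → ℕ := fun i => s (Fin.castAdd K i)

/-- second half -/
def hB {K : ℕ} (s : Fin (K + K) → ℕ) : Fin K → ℕ := fun i => s (Fin.natAdd K i)

theorem hamming_split {K : ℕ} (s t : Fin (K + K) → ℕ) :
    hammingDist s t = hammingDist (hA s) (hA t) + hammingDist (hB s) (hB t) := by
  classical
  unfold hammingDist
  simp only [Finset.card_filter]
  rw [Fin.sum_univ_add]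
  rfl

theorem conc_bidual (h : Conc X) : Conc (StrongDual ℝ (StrongDual ℝ X)) := by
  classical
  intro ε hε
  obtain ⟨K0, hK0⟩ := h (ε / 20) (by positivity)
  choose nf hnf using fun v : StrongDual ℝ (StrongDual ℝ X) => exists_norming v
  refine ⟨K0 + 1, fun K hK C0 hC0 => ?_⟩
  have hKpos : 0 < K := by omega
  have hKr : (1 : ℝ) ≤ K := by exact_mod_cast hKpos
  -- normalise
  let base : Fin K → ℕ := fun i => i
  have hbase : StrictMono base := fun i j hij => hij
  let C : (Fin K → ℕ) → StrongDual ℝ (StrongDual ℝ X) := fun x => C0 x - C0 base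
  have hCd : ∀ x y, C x - C y = C0 x - C0 y := fun x y => by
    exact cancel3 (B := StrongDual ℝ (StrongDual ℝ X)) (C0 x) (C0 y) (C0 base)
  have hC : ∀ x y : Fin K → ℕ, StrictMono x → StrictMono y →
      ‖C x - C y‖ ≤ (hammingDist x y : ℝ) := fun x y hx hy => by
    rw [hCd]; exact hC0 x y hx hy
  have hCK : ∀ x : Fin K → ℕ, StrictMono x → ‖C x‖ ≤ K := fun x hx => by
    refine (hC0 x base hx hbase).trans ?_
    have := hammingDist_le_card_fintype (x := x) (y := base)
    simp only [Fintype.card_fin] at this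
    exact_mod_cast this
  set ε1 : ℝ := min 1 (ε / 20) with hε1
  have hε1pos : 0 < ε1 := by positivity
  obtain ⟨Θ, hΘ⟩ := exists_theta C hC hCK nf ε1 hε1pos (min_le_left _ _)
  let f : (Fin (K + K) → ℕ) → X := fun s => (K : ℝ)⁻¹ • ∑ i, Θ (hB s i) (hA s)
  have hAs : ∀ s : Fin (K + K) → ℕ, StrictMono s → StrictMono (hA s) := fun s hs i j hij =>
    hs (Fin.lt_def.2 (Fin.lt_def.1 hij))
  have hlt : ∀ s : Fin (K + K) → ℕ, StrictMono s → ∀ i j : Fin K, hA s i < hB s j := by
    intro s hs i j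
    refine hs ?_
    simp only [Fin.lt_def, Fin.val_castAdd, Fin.val_natAdd]
    omega
  have hsum : ∀ s t, f s - f t = (K : ℝ)⁻¹ • ∑ i, (Θ (hB s i) (hA s) - Θ (hB t i) (hA t)) := by
    intro s t
    simp only [f]
    rw [← smul_sub, Finset.sum_sub_distrib]
  have hLip : ∀ s t : Fin (K + K) → ℕ, StrictMono s → StrictMono t →
      ‖f s - f t‖ ≤ 4 * (hammingDist s t : ℝ) := by
    intro s t hs ht
    rw [hsum, norm_smul, norm_inv, Real.norm_natCast]
    rw [inv_mul_le_iff₀ (by linarith)]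
    refine (norm_sum_le _ _).trans ?_
    have h1 : ∀ i : Fin K, ‖Θ (hB s i) (hA s) - Θ (hB t i) (hA t)‖
        ≤ 2 * (hammingDist (hA s) (hA t) : ℝ) + (if hB s i ≠ hB t i then 4 * (K : ℝ) else 0) := by
      intro i
      have h2 := hΘ (hB s i) (hA s) (hAs s hs) (fun j => hlt s hs j i)
      have h3 := hΘ (hB t i) (hA t) (hAs t ht) (fun j => hlt t ht j i)
      split_ifs with hi
      · refine (norm_sub_le _ _).trans ?_
        have h4 := h2.1
        have h5 := h3.1
        have h6 : (0 : ℝ) ≤ hammingDist (hA s) (hA t) := Nat.cast_nonneg _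
        linarith
      · push Not at hi
        rw [← hi] at h3 ⊢
        have h4 := (h2.2 (hA t) (hAs t ht) (fun j => by rw [hi]; exact hlt t ht j i)).1
        linarith
    refine (Finset.sum_le_sum fun i _ => h1 i).trans ?_
    rw [Finset.sum_add_distrib, Finset.sum_const, Finset.card_univ, Fintype.card_fin,
      nsmul_eq_mul, ← Finset.sum_filter, Finset.sum_const, nsmul_eq_mul]
    have h7 : ((Finset.univ.filter (fun i : Fin K => hB s i ≠ hB t i)).card : ℝ)
        = hammingDist (hB s) (hB t) := rfl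
    rw [h7, hamming_split]
    push_cast
    have h8 : (0 : ℝ) ≤ hammingDist (hA s) (hA t) := Nat.cast_nonneg _
    nlinarith
  obtain ⟨s, t, hs, ht, hst, hts, hle⟩ := hK0 (K + K) (by omega) (fun s => (4 : ℝ)⁻¹ • f s)
    (fun s t hs ht => by
      rw [← smul_sub, norm_smul, norm_inv, Real.norm_eq_abs, abs_of_pos (by norm_num : (0:ℝ) < 4),
        inv_mul_le_iff₀ (by norm_num)]
      exact hLip s t hs ht)
  rw [← smul_sub, norm_smul, norm_inv, Real.norm_eq_abs, abs_of_pos (by norm_num : (0:ℝ) < 4),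
    inv_mul_le_iff₀ (by norm_num)] at hle
  refine ⟨hA s, hA t, hAs s hs, hAs t ht, fun i => hst _,
    fun i j hij => hts _ _ (Fin.lt_def.2 (Fin.lt_def.1 hij)), ?_⟩
  -- lower bound
  set φ := nf (C (hA s) - C (hA t)) with hφ
  have hts' : ∀ i j : Fin K, hA t i < hB s j := fun i j => hts _ _ (by
    simp only [Fin.lt_def, Fin.val_castAdd, Fin.val_natAdd]; omega)
  have hst' : ∀ i j : Fin K, hA s i < hB t j := fun i j =>
    (hlt s hs i j).trans (hst _)
  have b1 : ∀ i : Fin K, C (hA s) φ - ε1 ≤ φ (Θ (hB s i) (hA s)) := by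
    intro i
    have h2 := (hΘ (hB s i) (hA s) (hAs s hs) (fun j => hlt s hs j i)).2 (hA s) (hAs s hs)
      (fun j => hlt s hs j i)
    have h3 := h2.2 (hA s) (hA t) (hAs s hs) (fun j => hlt s hs j i) (hAs t ht)
      (fun j => hts' j i)
    rw [← hφ] at h3
    have := (abs_le.1 h3).1
    linarith
  have b2 : ∀ i : Fin K, φ (Θ (hB t i) (hA t)) ≤ C (hA t) φ + ε1 := by
    intro i
    have h2 := (hΘ (hB t i) (hA t) (hAs t ht) (fun j => hlt t ht j i)).2 (hA t) (hAs t ht)
      (fun j => hlt t ht j i)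
    have h3 := h2.2 (hA s) (hA t) (hAs s hs) (fun j => hst' j i) (hAs t ht)
      (fun j => hlt t ht j i)
    rw [← hφ] at h3
    have := (abs_le.1 h3).2
    linarith
  have b3 : (C (hA s) - C (hA t)) φ - 2 * ε1 ≤ φ (f s - f t) := by
    rw [hsum, map_smul, map_sum, smul_eq_mul]
    have h4 : ∀ i ∈ (Finset.univ : Finset (Fin K)), (C (hA s) - C (hA t)) φ - 2 * ε1
        ≤ φ (Θ (hB s i) (hA s) - Θ (hB t i) (hA t)) := by
      intro i _
      have e : (C (hA s) - C (hA t)) φ = C (hA s) φ - C (hA t) φ := rfl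
      rw [e, map_sub]
      have := b1 i
      have := b2 i
      linarith
    have h5 := Finset.card_nsmul_le_sum _ _ _ h4
    rw [Finset.card_univ, Fintype.card_fin, nsmul_eq_mul] at h5
    rw [le_inv_mul_iff₀ (by linarith)]
    exact h5
  have b4 : φ (f s - f t) ≤ ‖f s - f t‖ := by
    have h2 := φ.le_opNorm (f s - f t)
    rw [Real.norm_eq_abs] at h2
    have h3 := (hnf (C (hA s) - C (hA t))).1
    have h4 := le_abs_self (φ (f s - f t))
    have h5 := norm_nonneg (f s - f t)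
    rw [← hφ] at h3
    nlinarith
  have b5 := (hnf (C (hA s) - C (hA t))).2
  rw [← hφ, hCd] at b5
  rw [hCd] at b3
  have b6 : ε1 ≤ ε / 20 := min_le_right _ _
  have b7 : ε / 20 ≤ ε / 20 * K := by nlinarith
  push_cast at hle
  have b8 : 4 * (ε / 20 * ((K : ℝ) + K)) = 2 * ε / 5 * K := by ring
  rw [b8] at hle
  linarith

end Pool.Agent.P5bf
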