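import Pool.Agent.P5bf.ConcMod
import Pool.Agent.P5bf.Transfer

/-! The equivalences. -/

set_option autoImplicit false

open Filter Topology

namespace Pool.Agent.P5bf

universe u

theorem conc_of_isometry {X : Type u} [NormedAddCommGroup X] [NormedSpace ℝ X]
    {B : Type u} [NormedAddCommGroup B] [NormedSpace ℝ B] (j : X →L[ℝ] B)
    (hj : ∀ x, ‖j x‖ = ‖x‖) (h : Conc B) : Conc X := by
  intro ε hε
  obtain ⟨K0, hK0⟩ := h ε hε
  refine ⟨K0, fun K hK f hf => ?_⟩
  obtain ⟨x, y, h1, h2, h3, h4, h5⟩ := hK0 K hK (fun x => j (f x)) (fun x y hx hy => by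
    rw [← map_sub, hj]; exact hf x y hx hy)
  rw [← map_sub, hj] at h5
  exact ⟨x, y, h1, h2, h3, h4, h5⟩

theorem concModG_of_conc {X : Type u} [NormedAddCommGroup X] [NormedSpace ℝ X]
    {B : Type u} [NormedAddCommGroup B] [NormedSpace ℝ B] (j : X →L[ℝ] B)
    (h : Conc B) : ConcModG j := by
  intro ε hε
  obtain ⟨K0, hK0⟩ := h ε hε
  refine ⟨K0, fun K hK f hf => ?_⟩
  obtain ⟨x, y, h1, h2, h3, h4, h5⟩ := hK0 K hK f hf
  exact ⟨x, y, h1, h2, h3, h4, 0, by rw [map_zero, sub_zero]; exact h5⟩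

theorem J_norm' (X : Type u) [NormedAddCommGroup X] [NormedSpace ℝ X] (x : X) :
    ‖J X x‖ = ‖x‖ :=
  (NormedSpace.inclusionInDoubleDualLi (E := X) ℝ).norm_map x

theorem conc_of_bidual {X : Type u} [NormedAddCommGroup X] [NormedSpace ℝ X]
    (h : Conc (StrongDual ℝ (StrongDual ℝ X))) : Conc X :=
  conc_of_isometry (B := StrongDual ℝ (StrongDual ℝ X)) (J X) (J_norm' X) h

theorem concMod_of_bidual {X : Type u} [NormedAddCommGroup X] [NormedSpace ℝ X]
    (h : Conc (StrongDual ℝ (StrongDual ℝ X))) : ConcMod X := by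
  unfold ConcMod
  exact concModG_of_conc _ h

theorem conc_iff_bidual (X : Type u) [NormedAddCommGroup X] [NormedSpace ℝ X] :
    Conc X ↔ Conc (StrongDual ℝ (StrongDual ℝ X)) :=
  ⟨conc_bidual, conc_of_bidual⟩

theorem conc_iff_mod (X : Type u) [NormedAddCommGroup X] [NormedSpace ℝ X] (hX : AUS X) :
    Conc X ↔ ConcMod X :=
  ⟨fun h => concMod_of_bidual (conc_bidual h), fun h => conc_of_concMod hX h⟩

end Pool.Agent.P5bf
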