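import Pool.Agent.P5bf.Defs

/-! Basic facts on the filters `Ext`. -/

set_option autoImplicit false

open Filter Topology

namespace Pool.Agent.P5bf

theorem ev_gt (N : ℕ) : ∀ᶠ n in (U : Filter ℕ), N < n := by
  have h : (U : Filter ℕ) ≤ atTop := by
    rw [← Nat.cofinite_eq_atTop]; exact hyperfilter_le_cofinite
  exact h (eventually_gt_atTop N)

theorem ev_ext_zero (i : ℕ) (p : (ℕ → ℕ) × (ℕ → ℕ)) (P : (ℕ → ℕ) × (ℕ → ℕ) → Prop) :
    (∀ᶠ p' in Ext i 0 p, P p') ↔ P p := by
  simp [Ext]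

theorem ev_ext_succ (i j : ℕ) (p : (ℕ → ℕ) × (ℕ → ℕ)) (P : (ℕ → ℕ) × (ℕ → ℕ) → Prop) :
    (∀ᶠ p' in Ext i (j + 1) p, P p') ↔
      ∀ᶠ n in (U : Filter ℕ), ∀ᶠ m in (U : Filter ℕ),
        ∀ᶠ p' in Ext (i + 1) j (Function.update p.1 i n, Function.update p.2 i m), P p' := by
  simp only [Ext, eventually_bind]

theorem ev_ext_add (i a b : ℕ) (p : (ℕ → ℕ) × (ℕ → ℕ)) (P : (ℕ → ℕ) × (ℕ → ℕ) → Prop) :
    (∀ᶠ p' in Ext i (a + b) p, P p') ↔
      ∀ᶠ p1 in Ext i a p, ∀ᶠ p' in Ext (i + a) b p1, P p' := by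
  induction a generalizing i p with
  | zero => simp [ev_ext_zero]
  | succ a ih =>
    rw [show a + 1 + b = (a + b) + 1 by ring, ev_ext_succ, ev_ext_succ]
    refine eventually_congr (Eventually.of_forall fun n => eventually_congr
      (Eventually.of_forall fun m => ?_))
    rw [ih, show i + 1 + a = i + (a + 1) by ring]

/-- `Ext` behaves like an ultrafilter. -/
theorem ext_em (i j : ℕ) (p : (ℕ → ℕ) × (ℕ → ℕ)) (P : (ℕ → ℕ) × (ℕ → ℕ) → Prop) :
    (∀ᶠ p' in Ext i j p, P p') ∨ (∀ᶠ p' in Ext i j p, ¬ P p') := by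
  induction j generalizing i p with
  | zero => simp only [ev_ext_zero]; exact em _
  | succ j ih =>
    simp only [ev_ext_succ]
    have h1 : ∀ n : ℕ, (∀ᶠ m in (U : Filter ℕ),
        ∀ᶠ p' in Ext (i + 1) j (Function.update p.1 i n, Function.update p.2 i m), P p') ∨
        (∀ᶠ m in (U : Filter ℕ),
        ∀ᶠ p' in Ext (i + 1) j (Function.update p.1 i n, Function.update p.2 i m), ¬ P p') := by
      intro n
      rcases U.em (fun m => ∀ᶠ p' in Ext (i + 1) j
        (Function.update p.1 i n, Function.update p.2 i m), P p') with h | h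
      · exact Or.inl h
      · refine Or.inr (h.mono fun m hm => ?_)
        exact (ih (i + 1) _).resolve_left hm
    rcases U.em (fun n => ∀ᶠ m in (U : Filter ℕ),
        ∀ᶠ p' in Ext (i + 1) j (Function.update p.1 i n, Function.update p.2 i m), P p') with h | h
    · exact Or.inl h
    · exact Or.inr (h.mono fun n hn => (h1 n).resolve_left hn)

theorem ext_false (i j : ℕ) (p : (ℕ → ℕ) × (ℕ → ℕ)) : ¬ ∀ᶠ _p' in Ext i j p, False := by
  induction j generalizing i p with
  | zero => rw [ev_ext_zero]; exact id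
  | succ j ih =>
    rw [ev_ext_succ]
    intro h
    obtain ⟨n, hn⟩ := h.exists
    obtain ⟨m, hm⟩ := hn.exists
    exact ih _ _ hm

instance ext_neBot (i j : ℕ) (p : (ℕ → ℕ) × (ℕ → ℕ)) : (Ext i j p).NeBot := by
  refine ⟨fun h => ext_false i j p ?_⟩
  rw [h]; exact eventually_bot

theorem sm_update {i : ℕ} {x : ℕ → ℕ} (hx : SM i x) {n : ℕ} (hn : ∀ a, a < i → x a < n) :
    SM (i + 1) (Function.update x i n) := by
  intro a b hab hb
  have ha : a ≠ i := by omega
  rw [Function.update_of_ne ha]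
  rcases Nat.lt_succ_iff_lt_or_eq.1 hb with h | h
  · rw [Function.update_of_ne (by omega)]; exact hx a b hab h
  · subst h; rw [Function.update_self]; exact hn a hab

theorem good_succ {i : ℕ} {p : (ℕ → ℕ) × (ℕ → ℕ)} (hp : Good i p) :
    ∀ᶠ n in (U : Filter ℕ), ∀ᶠ m in (U : Filter ℕ),
      Good (i + 1) (Function.update p.1 i n, Function.update p.2 i m) := by
  obtain ⟨h1, h2, h3, h4⟩ := hp
  set B := (∑ a ∈ Finset.range i, p.1 a) + (∑ a ∈ Finset.range i, p.2 a) with hB
  have hb1 : ∀ a, a < i → p.1 a ≤ B := fun a ha =>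
    le_trans (Finset.single_le_sum (f := fun a => p.1 a) (fun _ _ => Nat.zero_le _)
      (Finset.mem_range.2 ha)) (Nat.le_add_right _ _)
  have hb2 : ∀ a, a < i → p.2 a ≤ B := fun a ha =>
    le_trans (Finset.single_le_sum (f := fun a => p.2 a) (fun _ _ => Nat.zero_le _)
      (Finset.mem_range.2 ha)) (Nat.le_add_left _ _)
  filter_upwards [ev_gt B] with n hn
  filter_upwards [ev_gt n] with m hm
  refine ⟨sm_update h1 fun a ha => lt_of_le_of_lt (hb1 a ha) hn,
    sm_update h2 fun a ha => lt_of_le_of_lt (hb2 a ha) (hn.trans hm), ?_, ?_⟩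
  · intro j hj
    rcases Nat.lt_succ_iff_lt_or_eq.1 hj with h | h
    · simp only [Function.update_of_ne (show j ≠ i by omega)]; exact h3 j h
    · subst h; simpa using hm
  · intro j l hjl hl
    have hj : j ≠ i := by omega
    simp only [Function.update_of_ne hj]
    rcases Nat.lt_succ_iff_lt_or_eq.1 hl with h | h
    · simp only [Function.update_of_ne (show l ≠ i by omega)]; exact h4 j l hjl h
    · subst h; simp only [Function.update_self]; exact lt_of_le_of_lt (hb2 j hjl) hn

theorem good_ext {i : ℕ} (j : ℕ) {p : (ℕ → ℕ) × (ℕ → ℕ)} (hp : Good i p) :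
    ∀ᶠ p' in Ext i j p, Good (i + j) p' := by
  induction j generalizing i p with
  | zero => rw [ev_ext_zero]; exact hp
  | succ j ih =>
    rw [ev_ext_succ]
    filter_upwards [good_succ hp] with n hn
    filter_upwards [hn] with m hm
    have := ih hm
    rwa [show i + 1 + j = i + (j + 1) by ring] at this

theorem good_p0 : Good 0 p0 := by
  refine ⟨fun a b _ h => absurd h (by omega), fun a b _ h => absurd h (by omega),
    fun j h => absurd h (by omega), fun j l _ h => absurd h (by omega)⟩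

end Pool.Agent.P5bf
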