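import Pool.Agent.P5bf.Wl

/-! Lipschitz and step estimates for the level functions. -/

set_option autoImplicit false

open Filter Topology

namespace Pool.Agent.P5bf

universe u

variable {E : Type u} [NormedAddCommGroup E] [NormedSpace ℝ E]

theorem F_top (g : (ℕ → ℕ) → StrongDual ℝ E) (K : ℕ) (x : ℕ → ℕ) : F g K K x = g x := by
  simp [F, FF]

theorem F_succ (g : (ℕ → ℕ) → StrongDual ℝ E) {K i : ℕ} (hi : i < K) (x : ℕ → ℕ) :
    F g K i x = wl (fun n => F g K (i + 1) (Function.update x i n)) := by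
  unfold F
  have h1 : K - i = (K - (i + 1)) + 1 := by omega
  rw [h1, FF]
  have h2 : K - (K - (i + 1) + 1) = i := by omega
  rw [h2]

theorem F_bdd (g : (ℕ → ℕ) → StrongDual ℝ E) (K : ℕ) (M : ℝ) (hM : ∀ x, ‖g x‖ ≤ M)
    (i : ℕ) (x : ℕ → ℕ) : ‖F g K i x‖ ≤ M := by
  unfold F
  generalize K - i = j
  induction j generalizing x with
  | zero => exact hM x
  | succ j ih =>
    rw [FF]
    exact wl_norm_le _ M fun n => ih _

theorem hd_update_same (i : ℕ) (x y : ℕ → ℕ) (n : ℕ) :
    hd (i + 1) (Function.update x i n) (Function.update y i n) = hd i x y := by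
  unfold hd
  congr 1
  ext a
  simp only [Finset.mem_filter, Finset.mem_range]
  constructor
  · rintro ⟨h1, h2⟩
    have ha : a ≠ i := by
      rintro rfl; simp at h2
    rw [Function.update_of_ne ha, Function.update_of_ne ha] at h2
    exact ⟨by omega, h2⟩
  · rintro ⟨h1, h2⟩
    have ha : a ≠ i := by omega
    rw [Function.update_of_ne ha, Function.update_of_ne ha]
    exact ⟨by omega, h2⟩

theorem hd_update_le (i : ℕ) (x : ℕ → ℕ) (n m : ℕ) :
    hd (i + 1) (Function.update x i n) (Function.update x i m) ≤ 1 := by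
  unfold hd
  calc _ ≤ ({i} : Finset ℕ).card := by
        refine Finset.card_le_card fun a ha => ?_
        simp only [Finset.mem_filter] at ha
        rw [Finset.mem_singleton]
        by_contra h
        rw [Function.update_of_ne h, Function.update_of_ne h] at ha
        exact ha.2 rfl
    _ = 1 := by simp

theorem ev_sm_update {i : ℕ} {x : ℕ → ℕ} (hx : SM i x) :
    ∀ᶠ n in (U : Filter ℕ), SM (i + 1) (Function.update x i n) := by
  filter_upwards [ev_gt (∑ a ∈ Finset.range i, x a)] with n hn
  exact sm_update hx fun a ha => lt_of_le_of_lt (Finset.single_le_sum (f := fun a => x a)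
    (fun _ _ => Nat.zero_le _) (Finset.mem_range.2 ha)) hn

theorem F_lip (g : (ℕ → ℕ) → StrongDual ℝ E) (K : ℕ) (M : ℝ) (hM : ∀ x, ‖g x‖ ≤ M)
    (L : ℝ) (hL : LipN K L g) (i : ℕ) (hi : i ≤ K) : LipN i L (F g K i) := by
  obtain ⟨j, rfl⟩ : ∃ j, i = K - j := ⟨K - i, by omega⟩
  induction j with
  | zero =>
    intro x y hx hy
    simp only [Nat.sub_zero] at hx hy ⊢
    rw [F_top, F_top]
    exact hL x y hx hy
  | succ j ih =>
    by_cases hjK : K ≤ j
    · have := ih (by omega)
      rwa [show K - j = K - (j + 1) by omega] at this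
    have ih' := ih (by omega)
    set i := K - (j + 1) with hidef
    have hij : K - j = i + 1 := by omega
    rw [hij] at ih'
    intro x y hx hy
    rw [F_succ g (show i < K by omega), F_succ g (show i < K by omega)]
    refine wl_sub_le _ _ M _ (fun n => F_bdd g K M hM _ _) (fun n => F_bdd g K M hM _ _) ?_
    filter_upwards [ev_sm_update hx, ev_sm_update hy] with n h1 h2
    have := ih' _ _ h1 h2
    rwa [hd_update_same] at this

theorem F_step (g : (ℕ → ℕ) → StrongDual ℝ E) (K : ℕ) (M : ℝ) (hM : ∀ x, ‖g x‖ ≤ M)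
    (L : ℝ) (hL0 : 0 ≤ L) (hL : LipN K L g) (i : ℕ) (hi : i < K) (x : ℕ → ℕ) (n : ℕ)
    (hx : SM i x) (hxn : SM (i + 1) (Function.update x i n)) :
    ‖F g K (i + 1) (Function.update x i n) - F g K i x‖ ≤ L := by
  rw [F_succ g hi x]
  refine sub_wl_le _ _ M L (fun m => F_bdd g K M hM _ _) ?_
  filter_upwards [ev_sm_update hx] with m hm
  refine (F_lip g K M hM L hL (i + 1) hi _ _ hxn hm).trans ?_
  have h1 : (hd (i + 1) (Function.update x i n) (Function.update x i m) : ℝ) ≤ 1 := by
    exact_mod_cast hd_update_le i x n m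
  nlinarith

end Pool.Agent.P5bf
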