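import Pool.Agent.P5bf.Defs

/-! Finite form of Goldstine's theorem. -/

set_option autoImplicit false

open Filter Topology

namespace Pool.Agent.P5bf

universe u

variable {X : Type u} [NormedAddCommGroup X] [NormedSpace ℝ X]

theorem helly (w : StrongDual ℝ (StrongDual ℝ X)) (Φ : Finset (StrongDual ℝ X)) (ε : ℝ)
    (hε : 0 < ε) : ∃ y : X, ‖y‖ ≤ ‖w‖ + ε ∧ ∀ φ ∈ Φ, |φ y - w φ| ≤ ε := by
  classical
  set R : ℝ := ‖w‖ + ε with hR
  have hR0 : 0 < R := by positivity
  let T : X →L[ℝ] (Φ → ℝ) := ContinuousLinearMap.pi (fun φ : Φ => (φ : StrongDual ℝ X))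
  have hT : ∀ y φ, T y φ = (φ : StrongDual ℝ X) y := fun y φ => rfl
  let v : Φ → ℝ := fun φ => w φ
  have hconv : Convex ℝ (closure (T '' Metric.closedBall (0 : X) R)) :=
    ((convex_closedBall (0 : X) R).is_linear_image T.toLinearMap.isLinear).closure
  have hv : v ∈ closure (T '' Metric.closedBall (0 : X) R) := by
    by_contra hnot
    obtain ⟨f, c, hf1, hf2⟩ := geometric_hahn_banach_closed_point hconv isClosed_closure hnot
    let ψ : StrongDual ℝ X := ∑ φ : Φ, f (Pi.single φ 1) • (φ : StrongDual ℝ X)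
    have hfv : ∀ z : Φ → ℝ, f z = ∑ φ : Φ, f (Pi.single φ 1) * z φ := by
      intro z
      have hz : z = ∑ φ : Φ, z φ • (Pi.single φ (1 : ℝ) : Φ → ℝ) := by
        ext φ
        simp [Finset.sum_apply, Pi.single_apply]
      conv_lhs => rw [hz]
      simp [map_sum, mul_comm]
    have hfT : ∀ y, f (T y) = ψ y := by
      intro y
      rw [hfv]
      simp [ψ, hT]
    have hfw : f v = w ψ := by
      rw [hfv]
      simp [ψ, v, map_sum]
    have hc0 : 0 ≤ c := by
      have := hf1 (T 0) (subset_closure ⟨0, by simp [hR0.le], rfl⟩)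
      rw [map_zero, map_zero] at this
      exact this.le
    have hψ : ‖ψ‖ ≤ c / R := by
      refine ContinuousLinearMap.opNorm_le_bound _ (by positivity) fun y => ?_
      by_cases hy : y = 0
      · simp [hy]
      have hy0 : 0 < ‖y‖ := norm_pos_iff.2 hy
      have hball : ∀ s : ℝ, |s| = 1 → ψ ((s * (R / ‖y‖)) • y) ≤ c := by
        intro s hs
        rw [← hfT]
        refine (hf1 _ (subset_closure ⟨_, ?_, rfl⟩)).le
        simp only [Metric.mem_closedBall, dist_zero_right, norm_smul, norm_mul, Real.norm_eq_abs,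
          hs, one_mul]
        rw [abs_of_pos (by positivity)]
        rw [div_mul_cancel₀ _ hy0.ne']
      have h1 := hball 1 (by simp)
      have h2 := hball (-1) (by simp)
      simp only [map_smul, smul_eq_mul] at h1 h2
      rw [Real.norm_eq_abs, abs_le]
      have hk : 0 < R / ‖y‖ := by positivity
      have e1 : c / R * ‖y‖ = c / (R / ‖y‖) := by field_simp
      rw [e1]
      constructor
      · rw [neg_le, le_div_iff₀ hk]; linarith
      · rw [le_div_iff₀ hk]; linarith
    have hw : w ψ ≤ ‖w‖ * ‖ψ‖ := (le_abs_self _).trans (by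
      rw [← Real.norm_eq_abs]; exact w.le_opNorm ψ)
    rw [hfw] at hf2
    have h3 : ‖w‖ * ‖ψ‖ ≤ R * ‖ψ‖ := mul_le_mul_of_nonneg_right (by linarith) (norm_nonneg _)
    have h4 : R * ‖ψ‖ ≤ c := by
      have := mul_le_mul_of_nonneg_left hψ hR0.le
      rwa [mul_div_cancel₀ _ hR0.ne'] at this
    linarith
  obtain ⟨_, ⟨y, hy, rfl⟩, hdist⟩ := Metric.mem_closure_iff.1 hv ε hε
  refine ⟨y, by simpa using hy, fun φ hφ => ?_⟩
  have h5 := (dist_le_pi_dist v (T y) ⟨φ, hφ⟩).trans hdist.le
  rw [Real.dist_eq, abs_sub_comm] at h5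
  exact h5

end Pool.Agent.P5bf
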