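import Pool.Agent.P5bf.RamseyN

/-! Homogeneous infinite sets for pairs of increasing tuples. -/

set_option autoImplicit false

namespace Pool.Agent.P5bf

universe u

/-- 1-Lipschitz on the increasing tuples for the Hamming distance -/
def Lip1 {X : Type u} [NormedAddCommGroup X] {K : ℕ} (f : (Fin K → ℕ) → X) : Prop :=
  ∀ x y : Fin K → ℕ, StrictMono x → StrictMono y → ‖f x - f y‖ ≤ (hammingDist x y : ℝ)

/-- all pairs of the same type have almost the same distance -/
def Homog {X : Type u} [NormedAddCommGroup X] {K : ℕ} (f : (Fin K → ℕ) → X) (η : ℝ)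
    (t : ℕ → ℕ) : Prop :=
  StrictMono t ∧ ∀ u u' : Fin (2 * K) → ℕ, StrictMono u → StrictMono u' →
    ∀ α β : Fin K → Fin (2 * K), StrictMono α → StrictMono β →
      ‖f (fun p => t (u (α p))) - f (fun p => t (u (β p)))‖
        ≤ ‖f (fun p => t (u' (α p))) - f (fun p => t (u' (β p)))‖ + η

theorem exists_homog {X : Type u} [NormedAddCommGroup X] {K : ℕ} (f : (Fin K → ℕ) → X)
    (hf : Lip1 f) (η : ℝ) (hη : 0 < η) : ∃ t, Homog f η t := by
  classical
  set B : ℕ := ⌊(K : ℝ) / η⌋₊ with hB
  let G : (Fin (2 * K) → ℕ) → (Fin K → Fin (2 * K)) → (Fin K → Fin (2 * K)) → ℝ :=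
    fun e α β => ‖f (fun p => e (α p)) - f (fun p => e (β p))‖
  let col : Finset ℕ → ((Fin K → Fin (2 * K)) × (Fin K → Fin (2 * K)) → Fin (B + 1)) :=
    fun s => if h : s.card = 2 * K then fun c =>
      ⟨min ⌊G (s.orderEmbOfFin h) c.1 c.2 / η⌋₊ B, Nat.lt_succ_of_le (min_le_right _ _)⟩
      else fun _ => 0
  obtain ⟨H, -, hH, c, hc⟩ := ramsey_nat (2 * K) col Set.univ Set.infinite_univ
  have hH' : (setOf (fun n => n ∈ H)).Infinite := hH
  let t : ℕ → ℕ := Nat.nth (fun n => n ∈ H)
  have ht : StrictMono t := Nat.nth_strictMono hH'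
  have htH : ∀ n, t n ∈ H := fun n => Nat.nth_mem_of_infinite hH' n
  have hle : ∀ e : Fin (2 * K) → ℕ, StrictMono e → ∀ α β : Fin K → Fin (2 * K),
      StrictMono α → StrictMono β → ⌊G e α β / η⌋₊ ≤ B := by
    intro e he α β hα hβ
    refine Nat.floor_le_floor ?_
    refine div_le_div_of_nonneg_right ?_ hη.le
    refine (hf _ _ (fun a b h => he (hα h)) (fun a b h => he (hβ h))).trans ?_
    have := hammingDist_le_card_fintype (x := fun p => e (α p)) (y := fun p => e (β p))
    simp only [Fintype.card_fin] at this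
    exact_mod_cast this
  have key : ∀ u : Fin (2 * K) → ℕ, StrictMono u → ∀ α β : Fin K → Fin (2 * K),
      StrictMono α → StrictMono β →
      ⌊G (fun i => t (u i)) α β / η⌋₊ = (c (α, β) : ℕ) := by
    intro u hu α β hα hβ
    have htu : StrictMono (fun i => t (u i)) := fun a b h => ht (hu h)
    let s : Finset ℕ := Finset.univ.image (fun i => t (u i))
    have hs : s.card = 2 * K := by
      rw [Finset.card_image_of_injective _ htu.injective, Finset.card_univ, Fintype.card_fin]
    have hsH : (s : Set ℕ) ⊆ H := by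
      intro x hx
      simp only [s, Finset.coe_image, Set.mem_image] at hx
      obtain ⟨i, _, rfl⟩ := hx
      exact htH _
    have h1 := hc s hsH hs
    have h2 : (fun i => t (u i)) = s.orderEmbOfFin hs :=
      Finset.orderEmbOfFin_unique hs (fun i => Finset.mem_image_of_mem _ (Finset.mem_univ i)) htu
    have h3 := congrFun h1 (α, β)
    simp only [col] at h3
    rw [dif_pos hs] at h3
    have h4 := congrArg Fin.val h3
    simp only at h4
    rw [← h2] at h4
    rw [← h4, min_eq_left (hle _ htu α β hα hβ)]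
  refine ⟨t, ht, fun u u' hu hu' α β hα hβ => ?_⟩
  have h1 := key u hu α β hα hβ
  have h2 := key u' hu' α β hα hβ
  have h3 : ⌊G (fun i => t (u i)) α β / η⌋₊ = ⌊G (fun i => t (u' i)) α β / η⌋₊ := h1.trans h2.symm
  have h4 : G (fun i => t (u i)) α β / η < ⌊G (fun i => t (u i)) α β / η⌋₊ + 1 :=
    Nat.lt_floor_add_one _
  have h5 : (⌊G (fun i => t (u' i)) α β / η⌋₊ : ℝ) ≤ G (fun i => t (u' i)) α β / η :=
    Nat.floor_le (by positivity)
  rw [h3] at h4
  have h6 : G (fun i => t (u i)) α β / η < G (fun i => t (u' i)) α β / η + 1 := by linarith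
  rw [div_lt_iff₀ hη, add_mul, div_mul_cancel₀ _ hη.ne', one_mul] at h6
  exact h6.le

end Pool.Agent.P5bf
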