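import Pool.Agent.P5bf.Homog

/-! Homogeneous infinite sets for quadruples of increasing tuples. -/

set_option autoImplicit false

namespace Pool.Agent.P5bf

universe u

/-- the second difference -/
def dd {X : Type u} [NormedAddCommGroup X] {K : ℕ} (f : (Fin K → ℕ) → X)
    (a b c d : Fin K → ℕ) : X := f a - f b - (f c - f d)

/-- all quadruples of the same type have almost the same second difference -/
def Homog4 {X : Type u} [NormedAddCommGroup X] {K : ℕ} (f : (Fin K → ℕ) → X) (η : ℝ)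
    (t : ℕ → ℕ) : Prop :=
  StrictMono t ∧ ∀ u u' : Fin (4 * K) → ℕ, StrictMono u → StrictMono u' →
    ∀ α β γ δ : Fin K → Fin (4 * K), StrictMono α → StrictMono β → StrictMono γ → StrictMono δ →
      ‖dd f (fun p => t (u (α p))) (fun p => t (u (β p))) (fun p => t (u (γ p)))
          (fun p => t (u (δ p)))‖
        ≤ ‖dd f (fun p => t (u' (α p))) (fun p => t (u' (β p))) (fun p => t (u' (γ p)))
          (fun p => t (u' (δ p)))‖ + η

theorem exists_homog4 {X : Type u} [NormedAddCommGroup X] {K : ℕ} (f : (Fin K → ℕ) → X)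
    (hf : Lip1 f) (η : ℝ) (hη : 0 < η) : ∃ t, Homog4 f η t := by
  classical
  set B : ℕ := ⌊(2 * K : ℝ) / η⌋₊ with hB
  let Q := (Fin K → Fin (4 * K)) × (Fin K → Fin (4 * K)) × (Fin K → Fin (4 * K)) ×
    (Fin K → Fin (4 * K))
  let G : (Fin (4 * K) → ℕ) → Q → ℝ :=
    fun e c => ‖dd f (fun p => e (c.1 p)) (fun p => e (c.2.1 p)) (fun p => e (c.2.2.1 p))
      (fun p => e (c.2.2.2 p))‖
  let SM4 : Q → Prop := fun c => StrictMono c.1 ∧ StrictMono c.2.1 ∧ StrictMono c.2.2.1 ∧
    StrictMono c.2.2.2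
  let col : Finset ℕ → (Q → Fin (B + 1)) :=
    fun s => if h : s.card = 4 * K then fun c =>
      ⟨min ⌊G (s.orderEmbOfFin h) c / η⌋₊ B, Nat.lt_succ_of_le (min_le_right _ _)⟩
      else fun _ => 0
  obtain ⟨H, -, hH, c, hc⟩ := ramsey_nat (4 * K) col Set.univ Set.infinite_univ
  have hH' : (setOf (fun n => n ∈ H)).Infinite := hH
  let t : ℕ → ℕ := Nat.nth (fun n => n ∈ H)
  have ht : StrictMono t := Nat.nth_strictMono hH'
  have htH : ∀ n, t n ∈ H := fun n => Nat.nth_mem_of_infinite hH' n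
  have hham : ∀ x y : Fin K → ℕ, (hammingDist x y : ℝ) ≤ K := by
    intro x y
    have := hammingDist_le_card_fintype (x := x) (y := y)
    simp only [Fintype.card_fin] at this
    exact_mod_cast this
  have hle : ∀ e : Fin (4 * K) → ℕ, StrictMono e → ∀ c : Q, SM4 c → ⌊G e c / η⌋₊ ≤ B := by
    intro e he c hc
    refine Nat.floor_le_floor ?_
    refine div_le_div_of_nonneg_right ?_ hη.le
    have h1 := (hf (fun p => e (c.1 p)) (fun p => e (c.2.1 p)) (fun a b h => he (hc.1 h))
      (fun a b h => he (hc.2.1 h))).trans (hham _ _)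
    have h2 := (hf (fun p => e (c.2.2.1 p)) (fun p => e (c.2.2.2 p)) (fun a b h => he (hc.2.2.1 h))
      (fun a b h => he (hc.2.2.2 h))).trans (hham _ _)
    have h3 := norm_sub_le (f (fun p => e (c.1 p)) - f (fun p => e (c.2.1 p)))
      (f (fun p => e (c.2.2.1 p)) - f (fun p => e (c.2.2.2 p)))
    have h4 : G e c = ‖(f (fun p => e (c.1 p)) - f (fun p => e (c.2.1 p))) -
      (f (fun p => e (c.2.2.1 p)) - f (fun p => e (c.2.2.2 p)))‖ := rfl
    rw [h4]
    linarith
  have key : ∀ u : Fin (4 * K) → ℕ, StrictMono u → ∀ d : Q, SM4 d →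
      ⌊G (fun i => t (u i)) d / η⌋₊ = (c d : ℕ) := by
    intro u hu d hd
    have htu : StrictMono (fun i => t (u i)) := fun a b h => ht (hu h)
    let s : Finset ℕ := Finset.univ.image (fun i => t (u i))
    have hs : s.card = 4 * K := by
      rw [Finset.card_image_of_injective _ htu.injective, Finset.card_univ, Fintype.card_fin]
    have hsH : (s : Set ℕ) ⊆ H := by
      intro x hx
      simp only [s, Finset.coe_image, Set.mem_image] at hx
      obtain ⟨i, _, rfl⟩ := hx
      exact htH _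
    have h1 := hc s hsH hs
    have h2 : (fun i => t (u i)) = s.orderEmbOfFin hs :=
      Finset.orderEmbOfFin_unique hs (fun i => Finset.mem_image_of_mem _ (Finset.mem_univ i)) htu
    have h3 := congrFun h1 d
    simp only [col] at h3
    rw [dif_pos hs] at h3
    have h4 := congrArg Fin.val h3
    simp only at h4
    rw [← h2] at h4
    rw [← h4, min_eq_left (hle _ htu d hd)]
  refine ⟨t, ht, fun u u' hu hu' α β γ δ hα hβ hγ hδ => ?_⟩
  have h1 := key u hu (α, β, γ, δ) ⟨hα, hβ, hγ, hδ⟩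
  have h2 := key u' hu' (α, β, γ, δ) ⟨hα, hβ, hγ, hδ⟩
  have h3 := h1.trans h2.symm
  have h4 : G (fun i => t (u i)) (α, β, γ, δ) / η <
      ⌊G (fun i => t (u i)) (α, β, γ, δ) / η⌋₊ + 1 := Nat.lt_floor_add_one _
  have h5 : (⌊G (fun i => t (u' i)) (α, β, γ, δ) / η⌋₊ : ℝ) ≤
      G (fun i => t (u' i)) (α, β, γ, δ) / η :=
    Nat.floor_le (div_nonneg (norm_nonneg _) hη.le)
  rw [h3] at h4
  have h6 : G (fun i => t (u i)) (α, β, γ, δ) / η <
      G (fun i => t (u' i)) (α, β, γ, δ) / η + 1 := by linarith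
  rw [div_lt_iff₀ hη, add_mul, div_mul_cancel₀ _ hη.ne', one_mul] at h6
  exact h6.le

end Pool.Agent.P5bf
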