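import Pool.Agent.P5bf.SimHelly2
import Pool.Agent.P5bf.Transfer
import Pool.Agent.P5bf.StepU

/-! Concentration passes from the bidual to the bidual quotient. -/

set_option autoImplicit false

open Filter Topology

namespace Pool.Agent.P5bf

universe u v

variable {X : Type u} [NormedAddCommGroup X] [NormedSpace ℝ X]
  {B : Type u} [NormedAddCommGroup B] [NormedSpace ℝ B]

theorem bd_rearr (a b c e r : B) :
    (a - c) - (b - e) = ((a - b) - r) - ((c - e) - r) := by abel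

/-- finitely many vectors of `B` can be replaced by vectors of `X`, with control of norms and of
the distances of their differences to given vectors of `X` -/
def Replaceable (lam : ℝ) (j : X →L[ℝ] B) : Prop :=
  ∀ (T : Type) [Fintype T] [DecidableEq T] (w : T → B) (R : ℝ) (_ : ∀ i, ‖w i‖ ≤ R)
    (s : T → T → X) (d : T → T → ℝ) (_ : ∀ i k, ‖(w i - w k) - j (s i k)‖ ≤ d i k),
    ∃ x : T → X, (∀ i, ‖x i‖ ≤ lam * R + 1) ∧ (∀ i k, ‖(x i - x k) - s i k‖ ≤ lam * d i k + 1)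

/-- stage corrections of a lifted map -/
theorem exists_upsilon {K : ℕ} (j : X →L[ℝ] B) (hj : ∀ x, ‖j x‖ = ‖x‖) {lam : ℝ} (hH : Replaceable lam j)
    (w : (Fin K → ℕ) → B) (R C : ℝ)
    (hwR : ∀ x : Fin K → ℕ, StrictMono x → ‖w x‖ ≤ R)
    (v : (Fin K → ℕ) → (Fin K → ℕ) → X)
    (hv : ∀ x y : Fin K → ℕ, StrictMono x → StrictMono y →
      ‖(w x - w y) - j (v x y)‖ ≤ C * (hammingDist x y : ℝ)) :
    ∃ Θ : ℕ → (Fin K → ℕ) → X, ∀ a : ℕ, ∀ x : Fin K → ℕ, StrictMono x → (∀ i, x i < a) →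
      ‖w x - j (Θ a x)‖ ≤ (1 + lam) * R + 1 ∧ ∀ y : Fin K → ℕ, StrictMono y → (∀ i, y i < a) →
        ‖(w x - j (Θ a x)) - (w y - j (Θ a y))‖ ≤
          ((1 + lam) * C + 1) * (hammingDist x y : ℝ) := by
  classical
  have key : ∀ a : ℕ, ∃ Θ : (Fin K → ℕ) → X, ∀ x : Fin K → ℕ, StrictMono x → (∀ i, x i < a) →
      ‖w x - j (Θ x)‖ ≤ (1 + lam) * R + 1 ∧ ∀ y : Fin K → ℕ, StrictMono y → (∀ i, y i < a) →
        ‖(w x - j (Θ x)) - (w y - j (Θ y))‖ ≤
          ((1 + lam) * C + 1) * (hammingDist x y : ℝ) := by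
    intro a
    let T := {x : Fin K → Fin a // StrictMono x}
    let τ : T → (Fin K → ℕ) := fun x i => (x.1 i : ℕ)
    have hτ : ∀ x : T, StrictMono (τ x) := fun x i j hij => x.2 hij
    obtain ⟨x, h1, h2⟩ := hH T (fun i => w (τ i)) R (fun i => hwR _ (hτ i))
      (fun i k => v (τ i) (τ k)) (fun i k => C * (hammingDist (τ i) (τ k) : ℝ))
      (fun i k => hv _ _ (hτ i) (hτ k))
    let mk : (x : Fin K → ℕ) → StrictMono x → (∀ i, x i < a) → T := fun x hx hxa =>
      ⟨fun i => ⟨x i, hxa i⟩, fun i j hij => hx hij⟩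
    have hmk : ∀ (x : Fin K → ℕ) (hx : StrictMono x) (hxa : ∀ i, x i < a),
        τ (mk x hx hxa) = x := fun x hx hxa => rfl
    have hmain : ∃ Θ : (Fin K → ℕ) → X, ∀ (y : Fin K → ℕ) (hy : StrictMono y)
        (hya : ∀ i, y i < a), Θ y = x (mk y hy hya) :=
      ⟨fun y => if h : StrictMono y ∧ ∀ i, y i < a then x (mk y h.1 h.2) else 0,
        fun y hy hya => dif_pos ⟨hy, hya⟩⟩
    obtain ⟨Θ, hΘ⟩ := hmain
    refine ⟨Θ, ?_⟩
    intro y hy hya
    rw [hΘ y hy hya]
    refine ⟨?_, fun y' hy' hya' => ?_⟩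
    · refine (norm_sub_le _ _).trans ?_
      have h3 := hwR y hy
      have h4 := h1 (mk y hy hya)
      rw [hj]
      linarith
    · rw [hΘ y' hy' hya']
      by_cases hyy : y = y'
      · subst hyy
        rw [hammingDist_self, Nat.cast_zero, mul_zero, sub_self, norm_zero]
      have h4 := h2 (mk y hy hya) (mk y' hy' hya')
      rw [hmk, hmk] at h4
      have h5 : (1 : ℝ) ≤ hammingDist y y' := by
        exact_mod_cast Nat.one_le_iff_ne_zero.2 (fun h => hyy (hammingDist_eq_zero.1 h))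
      rw [bd_rearr (w y) (w y') (j (x (mk y hy hya)))
        (j (x (mk y' hy' hya'))) (j (v y y'))]
      have h6 : j (x (mk y hy hya)) - j (x (mk y' hy' hya')) - j (v y y') =
          j ((x (mk y hy hya) - x (mk y' hy' hya')) - v y y') := by
        rw [map_sub, map_sub]
      rw [h6]
      refine (norm_sub_le _ _).trans ?_
      rw [hj]
      have h8 := hv y y' hy hy'
      linarith
  choose Θ hΘ using key
  exact ⟨Θ, hΘ⟩

/-- concentration passes to quotients by replaceable subspaces -/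
theorem conc_quotient_gen {Z : Type v} [NormedAddCommGroup Z] [NormedSpace ℝ Z]
    (j : X →L[ℝ] B) (hj : ∀ x, ‖j x‖ = ‖x‖) {lam : ℝ} (hlam : 0 ≤ lam)
    (hH : Replaceable lam j) (q : B →L[ℝ] Z) (hqj : ∀ x, q (j x) = 0) (C0 C : ℝ) (hC0 : 0 ≤ C0) (hC : 0 ≤ C)
    (HC0 : ∀ z : Z, ∃ w : B, q w = z ∧ ‖w‖ ≤ C0 * ‖z‖)
    (HC : ∀ w : B, ∃ x : X, ‖w - j x‖ ≤ C * ‖q w‖)
    (h : Conc B) : Conc Z := by
  classical
  obtain ⟨κ, hκ, hκ2⟩ : ∃ κ : ℝ, 0 < κ ∧ ∀ w : B, ‖q w‖ ≤ κ * ‖w‖ := by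
    refine ⟨‖q‖ + 1, by positivity, fun w => (q.le_opNorm w).trans ?_⟩
    have := norm_nonneg w
    nlinarith
  intro ε hε
  set Λ : ℝ := (1 + lam) * C + 1 + (2 * (1 + lam) * C0 + 2) with hΛ
  have hΛ0 : 0 < Λ := by positivity
  obtain ⟨K0, hK0⟩ := h (ε / (4 * κ * Λ)) (by positivity)
  refine ⟨K0 + 1, fun K hK g0 hg0 => ?_⟩
  have hKpos : 0 < K := by omega
  have hKr : (1 : ℝ) ≤ K := by exact_mod_cast hKpos
  let base : Fin K → ℕ := fun i => i
  have hbase : StrictMono base := fun i j hij => hij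
  let g : (Fin K → ℕ) → Z := fun x => g0 x - g0 base
  have hgd : ∀ x y, g x - g y = g0 x - g0 y := fun x y => by
    exact cancel3 (B := Z) (g0 x) (g0 y) (g0 base)
  have hgK : ∀ x : Fin K → ℕ, StrictMono x → ‖g x‖ ≤ K := fun x hx => by
    refine (hg0 x base hx hbase).trans ?_
    have := hammingDist_le_card_fintype (x := x) (y := base)
    simp only [Fintype.card_fin] at this
    exact_mod_cast this
  choose w hw1 hw2 using fun x : Fin K → ℕ => HC0 (g x)
  have hwR : ∀ x : Fin K → ℕ, StrictMono x → ‖w x‖ ≤ C0 * K := fun x hx =>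
    (hw2 x).trans (mul_le_mul_of_nonneg_left (hgK x hx) hC0)
  choose v hv using fun x y : Fin K → ℕ => HC (w x - w y)
  have hv' : ∀ x y : Fin K → ℕ, StrictMono x → StrictMono y →
      ‖(w x - w y) - j (v x y)‖ ≤ C * (hammingDist x y : ℝ) := by
    intro x y hx hy
    refine (hv x y).trans (mul_le_mul_of_nonneg_left ?_ hC)
    have e : q (w x - w y) = g0 x - g0 y := by
      rw [← hgd, ← hw1 x, ← hw1 y]
      exact map_sub q _ _
    rw [e]
    exact hg0 x y hx hy
  obtain ⟨Θ, hΘ⟩ := exists_upsilon j hj hH w (C0 * K) C hwR v hv'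
  let G : ℕ → (Fin K → ℕ) → B := fun a x => w x - j (Θ a x)
  have hqG : ∀ a x, q (G a x) = g x := by
    intro a x
    have h1 : q (j (Θ a x)) = 0 := hqj _
    have h2 : q (G a x) = q (w x) - q (j (Θ a x)) := map_sub q _ _
    rw [h2, h1, hw1, sub_zero]
  let f : (Fin (K + K) → ℕ) → B :=
    fun s => (K : ℝ)⁻¹ • ∑ i, G (hB s i) (hA s)
  have hAs : ∀ s : Fin (K + K) → ℕ, StrictMono s → StrictMono (hA s) := fun s hs i j hij =>
    hs (Fin.lt_def.2 (Fin.lt_def.1 hij))
  have hlt : ∀ s : Fin (K + K) → ℕ, StrictMono s → ∀ i j : Fin K, hA s i < hB s j := by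
    intro s hs i j
    refine hs ?_
    simp only [Fin.lt_def, Fin.val_castAdd, Fin.val_natAdd]
    omega
  have hsum : ∀ s t, f s - f t = (K : ℝ)⁻¹ • ∑ i, (G (hB s i) (hA s) - G (hB t i) (hA t)) := by
    intro s t
    simp only [f]
    rw [← smul_sub, ← Finset.sum_sub_distrib]
  have hLip : ∀ s t : Fin (K + K) → ℕ, StrictMono s → StrictMono t →
      ‖f s - f t‖ ≤ Λ * (hammingDist s t : ℝ) := by
    intro s t hs ht
    rw [hsum, norm_smul, norm_inv,
      Real.norm_natCast]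
    rw [inv_mul_le_iff₀ (by linarith)]
    refine (norm_sum_le  _ _).trans ?_
    have h1 : ∀ i : Fin K, ‖G (hB s i) (hA s) - G (hB t i) (hA t)‖
        ≤ ((1 + lam) * C + 1) * (hammingDist (hA s) (hA t) : ℝ) +
          (if hB s i ≠ hB t i then (2 * (1 + lam) * C0 + 2) * (K : ℝ) else 0) := by
      intro i
      have h2 := hΘ (hB s i) (hA s) (hAs s hs) (fun j => hlt s hs j i)
      have h3 := hΘ (hB t i) (hA t) (hAs t ht) (fun j => hlt t ht j i)
      have h6 : (0 : ℝ) ≤ hammingDist (hA s) (hA t) := Nat.cast_nonneg _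
      split_ifs with hi
      · refine (norm_sub_le  _ _).trans ?_
        have h4 := h2.1
        have h5 := h3.1
        have h7 : 0 ≤ ((1 + lam) * C + 1) * (hammingDist (hA s) (hA t) : ℝ) := by positivity
        have h8 : ‖G (hB s i) (hA s)‖ ≤ (1 + lam) * (C0 * K) + 1 := h4
        have h9 : ‖G (hB t i) (hA t)‖ ≤ (1 + lam) * (C0 * K) + 1 := h5
        nlinarith
      · push Not at hi
        rw [← hi] at h3 ⊢
        have h4 := h2.2 (hA t) (hAs t ht) (fun j => by rw [hi]; exact hlt t ht j i)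
        rw [add_zero]
        exact h4
    refine (Finset.sum_le_sum fun i _ => h1 i).trans ?_
    rw [Finset.sum_add_distrib, Finset.sum_const, Finset.card_univ, Fintype.card_fin,
      nsmul_eq_mul, ← Finset.sum_filter, Finset.sum_const, nsmul_eq_mul]
    have h7 : ((Finset.univ.filter (fun i : Fin K => hB s i ≠ hB t i)).card : ℝ)
        = hammingDist (hB s) (hB t) := rfl
    rw [h7, hamming_split]
    push_cast
    have h8 : (0 : ℝ) ≤ hammingDist (hA s) (hA t) := Nat.cast_nonneg _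
    have h9 : (0 : ℝ) ≤ hammingDist (hB s) (hB t) := Nat.cast_nonneg _
    have e1 : (K : ℝ) * (Λ * ((hammingDist (hA s) (hA t) : ℝ) + (hammingDist (hB s) (hB t) : ℝ)))
        = (K : ℝ) * (((1 + lam) * C + 1) * (hammingDist (hA s) (hA t) : ℝ)) +
          (hammingDist (hB s) (hB t) : ℝ) * ((2 * (1 + lam) * C0 + 2) * K) +
          (K : ℝ) * ((2 * (1 + lam) * C0 + 2) * (hammingDist (hA s) (hA t) : ℝ)) +
          (K : ℝ) * (((1 + lam) * C + 1) * (hammingDist (hB s) (hB t) : ℝ)) := by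
      rw [hΛ]; ring
    rw [e1]
    have h12 : 0 ≤ (K : ℝ) * ((2 * (1 + lam) * C0 + 2) * (hammingDist (hA s) (hA t) : ℝ)) := by positivity
    have h13 : 0 ≤ (K : ℝ) * (((1 + lam) * C + 1) * (hammingDist (hB s) (hB t) : ℝ)) := by positivity
    linarith
  obtain ⟨s, t, hs, ht, hst, hts, hle⟩ := hK0 (K + K) (by omega) (fun s => (Λ⁻¹ : ℝ) • f s)
    (fun s t hs ht => by
      rw [← smul_sub, norm_smul, norm_inv,
        Real.norm_eq_abs, abs_of_pos hΛ0, inv_mul_le_iff₀ hΛ0]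
      exact hLip s t hs ht)
  rw [← smul_sub, norm_smul, norm_inv,
    Real.norm_eq_abs, abs_of_pos hΛ0, inv_mul_le_iff₀ hΛ0] at hle
  refine ⟨hA s, hA t, hAs s hs, hAs t ht, fun i => hst _,
    fun i j hij => hts _ _ (Fin.lt_def.2 (Fin.lt_def.1 hij)), ?_⟩
  have e2 : q (f s - f t) = g0 (hA s) - g0 (hA t) := by
    rw [hsum]
    have e3 : q ((K : ℝ)⁻¹ • ∑ i, (G (hB s i) (hA s) - G (hB t i) (hA t))) =
        (K : ℝ)⁻¹ • ∑ i, q (G (hB s i) (hA s) - G (hB t i) (hA t)) := by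
      rw [map_smul, map_sum]
    rw [e3]
    have e4 : ∀ i : Fin K, q (G (hB s i) (hA s) - G (hB t i) (hA t)) =
        g0 (hA s) - g0 (hA t) := by
      intro i
      have : q (G (hB s i) (hA s) - G (hB t i) (hA t)) =
          q (G (hB s i) (hA s)) - q (G (hB t i) (hA t)) := map_sub q _ _
      rw [this, hqG, hqG, hgd]
    rw [Finset.sum_congr rfl fun i _ => e4 i, Finset.sum_const, Finset.card_univ,
      Fintype.card_fin, ← Nat.cast_smul_eq_nsmul ℝ, smul_smul,
      inv_mul_cancel₀ (by linarith : (K : ℝ) ≠ 0), one_smul]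
  rw [← e2]
  refine (hκ2 _).trans ?_
  push_cast at hle
  have e5 : Λ * (ε / (4 * κ * Λ) * ((K : ℝ) + K)) = ε * K / (2 * κ) := by
    field_simp; ring
  rw [e5] at hle
  calc κ * ‖f s - f t‖ ≤ κ * (ε * K / (2 * κ)) := mul_le_mul_of_nonneg_left hle hκ.le
    _ = ε * K / 2 := by field_simp
    _ ≤ ε * K := by
      have : 0 ≤ ε * K := by positivity
      linarith

theorem replaceable_bidual (X : Type u) [NormedAddCommGroup X] [NormedSpace ℝ X] :
    Replaceable (B := StrongDual ℝ (StrongDual ℝ X)) 1 (J X) := by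
  intro T _ _ w R hR s d hd
  obtain ⟨x, h1, h2⟩ := simHelly2 w R hR s d hd 1 one_pos
  refine ⟨x, fun i => ?_, fun i k => ?_⟩
  · rw [one_mul]; exact h1 i
  · rw [one_mul]; exact h2 i k

/-- concentration of a space passes to its bidual quotient -/
theorem conc_quotient (X : Type u) [NormedAddCommGroup X] [NormedSpace ℝ X]
    {Z : Type v} [NormedAddCommGroup Z] [NormedSpace ℝ Z] [CompleteSpace Z]
    (q : StrongDual ℝ (StrongDual ℝ X) →L[ℝ] Z) (hq : IsBidualQuotient X Z q)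
    (h : Conc X) : Conc Z := by
  obtain ⟨C0, hC0, HC0⟩ := open_const (B := StrongDual ℝ (StrongDual ℝ X)) q hq.1
  obtain ⟨C, hC, HC⟩ := bq_const q hq
  exact conc_quotient_gen (B := StrongDual ℝ (StrongDual ℝ X)) (J X)
    (fun x => (NormedSpace.inclusionInDoubleDualLi (E := X) ℝ).norm_map x) zero_le_one
    (replaceable_bidual X) q (fun x => (hq.2 _).2 ⟨x, rfl⟩) C0 C hC0 hC HC0 HC (conc_bidual h)

end Pool.Agent.P5bf
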