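import Pool.Agent.P5bf.ThreeSub
import Pool.Agent.P5bf.QuotUp
import Pool.Agent.P5bf.Arrays

/-! Locally complemented subspaces. -/

set_option autoImplicit false

open Filter Topology

namespace Pool.Agent.P5bf

universe u

/-- `Y` is locally complemented in `X`: for some constant `lam`, each finite-dimensional subspace
`F` of `X` has a linear map to `Y` of norm at most `lam` which is the identity on `F ∩ Y`. -/
def LocCompl (X : Type u) [NormedAddCommGroup X] [NormedSpace ℝ X] (Y : Submodule ℝ X) : Prop :=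
  ∃ lam : ℝ, 0 ≤ lam ∧ ∀ F : Submodule ℝ X, FiniteDimensional ℝ F →
    ∃ T : F →ₗ[ℝ] Y, (∀ x : F, ‖T x‖ ≤ lam * ‖x‖) ∧ ∀ x : F, (x : X) ∈ Y → (T x : X) = x

theorem replaceable_of_locCompl {X : Type u} [NormedAddCommGroup X] [NormedSpace ℝ X]
    {Y : Submodule ℝ X} {lam : ℝ} (hlam : 0 ≤ lam)
    (H : ∀ F : Submodule ℝ X, FiniteDimensional ℝ F →
      ∃ T : F →ₗ[ℝ] Y, (∀ x : F, ‖T x‖ ≤ lam * ‖x‖) ∧ ∀ x : F, (x : X) ∈ Y → (T x : X) = x) :
    Replaceable lam Y.subtypeL := by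
  classical
  intro T _ _ w R hR s d hd
  set S : Set X := Set.range w ∪ Set.range (fun c : T × T => ((s c.1 c.2 : Y) : X)) with hS
  have hSf : S.Finite := (Set.finite_range w).union (Set.finite_range _)
  set F := Submodule.span ℝ S with hF
  have hfd : FiniteDimensional ℝ F := FiniteDimensional.span_of_finite ℝ hSf
  obtain ⟨P, hP1, hP2⟩ := H F hfd
  have hw : ∀ i, w i ∈ F := fun i => Submodule.subset_span (Or.inl ⟨i, rfl⟩)
  have hs : ∀ i k, ((s i k : Y) : X) ∈ F := fun i k =>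
    Submodule.subset_span (Or.inr ⟨(i, k), rfl⟩)
  refine ⟨fun i => P ⟨w i, hw i⟩, fun i => ?_, fun i k => ?_⟩
  · have h1 := hP1 ⟨w i, hw i⟩
    have h2 : ‖(⟨w i, hw i⟩ : F)‖ ≤ R := hR i
    have h3 := mul_le_mul_of_nonneg_left h2 hlam
    linarith
  · have h1 : P ⟨(s i k : X), hs i k⟩ = s i k :=
      Subtype.ext (hP2 ⟨(s i k : X), hs i k⟩ (s i k).2)
    have h2 : P ⟨w i, hw i⟩ - P ⟨w k, hw k⟩ - s i k =
        P ((⟨w i, hw i⟩ - ⟨w k, hw k⟩) - ⟨(s i k : X), hs i k⟩) := by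
      rw [map_sub, map_sub, h1]
    rw [h2]
    have h3 := hP1 ((⟨w i, hw i⟩ - ⟨w k, hw k⟩) - ⟨(s i k : X), hs i k⟩)
    have h4 : ‖((⟨w i, hw i⟩ : F) - ⟨w k, hw k⟩) - ⟨(s i k : X), hs i k⟩‖ ≤ d i k := hd i k
    have h5 := mul_le_mul_of_nonneg_left h4 hlam
    linarith

theorem conc_quot_sub (X : Type u) [NormedAddCommGroup X] [NormedSpace ℝ X]
    (Y : Submodule ℝ X) [hY : IsClosed (Y : Set X)] (hL : LocCompl X Y) (h : Conc X) :
    Conc (X ⧸ Y) := by
  obtain ⟨lam, hlam, H⟩ := hL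
  refine conc_quotient_gen Y.subtypeL (fun _ => rfl) hlam (replaceable_of_locCompl hlam H)
    (Y.mkQL) (fun x => by simp) 2 2 (by norm_num) (by norm_num) (fun z => ?_) (fun w => ?_) h
  · by_cases h0 : z = 0
    · exact ⟨0, by rw [map_zero, h0], by rw [norm_zero]; positivity⟩
    · have hpos : 0 < ‖z‖ := norm_pos_iff.2 h0
      obtain ⟨w, hw1, hw2⟩ := QuotientAddGroup.exists_norm_mk_lt z hpos
      refine ⟨w, hw1, ?_⟩
      rw [two_mul]
      exact hw2.le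
  · by_cases h0 : (Y.mkQ w : X ⧸ Y) = 0
    · have hx : w ∈ Y := (Submodule.Quotient.mk_eq_zero Y).1 h0
      refine ⟨⟨w, hx⟩, ?_⟩
      have : w - Y.subtypeL ⟨w, hx⟩ = 0 := by simp
      rw [this, norm_zero]
      positivity
    · have hpos : 0 < ‖(Y.mkQ w : X ⧸ Y)‖ := norm_pos_iff.2 h0
      obtain ⟨z, hz1, hz2⟩ := QuotientAddGroup.exists_norm_mk_lt (Y.mkQ w : X ⧸ Y) hpos
      have hz3 : w - z ∈ Y := by
        have h3 : (Y.mkQ z : X ⧸ Y) = Y.mkQ w := hz1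
        have h4 : (Y.mkQ (w - z) : X ⧸ Y) = 0 := by rw [map_sub, h3, sub_self]
        exact (Submodule.Quotient.mk_eq_zero Y).1 h4
      refine ⟨⟨w - z, hz3⟩, ?_⟩
      have h5 : w - Y.subtypeL ⟨w - z, hz3⟩ = z := by simp
      rw [h5, two_mul]
      exact hz2.le

theorem hasMaps_three (X : Type u) [NormedAddCommGroup X] [NormedSpace ℝ X]
    (Y : Submodule ℝ X) [IsClosed (Y : Set X)] (h : HasMaps X) :
    HasMaps Y ∨ HasMaps (X ⧸ Y) := by
  by_contra hcon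
  rw [not_or, hasMaps_iff_not_conc, hasMaps_iff_not_conc, not_not, not_not] at hcon
  exact noMaps_of_conc (conc_three_sub X Y hcon.1 hcon.2) h

theorem hasMaps_locCompl (X : Type u) [NormedAddCommGroup X] [NormedSpace ℝ X]
    (Y : Submodule ℝ X) [IsClosed (Y : Set X)] (hL : LocCompl X Y) :
    HasMaps X ↔ HasMaps Y ∨ HasMaps (X ⧸ Y) := by
  refine ⟨hasMaps_three X Y, fun h => ?_⟩
  rw [hasMaps_iff_not_conc]
  intro hX
  rcases h with h | h
  · exact noMaps_of_conc (conc_sub X Y hX) h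
  · exact noMaps_of_conc (conc_quot_sub X Y hL hX) h

end Pool.Agent.P5bf
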