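import Pool.Agent.P5bf.Phi

/-! The lower bound for arbitrary pairs of tuples. -/

set_option autoImplicit false

namespace Pool.Agent.P5bf

universe u

variable {X : Type u} [NormedAddCommGroup X] {K : ℕ}

/-- if the positions in `A` of `x` carry values that do not occur in `z`, then the distance
is at least about `Ph A / 2` -/
theorem Ph_le_pair {f : (Fin K → ℕ) → X} {η : ℝ} {t : ℕ → ℕ} (h : Homog f η t)
    (A : Finset (Fin K)) (x z : Fin K → ℕ) (hx : StrictMono x) (hz : StrictMono z)
    (hA : ∀ p ∈ A, ∀ q, x p ≠ z q) :
    Ph f t A ≤ 2 * ‖f (fun p => t (2 * x p)) - f (fun p => t (2 * z p))‖ + 2 * η := by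
  classical
  let S : Finset ℕ := Finset.univ.image x ∪ Finset.univ.image z
  have hS : S.card ≤ 2 * K := by
    refine (Finset.card_union_le _ _).trans ?_
    have h1 := Finset.card_image_le (s := (Finset.univ : Finset (Fin K))) (f := x)
    have h2 := Finset.card_image_le (s := (Finset.univ : Finset (Fin K))) (f := z)
    rw [Finset.card_univ, Fintype.card_fin] at h1 h2
    omega
  obtain ⟨T, hST, hT⟩ := Infinite.exists_superset_card_eq S (2 * K) hS
  let e : Fin (2 * K) → ℕ := T.orderEmbOfFin hT
  have he : StrictMono e := (T.orderEmbOfFin hT).strictMono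
  have hr : ∀ a ∈ T, ∃ i, e i = a := by
    intro a ha
    have : a ∈ Set.range (T.orderEmbOfFin hT) := by
      rw [Finset.range_orderEmbOfFin]; exact ha
    exact this
  have hxT : ∀ p, ∃ i, e i = x p := fun p => hr _ (hST (Finset.mem_union_left _
    (Finset.mem_image_of_mem _ (Finset.mem_univ p))))
  have hzT : ∀ p, ∃ i, e i = z p := fun p => hr _ (hST (Finset.mem_union_right _
    (Finset.mem_image_of_mem _ (Finset.mem_univ p))))
  choose α hα using hxT
  choose β hβ using hzT
  have hαm : StrictMono α := fun p q hpq => by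
    rw [← he.lt_iff_lt, hα, hα]; exact hx hpq
  have hβm : StrictMono β := fun p q hpq => by
    rw [← he.lt_iff_lt, hβ, hβ]; exact hz hpq
  let u : Fin (2 * K) → ℕ := fun i => 2 * e i
  let u' : Fin (2 * K) → ℕ := fun i => 2 * e i + if e i ∈ A.image x then 1 else 0
  have hu : StrictMono u := fun i j hij => by
    have := he hij; simp only [u]; omega
  have hu' : StrictMono u' := fun i j hij => by
    have := he hij; simp only [u']; split_ifs <;> omega
  have e1 : (fun p => t (u (α p))) = fun p => t (2 * x p) := by
    funext p; simp only [u, hα]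
  have e2 : (fun p => t (u (β p))) = fun p => t (2 * z p) := by
    funext p; simp only [u, hβ]
  have e3 : (fun p => t (u' (α p))) = fun p => t (bump (fun p => 2 * x p) A p) := by
    funext p
    simp only [u', hα, bump]
    have : x p ∈ A.image x ↔ p ∈ A := by
      rw [Finset.mem_image]
      constructor
      · rintro ⟨q, hq, hqp⟩
        rwa [← hx.injective hqp]
      · exact fun hp => ⟨p, hp, rfl⟩
    simp only [this]
  have e4 : (fun p => t (u' (β p))) = fun p => t (2 * z p) := by
    funext p
    simp only [u', hβ]
    have : z p ∉ A.image x := by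
      rw [Finset.mem_image]
      rintro ⟨q, hq, hqp⟩
      exact hA q hq p hqp
    rw [if_neg this, add_zero]
  have h1 := h.2 u' u hu' hu α β hαm hβm
  rw [e1, e2, e3, e4] at h1
  have hsp : Spaced (fun p => 2 * x p) := fun p q hpq => by
    have := hx hpq; simp only; omega
  have h2 := (Ph_spaced h A (fun p => 2 * x p) hsp).1
  have h3 : ‖f (fun p => t (2 * x p)) - f (fun p => t (bump (fun p => 2 * x p) A p))‖ ≤
      ‖f (fun p => t (2 * x p)) - f (fun p => t (2 * z p))‖ +
        ‖f (fun p => t (2 * z p)) - f (fun p => t (bump (fun p => 2 * x p) A p))‖ :=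
    norm_sub_le_norm_sub_add_norm_sub _ _ _
  rw [norm_sub_rev (f (fun p => t (2 * z p)))] at h3
  linarith

end Pool.Agent.P5bf
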