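import Pool.Agent.P5bf.Block

/-! The inheritance theorem in ultrafilter form. -/

set_option autoImplicit false

open Filter Topology

namespace Pool.Agent.P5bf

universe u v w

variable {X : Type u} [NormedAddCommGroup X] [NormedSpace ℝ X]
variable {E : Type v} [NormedAddCommGroup E] [NormedSpace ℝ E]
variable {Z : Type w} [NormedAddCommGroup Z] [NormedSpace ℝ Z]

theorem hd_le (K : ℕ) (x y : ℕ → ℕ) : hd K x y ≤ K := by
  unfold hd
  exact (Finset.card_filter_le _ _).trans (by simp)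

theorem sm_id (K : ℕ) : SM K id := fun _ _ h _ => h

theorem main_core (J' : X →L[ℝ] StrongDual ℝ E) (hJ : ∀ x, ‖J' x‖ = ‖x‖)
    (hA : ∀ η : ℝ, 0 < η → ∃ T : ℝ, 0 < T ∧ ∀ b : ℝ, 0 < b → ∀ x : X,
      ∃ Φ : Finset E, ∃ δ : ℝ, 0 < δ ∧ ∀ w : StrongDual ℝ E, ‖w‖ ≤ b →
      (∀ φ ∈ Φ, |w φ| ≤ δ) → ‖J' x + w‖ ≤ max (‖x‖ + η * b) ((T + 1) * b))
    (hZ : ∀ ε : ℝ, 0 < ε → ∀ L : ℝ, ∃ K0 : ℕ, ∀ K : ℕ, K0 ≤ K →
      ∀ c : (ℕ → ℕ) → StrongDual ℝ E, LipN K L c →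
        ∀ᶠ p in Ext 0 K p0, ∃ x : X, ‖(c p.1 - c p.2) - J' x‖ ≤ ε * K) :
    ConcU X := by
  classical
  intro ε hε L
  set Λ : ℝ := max L 0 + 1 with hΛd
  have hΛ : 0 < Λ := by have := le_max_right L 0; linarith
  have hLΛ : L ≤ Λ := by have := le_max_left L 0; linarith
  obtain ⟨T, hT, hA'⟩ := hA (ε / (8 * Λ)) (by positivity)
  set η : ℝ := ε / (8 * Λ) with hηd
  have hη : 0 < η := by positivity
  set G : ℕ := ⌈8 * Λ * (T + 1) / ε⌉₊ + 1 with hGd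
  have hG0 : 0 < G := Nat.succ_pos _
  have hGr : 8 * Λ * (T + 1) / ε ≤ G := by
    rw [hGd]; push_cast
    have := Nat.le_ceil (8 * Λ * (T + 1) / ε)
    linarith
  have hG0r : (0 : ℝ) < G := by exact_mod_cast hG0
  set ε' : ℝ := ε / (8 * G) with hε'd
  have hε' : 0 < ε' := by positivity
  obtain ⟨K1, hK1⟩ := hZ ε' hε' Λ
  set R0 : ℝ := ((T + 1) * (2 * Λ) + G * (η * (2 * Λ))) / (ε / 4) with hR0
  refine ⟨G * (K1 + 1) + ⌈R0⌉₊ + 1, fun K hK f hf => ?_⟩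
  have hKG : G * (K1 + 1) ≤ K := by omega
  have hKR : R0 ≤ K := by
    have h1 := Nat.le_ceil R0
    have h2 : ((⌈R0⌉₊ : ℕ) : ℝ) ≤ K := by exact_mod_cast (by omega : ⌈R0⌉₊ ≤ K)
    linarith
  have hK0 : 0 < K := by omega
  have hK0r : (0 : ℝ) < K := by exact_mod_cast hK0
  -- truncated map
  let f' : (ℕ → ℕ) → X := fun x => if SM K x then f x else 0
  have hf' : ∀ x, SM K x → f' x = f x := fun x hx => if_pos hx
  let g : (ℕ → ℕ) → StrongDual ℝ E := fun x => J' (f' x)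
  set M : ℝ := ‖f id‖ + Λ * K with hMd
  have hM : ∀ x, ‖g x‖ ≤ M := by
    intro x
    simp only [g, hJ]
    by_cases hx : SM K x
    · rw [hf' x hx]
      have h1 := hf x id hx (sm_id K)
      have h2 : L * (hd K x id : ℝ) ≤ Λ * K := by
        have : (hd K x id : ℝ) ≤ K := by exact_mod_cast hd_le K x id
        have h0 : (0 : ℝ) ≤ hd K x id := Nat.cast_nonneg _
        calc L * (hd K x id : ℝ) ≤ Λ * hd K x id := mul_le_mul_of_nonneg_right hLΛ h0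
          _ ≤ Λ * K := mul_le_mul_of_nonneg_left this hΛ.le
      calc ‖f x‖ = ‖(f x - f id) + f id‖ := by rw [sub_add_cancel]
        _ ≤ ‖f x - f id‖ + ‖f id‖ := norm_add_le _ _
        _ ≤ M := by linarith
    · simp only [f', if_neg hx, norm_zero]
      positivity
  have hgL : LipN K Λ g := by
    intro x y hx hy
    simp only [g]
    rw [← map_sub, hJ, hf' x hx, hf' y hy]
    exact (hf x y hx hy).trans (mul_le_mul_of_nonneg_right hLΛ (Nat.cast_nonneg _))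
  set s : ℕ := K / G + 1 with hsd
  have hs1 : K1 ≤ s := by
    have : K1 + 1 ≤ K / G := (Nat.le_div_iff_mul_le hG0).2 (by rw [Nat.mul_comm]; exact hKG)
    omega
  have hK1K : K1 ≤ K := by
    have : K1 + 1 ≤ G * (K1 + 1) := Nat.le_mul_of_pos_left _ hG0
    omega
  have hsr : (s : ℝ) ≤ K / G + 1 := by
    rw [hsd]; push_cast
    have : ((K / G : ℕ) : ℝ) ≤ (K : ℝ) / G := Nat.cast_div_le
    linarith
  set b : ℝ := 2 * Λ * s with hbd
  have hs0 : 0 < s := Nat.succ_pos _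
  have hs0r : (0 : ℝ) < s := by exact_mod_cast hs0
  have hb : 0 < b := by positivity
  set ρ : ℝ := ε' * K with hρd
  have hρ : 0 ≤ ρ := by positivity
  have hq : ∀ i, min s K ≤ i → i ≤ K → ∀ᶠ p in Ext 0 i p0, ∃ x : X,
      ‖D g K i p - J' x‖ ≤ ρ := by
    intro i hi1 hi2
    have hi3 : K1 ≤ i := (le_min hs1 hK1K).trans hi1
    refine (hK1 i hi3 (F g K i) (F_lip g K M hM Λ hgL i hi2)).mono fun p hp => ?_
    obtain ⟨x, hx⟩ := hp
    refine ⟨x, hx.trans (mul_le_mul_of_nonneg_left ?_ hε'.le)⟩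
    exact_mod_cast hi2
  have hfin := blocks J' hJ g K M hM Λ hΛ hgL η T b ρ hη hb hT hρ (hA' b hb) s hs0 le_rfl hq G
  have hGs : min (G * s) K = K := by
    apply min_eq_right
    rw [hsd]
    have := Nat.lt_mul_div_succ K hG0
    have e : G * (K / G + 1) = G * (K / G).succ := rfl
    omega
  rw [hGs] at hfin
  have hgood : ∀ᶠ p in Ext 0 K p0, Good K p := by
    have := good_ext K good_p0
    rwa [Nat.zero_add] at this
  filter_upwards [hfin, hgood] with p h1 h2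
  have h3 : ‖f p.1 - f p.2‖ = ‖D g K K p‖ := by
    rw [D, F_top, F_top]
    simp only [g]
    rw [← map_sub, hJ, hf' _ h2.1, hf' _ h2.2.1]
  rw [h3]
  refine h1.trans ?_
  -- the final estimate
  have e1 : (T + 1) * b ≤ (T + 1) * (2 * Λ) * (K / G) + (T + 1) * (2 * Λ) := by
    have : b ≤ 2 * Λ * (K / G + 1) := mul_le_mul_of_nonneg_left hsr (by positivity)
    calc (T + 1) * b ≤ (T + 1) * (2 * Λ * (K / G + 1)) :=
          mul_le_mul_of_nonneg_left this (by positivity)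
      _ = _ := by ring
  have e2 : (T + 1) * (2 * Λ) * (K / G) ≤ ε / 4 * K := by
    have : (T + 1) * (2 * Λ) / G ≤ ε / 4 := by
      rw [div_le_iff₀ hG0r]
      have h5 : 8 * Λ * (T + 1) ≤ G * ε := by rwa [div_le_iff₀ hε] at hGr
      nlinarith
    calc (T + 1) * (2 * Λ) * (K / G) = (T + 1) * (2 * Λ) / G * K := by ring
      _ ≤ _ := mul_le_mul_of_nonneg_right this hK0r.le
  have e3 : (G : ℝ) * (η * b) ≤ ε / 4 * K + G * (η * (2 * Λ)) := by
    have : b ≤ 2 * Λ * (K / G + 1) := mul_le_mul_of_nonneg_left hsr (by positivity)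
    calc (G : ℝ) * (η * b) ≤ G * (η * (2 * Λ * (K / G + 1))) := by gcongr
      _ = (η * (2 * Λ)) * K + G * (η * (2 * Λ)) := by field_simp
      _ = ε / 4 * K + G * (η * (2 * Λ)) := by
        have : η * (2 * Λ) = ε / 4 := by rw [hηd]; field_simp; ring
        rw [this]
  have e4 : (G : ℝ) * (2 * ρ) ≤ ε / 4 * K := by
    have h6 : 2 * G * ε' = ε / 4 := by
      rw [hε'd]; field_simp; ring
    calc (G : ℝ) * (2 * ρ) = (2 * G * ε') * K := by rw [hρd]; ring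
      _ ≤ _ := by rw [h6]
  have e5 : (T + 1) * (2 * Λ) + G * (η * (2 * Λ)) ≤ ε / 4 * K := by
    rw [hR0, div_le_iff₀ (by positivity)] at hKR
    linarith
  have e6 : (G : ℝ) * (η * b + 2 * ρ) = G * (η * b) + G * (2 * ρ) := by ring
  rw [e6]
  linarith

theorem main_abs (J' : X →L[ℝ] StrongDual ℝ E) (hJ : ∀ x, ‖J' x‖ = ‖x‖)
    (hA : ∀ η : ℝ, 0 < η → ∃ T : ℝ, 0 < T ∧ ∀ b : ℝ, 0 < b → ∀ x : X,
      ∃ Φ : Finset E, ∃ δ : ℝ, 0 < δ ∧ ∀ w : StrongDual ℝ E, ‖w‖ ≤ b →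
      (∀ φ ∈ Φ, |w φ| ≤ δ) → ‖J' x + w‖ ≤ max (‖x‖ + η * b) ((T + 1) * b))
    (q : StrongDual ℝ E →L[ℝ] Z) (C : ℝ) (hC0 : 0 ≤ C)
    (hC : ∀ w : StrongDual ℝ E, ∃ x : X, ‖w - J' x‖ ≤ C * ‖q w‖) (hZ : ConcU Z) :
    ConcU X := by
  refine main_core J' hJ hA fun ε hε L => ?_
  obtain ⟨K0, hK0⟩ := hZ (ε / (C + 1)) (by positivity) (‖q‖ * L)
  refine ⟨K0, fun K hK c hc => ?_⟩
  have h1 : LipN K (‖q‖ * L) (fun x => q (c x)) := by
    intro x y hx hy
    rw [← map_sub]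
    refine (q.le_opNorm _).trans ?_
    rw [mul_assoc]
    exact mul_le_mul_of_nonneg_left (hc x y hx hy) (norm_nonneg _)
  refine (hK0 K hK _ h1).mono fun p hp => ?_
  obtain ⟨x, hx⟩ := hC (c p.1 - c p.2)
  refine ⟨x, hx.trans ?_⟩
  rw [← map_sub] at hp
  calc C * ‖q (c p.1 - c p.2)‖ ≤ (C + 1) * (ε / (C + 1) * K) := by
        apply mul_le_mul (by linarith) hp (norm_nonneg _) (by positivity)
    _ = ε * K := by field_simp

end Pool.Agent.P5bf
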