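import Pool.Agent.P5bf.FLip

/-! Generic extensions: norm bound and weak star smallness of the increments. -/

set_option autoImplicit false

open Filter Topology

namespace Pool.Agent.P5bf

universe u

variable {E : Type u} [NormedAddCommGroup E] [NormedSpace ℝ E]

theorem D_null (g : (ℕ → ℕ) → StrongDual ℝ E) (K : ℕ) (M : ℝ) (hM : ∀ x, ‖g x‖ ≤ M)
    (φ : E) (a i : ℕ) (hia : i + a ≤ K) (p : (ℕ → ℕ) × (ℕ → ℕ)) (δ : ℝ) (hδ : 0 < δ) :
    ∀ᶠ p' in Ext i a p, |(D g K (i + a) p' - D g K i p) φ| < δ := by
  induction a generalizing i p δ with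
  | zero => rw [ev_ext_zero]; simpa using hδ
  | succ a ih =>
    rw [ev_ext_succ]
    have h1 : Tendsto (fun n => F g K (i + 1) (Function.update p.1 i n) φ) (U : Filter ℕ)
        (𝓝 (F g K i p.1 φ)) := by
      rw [F_succ g (show i < K by omega) p.1]
      exact wl_tendsto _ M (fun n => F_bdd g K M hM _ _) φ
    have h2 : Tendsto (fun n => F g K (i + 1) (Function.update p.2 i n) φ) (U : Filter ℕ)
        (𝓝 (F g K i p.2 φ)) := by
      rw [F_succ g (show i < K by omega) p.2]
      exact wl_tendsto _ M (fun n => F_bdd g K M hM _ _) φ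
    have e1 := (Metric.tendsto_nhds.1 h1) (δ / 4) (by positivity)
    have e2 := (Metric.tendsto_nhds.1 h2) (δ / 4) (by positivity)
    filter_upwards [e1] with n hn
    filter_upwards [e2] with m hm
    have h3 := ih (i + 1) (by omega) (Function.update p.1 i n, Function.update p.2 i m)
      (δ / 2) (by positivity)
    rw [show i + 1 + a = i + (a + 1) by ring] at h3
    filter_upwards [h3] with p' hp'
    rw [Real.dist_eq] at hn hm
    have key : (D g K (i + (a + 1)) p' - D g K i p) φ
        = (D g K (i + (a + 1)) p' -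
            D g K (i + 1) (Function.update p.1 i n, Function.update p.2 i m)) φ
          + ((F g K (i + 1) (Function.update p.1 i n) φ - F g K i p.1 φ)
            - (F g K (i + 1) (Function.update p.2 i m) φ - F g K i p.2 φ)) := by
      simp only [D, ContinuousLinearMap.sub_apply]
      ring
    rw [key]
    have t1 := abs_add_le ((D g K (i + (a + 1)) p' -
            D g K (i + 1) (Function.update p.1 i n, Function.update p.2 i m)) φ)
      ((F g K (i + 1) (Function.update p.1 i n) φ - F g K i p.1 φ)
            - (F g K (i + 1) (Function.update p.2 i m) φ - F g K i p.2 φ))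
    have t2 := abs_sub (F g K (i + 1) (Function.update p.1 i n) φ - F g K i p.1 φ)
      (F g K (i + 1) (Function.update p.2 i m) φ - F g K i p.2 φ)
    linarith

theorem D_norm (g : (ℕ → ℕ) → StrongDual ℝ E) (K : ℕ) (M : ℝ) (hM : ∀ x, ‖g x‖ ≤ M)
    (L : ℝ) (hL0 : 0 ≤ L) (hL : LipN K L g) (a i : ℕ) (hia : i + a ≤ K)
    (p : (ℕ → ℕ) × (ℕ → ℕ)) (hp : Good i p) :
    ∀ᶠ p' in Ext i a p, ‖D g K (i + a) p' - D g K i p‖ ≤ 2 * L * a := by
  induction a generalizing i p with
  | zero => rw [ev_ext_zero]; simp
  | succ a ih =>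
    rw [ev_ext_succ]
    filter_upwards [good_succ hp] with n hn
    filter_upwards [hn] with m hm
    have h3 := ih (i + 1) (by omega) _ hm
    rw [show i + 1 + a = i + (a + 1) by ring] at h3
    filter_upwards [h3] with p' hp'
    have s1 := F_step g K M hM L hL0 hL i (by omega) p.1 n hp.1 hm.1
    have s2 := F_step g K M hM L hL0 hL i (by omega) p.2 m hp.2.1 hm.2.1
    have key : D g K (i + (a + 1)) p' - D g K i p
        = (D g K (i + (a + 1)) p' -
            D g K (i + 1) (Function.update p.1 i n, Function.update p.2 i m))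
          + ((F g K (i + 1) (Function.update p.1 i n) - F g K i p.1)
            - (F g K (i + 1) (Function.update p.2 i m) - F g K i p.2)) := by
      simp only [D]
      abel
    rw [key]
    refine (norm_add_le _ _).trans ?_
    refine (add_le_add hp' ((norm_sub_le _ _).trans (add_le_add s1 s2))).trans ?_
    push_cast
    linarith

end Pool.Agent.P5bf
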