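import Pool.Agent.P5bf.Homog

/-! The set function of moved positions. -/

set_option autoImplicit false

namespace Pool.Agent.P5bf

universe u

variable {X : Type u} [NormedAddCommGroup X] {K : ℕ}

/-- add one at the positions of `A` -/
def bump (x : Fin K → ℕ) (A : Finset (Fin K)) : Fin K → ℕ := fun p => x p + if p ∈ A then 1 else 0

/-- the value of the distance of the pair moved exactly at `A` -/
noncomputable def Ph (f : (Fin K → ℕ) → X) (t : ℕ → ℕ) (A : Finset (Fin K)) : ℝ :=
  ‖f (fun p => t (2 * p)) - f (fun p => t (bump (fun p => 2 * p) A p))‖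

/-- spaced tuples -/
def Spaced (x : Fin K → ℕ) : Prop := ∀ p q, p < q → x p + 2 ≤ x q

theorem Spaced.sm {x : Fin K → ℕ} (h : Spaced x) : StrictMono x := fun p q hpq => by
  have := h p q hpq; omega

theorem Spaced.bump_sm {x : Fin K → ℕ} (h : Spaced x) (A : Finset (Fin K)) :
    StrictMono (bump x A) := fun p q hpq => by
  have := h p q hpq
  unfold bump
  split_ifs <;> omega

/-- double the index -/
def dbl (p : Fin K) : Fin (2 * K) := ⟨2 * p, by omega⟩

/-- double the index and add one on `A` -/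
def dblA (A : Finset (Fin K)) (p : Fin K) : Fin (2 * K) :=
  ⟨2 * p + if p ∈ A then 1 else 0, by split_ifs <;> omega⟩

theorem dbl_sm : StrictMono (dbl : Fin K → Fin (2 * K)) := fun p q hpq => by
  rw [Fin.lt_def] at hpq ⊢
  simp only [dbl]; omega

theorem dblA_sm (A : Finset (Fin K)) : StrictMono (dblA A) := fun p q hpq => by
  rw [Fin.lt_def] at hpq ⊢
  simp only [dblA]
  split_ifs <;> omega

/-- interpolate a spaced tuple -/
def inter (x : Fin K → ℕ) (i : Fin (2 * K)) : ℕ := x ⟨i / 2, by omega⟩ + i % 2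

theorem inter_sm {x : Fin K → ℕ} (h : Spaced x) : StrictMono (inter x) := by
  intro i j hij
  rw [Fin.lt_def] at hij
  unfold inter
  rcases Nat.lt_or_ge ((i : ℕ) / 2) ((j : ℕ) / 2) with h1 | h1
  · have := h ⟨(i : ℕ) / 2, by omega⟩ ⟨(j : ℕ) / 2, by omega⟩ (by rw [Fin.lt_def]; exact h1)
    omega
  · have h2 : (i : ℕ) / 2 = (j : ℕ) / 2 := by omega
    have h3 : (⟨(i : ℕ) / 2, by omega⟩ : Fin K) = ⟨(j : ℕ) / 2, by omega⟩ := by
      rw [Fin.mk.injEq]; exact h2
    rw [h3]
    omega

theorem inter_dbl (x : Fin K → ℕ) (p : Fin K) : inter x (dbl p) = x p := by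
  unfold inter dbl
  have h1 : (⟨(2 * (p : ℕ)) / 2, by omega⟩ : Fin K) = p := by
    rw [Fin.ext_iff]; simp
  simp only [h1]
  omega

theorem inter_dblA (x : Fin K → ℕ) (A : Finset (Fin K)) (p : Fin K) :
    inter x (dblA A p) = bump x A p := by
  unfold inter dblA bump
  have h1 : (⟨(2 * (p : ℕ) + if p ∈ A then 1 else 0) / 2, by split_ifs <;> omega⟩ : Fin K) = p := by
    rw [Fin.ext_iff]
    simp only
    split_ifs <;> omega
  simp only [h1]
  split_ifs <;> omega

/-- every spaced pair moved exactly at `A` has almost the distance `Ph A` -/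
theorem Ph_spaced {f : (Fin K → ℕ) → X} {η : ℝ} {t : ℕ → ℕ} (h : Homog f η t)
    (A : Finset (Fin K)) (x : Fin K → ℕ) (hx : Spaced x) :
    Ph f t A ≤ ‖f (fun p => t (x p)) - f (fun p => t (bump x A p))‖ + η ∧
      ‖f (fun p => t (x p)) - f (fun p => t (bump x A p))‖ ≤ Ph f t A + η := by
  have h0 : Spaced (fun p : Fin K => 2 * (p : ℕ)) := fun p q hpq => by
    rw [Fin.lt_def] at hpq; simp only; omega
  have e1 : ∀ y : Fin K → ℕ, (fun p => t (inter y (dbl p))) = fun p => t (y p) := fun y => by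
    funext p; rw [inter_dbl]
  have e2 : ∀ y : Fin K → ℕ, (fun p => t (inter y (dblA A p))) = fun p => t (bump y A p) :=
    fun y => by funext p; rw [inter_dblA]
  have h1 := h.2 (inter (fun p : Fin K => 2 * (p : ℕ))) (inter x) (inter_sm h0) (inter_sm hx)
    dbl (dblA A) dbl_sm (dblA_sm A)
  have h2 := h.2 (inter x) (inter (fun p : Fin K => 2 * (p : ℕ))) (inter_sm hx) (inter_sm h0)
    dbl (dblA A) dbl_sm (dblA_sm A)
  rw [e1, e2, e1, e2] at h1 h2
  exact ⟨h1, h2⟩

/-- the set function is almost subadditive -/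
theorem Ph_union {f : (Fin K → ℕ) → X} {η : ℝ} {t : ℕ → ℕ} (h : Homog f η t)
    (A B : Finset (Fin K)) (hAB : Disjoint A B) :
    Ph f t (A ∪ B) ≤ Ph f t A + Ph f t B + 3 * η := by
  let x : Fin K → ℕ := fun p => 4 * p
  have hx : Spaced x := fun p q hpq => by
    rw [Fin.lt_def] at hpq; simp only [x]; omega
  have hxA : Spaced (bump x A) := fun p q hpq => by
    rw [Fin.lt_def] at hpq; simp only [x, bump]; split_ifs <;> omega
  have e : bump (bump x A) B = bump x (A ∪ B) := by
    funext p
    unfold bump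
    by_cases h1 : p ∈ A
    · have h2 : p ∉ B := Finset.disjoint_left.1 hAB h1
      simp [h1, h2]
    · by_cases h2 : p ∈ B
      · simp [h1, h2]
      · simp [h1, h2]
  have h1 := (Ph_spaced h (A ∪ B) x hx).1
  have h2 := (Ph_spaced h A x hx).2
  have h3 := (Ph_spaced h B (bump x A) hxA).2
  rw [e] at h3
  have h4 : ‖f (fun p => t (x p)) - f (fun p => t (bump x (A ∪ B) p))‖ ≤
      ‖f (fun p => t (x p)) - f (fun p => t (bump x A p))‖ +
        ‖f (fun p => t (bump x A p)) - f (fun p => t (bump x (A ∪ B) p))‖ :=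
    norm_sub_le_norm_sub_add_norm_sub _ _ _
  linarith

theorem Ph_le_card {f : (Fin K → ℕ) → X} (hf : Lip1 f) {η : ℝ} {t : ℕ → ℕ} (h : Homog f η t)
    (A : Finset (Fin K)) : Ph f t A ≤ A.card := by
  classical
  have h0 : Spaced (fun p : Fin K => 2 * (p : ℕ)) := fun p q hpq => by
    rw [Fin.lt_def] at hpq; simp only; omega
  refine (hf _ _ (fun a b hab => h.1 (h0.sm hab)) (fun a b hab => h.1 (h0.bump_sm A hab))).trans ?_
  have : hammingDist (fun p : Fin K => t (2 * (p : ℕ)))
      (fun p => t (bump (fun p => 2 * (p : ℕ)) A p)) ≤ A.card := by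
    unfold hammingDist
    refine Finset.card_le_card fun p hp => ?_
    rw [Finset.mem_filter] at hp
    by_contra hpA
    refine hp.2 ?_
    simp [bump, hpA]
  exact_mod_cast this

/-- the exhaustion argument -/
theorem exists_good {f : (Fin K → ℕ) → X} (hf : Lip1 f) {η : ℝ} {t : ℕ → ℕ} (h : Homog f η t)
    (hη : 0 ≤ η) (c e : ℝ) (hc : 0 ≤ c) (he : e * K ≤ Ph f t Finset.univ) :
    ∃ T : Finset (Fin K), (e - c - 3 * η) * K - 3 * η ≤ T.card ∧
      ∀ A ⊆ T, A.Nonempty → c * A.card ≤ Ph f t A := by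
  classical
  let F : Finset (Finset (Fin K)) := Finset.univ.filter (fun B => Ph f t B ≤ (c + 3 * η) * B.card)
  have hempty : (∅ : Finset (Fin K)) ∈ F := by
    simp only [F, Finset.mem_filter, Finset.mem_univ, true_and, Finset.card_empty, Nat.cast_zero,
      mul_zero]
    unfold Ph
    have : (fun p : Fin K => t (bump (fun p : Fin K => 2 * (p : ℕ)) ∅ p)) =
        fun p : Fin K => t (2 * (p : ℕ)) := by
      funext p; simp [bump]
    rw [this]; simp
  obtain ⟨B, hB, hmax⟩ := Finset.exists_max_image F Finset.card ⟨∅, hempty⟩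
  have hB' : Ph f t B ≤ (c + 3 * η) * B.card := (Finset.mem_filter.1 hB).2
  refine ⟨Bᶜ, ?_, ?_⟩
  · have h1 := Ph_union h B Bᶜ disjoint_compl_right
    rw [Finset.union_compl] at h1
    have h2 := Ph_le_card hf h Bᶜ
    have h3 : ((Bᶜ).card : ℝ) = K - B.card := by
      have := Finset.card_add_card_compl B
      rw [Fintype.card_fin] at this
      have h4 : (B.card : ℝ) + (Bᶜ).card = K := by exact_mod_cast this
      linarith
    have h5 : (B.card : ℝ) ≤ K := by
      have := Finset.card_le_univ B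
      rw [Fintype.card_fin] at this
      exact_mod_cast this
    have h6 : (c + 3 * η) * B.card ≤ (c + 3 * η) * K :=
      mul_le_mul_of_nonneg_left h5 (by positivity)
    nlinarith
  · intro A hA hne
    by_contra hlt
    push Not at hlt
    have hdis : Disjoint B A := by
      rw [Finset.disjoint_left]
      intro p hp hpA
      exact (Finset.mem_compl.1 (hA hpA)) hp
    have h1 := Ph_union h B A hdis
    have h2 : (1 : ℝ) ≤ A.card := by exact_mod_cast hne.card_pos
    have hmem : B ∪ A ∈ F := by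
      rw [Finset.mem_filter]
      refine ⟨Finset.mem_univ _, ?_⟩
      rw [Finset.card_union_of_disjoint hdis]
      push_cast
      nlinarith
    have h3 := hmax _ hmem
    rw [Finset.card_union_of_disjoint hdis] at h3
    have := hne.card_pos
    omega

end Pool.Agent.P5bf
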