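import Pool.Agent.P5bf.ExtL

/-! From iterated ultrafilter quantifiers to infinite sets. -/

set_option autoImplicit false

open Filter Topology

namespace Pool.Agent.P5bf

/-- iterated quantifier over the next entries of a list -/
def Gw (P : List ℕ → Prop) : ℕ → List ℕ → Prop
  | 0, w => P w
  | (c + 1), w => ∀ᶠ n in (U : Filter ℕ), Gw P c (w ++ [n])

theorem exists_next (P : List ℕ → Prop) (N : ℕ) (h : List ℕ) :
    ∃ n : ℕ, (∀ a ∈ h, a < n) ∧ ∀ w, w.Sublist h → ∀ c, w.length + (c + 1) = N →
      Gw P (c + 1) w → Gw P c (w ++ [n]) := by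
  classical
  have h1 : ∀ᶠ n in (U : Filter ℕ), ∀ a ∈ h.toFinset, a < n := by
    rw [eventually_all_finset]
    exact fun a _ => ev_gt a
  have h2 : ∀ᶠ n in (U : Filter ℕ), ∀ w ∈ h.sublists.toFinset, ∀ c ∈ Finset.range (N + 1),
      w.length + (c + 1) = N → Gw P (c + 1) w → Gw P c (w ++ [n]) := by
    rw [eventually_all_finset]
    intro w _
    rw [eventually_all_finset]
    intro c _
    by_cases hc : w.length + (c + 1) = N ∧ Gw P (c + 1) w
    · have : ∀ᶠ n in (U : Filter ℕ), Gw P c (w ++ [n]) := hc.2
      exact this.mono fun n hn _ _ => hn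
    · exact Eventually.of_forall fun n hx hy => absurd ⟨hx, hy⟩ hc
  obtain ⟨n, hn1, hn2⟩ := (h1.and h2).exists
  refine ⟨n, fun a ha => hn1 a (List.mem_toFinset.2 ha), fun w hw c hc hG => ?_⟩
  exact hn2 w (List.mem_toFinset.2 (List.mem_sublists.2 hw)) c
    (Finset.mem_range.2 (by omega)) hc hG

theorem ramsey_list (P : List ℕ → Prop) (N : ℕ) (hP : Gw P N []) :
    ∃ t : ℕ → ℕ, StrictMono t ∧ ∀ s : List ℕ, s.Pairwise (· < ·) → s.length = N →
      P (s.map t) := by
  classical
  choose nxt hn1 hn2 using exists_next P N
  let hist : ℕ → List ℕ := fun j => Nat.rec [] (fun _ h => h ++ [nxt h]) j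
  have hist0 : hist 0 = [] := rfl
  have hist1 : ∀ j, hist (j + 1) = hist j ++ [nxt (hist j)] := fun j => rfl
  let t : ℕ → ℕ := fun j => nxt (hist j)
  have ht : ∀ j, hist j = (List.range j).map t := by
    intro j
    induction j with
    | zero => simp [hist0]
    | succ j ih => rw [hist1, List.range_succ, List.map_append, ← ih]; rfl
  have hmono : StrictMono t := by
    refine strictMono_nat_of_lt_succ fun j => ?_
    refine hn1 (hist (j + 1)) (t j) ?_
    rw [hist1]; simp [t]
  have claim : ∀ j, ∀ w, w.Sublist (hist j) → ∀ c, w.length + c = N → Gw P c w := by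
    intro j
    induction j with
    | zero =>
      intro w hw c hc
      rw [hist0, List.sublist_nil] at hw
      subst hw
      simp only [List.length_nil, Nat.zero_add] at hc
      rw [hc]; exact hP
    | succ j ih =>
      intro w hw c hc
      rw [hist1, List.sublist_append_iff] at hw
      obtain ⟨w1, w2, rfl, h1, h2⟩ := hw
      rcases List.sublist_cons_iff.1 h2 with h | ⟨r, hr, hr'⟩
      · rw [List.sublist_nil] at h
        subst h
        rw [List.append_nil] at hc ⊢
        exact ih w1 h1 c hc
      · rw [List.sublist_nil] at hr'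
        subst hr'
        subst hr
        have hc' : w1.length + (c + 1) = N := by
          rw [List.length_append, List.length_singleton] at hc; omega
        exact hn2 (hist j) w1 h1 c hc' (ih w1 h1 (c + 1) hc')
  refine ⟨t, hmono, fun s hs hlen => ?_⟩
  set J := s.sum + 1 with hJ
  have hsub : s.Sublist (List.range J) := by
    refine List.sublist_of_subperm_of_sortedLE ?_ ?_ ?_
    · refine List.subperm_of_subset (hs.imp (fun h => ne_of_lt h)) fun a ha => ?_
      rw [List.mem_range]
      have := List.single_le_sum (by simp) a ha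
      omega
    · exact (hs.imp le_of_lt).sortedLE
    · exact (List.pairwise_lt_range.imp le_of_lt).sortedLE
  have := claim J (s.map t) ((ht J).symm ▸ hsub.map t) 0 (by simpa using hlen)
  exact this

end Pool.Agent.P5bf
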