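import Mathlib

set_option autoImplicit false

namespace Pool.Agent.P5bf

/-- infinite Ramsey theorem on `ℕ` -/
theorem ramsey_nat {C : Type*} [Finite C] [Nonempty C] (r : ℕ) :
    ∀ (f : Finset ℕ → C) (A : Set ℕ), A.Infinite → ∃ H ⊆ A, H.Infinite ∧
      ∃ c, ∀ s : Finset ℕ, (s : Set ℕ) ⊆ H → s.card = r → f s = c := by
  classical
  induction r with
  | zero =>
    intro f A hA
    refine ⟨A, subset_rfl, hA, f ∅, fun s _ hs => ?_⟩
    rw [Finset.card_eq_zero.1 hs]
  | succ r ih =>
    intro f A hA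
    have step : ∀ B : {B : Set ℕ // B.Infinite}, ∃ (a : ℕ) (B' : {B : Set ℕ // B.Infinite}) (c : C),
        a ∈ B.1 ∧ B'.1 ⊆ B.1 ∧ (∀ x ∈ B'.1, a < x) ∧
        ∀ t : Finset ℕ, (t : Set ℕ) ⊆ B'.1 → t.card = r → f (insert a t) = c := by
      rintro ⟨B, hB⟩
      obtain ⟨a, ha⟩ := hB.nonempty
      have hB' : (B ∩ Set.Ioi a).Infinite := by
        have : B ⊆ (B ∩ Set.Ioi a) ∪ Set.Iic a := by
          intro x hx
          rcases le_or_gt x a with h | h
          · exact Or.inr h
          · exact Or.inl ⟨hx, h⟩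
        intro hfin
        exact hB ((hfin.union (Set.finite_Iic a)).subset this)
      obtain ⟨H, hH, hHinf, c, hc⟩ := ih (fun t => f (insert a t)) _ hB'
      exact ⟨a, ⟨H, hHinf⟩, c, ha, hH.trans Set.inter_subset_left, fun x hx => (hH hx).2, hc⟩
    choose a nxt c h1 h2 h3 h4 using step
    let S : ℕ → {B : Set ℕ // B.Infinite} := fun n => Nat.rec ⟨A, hA⟩ (fun _ B => nxt B) n
    have hS : ∀ n, S (n + 1) = nxt (S n) := fun n => rfl
    have hmono : ∀ m n, m ≤ n → (S n).1 ⊆ (S m).1 := by
      intro m n hmn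
      induction hmn with
      | refl => exact subset_rfl
      | step _ ih => exact (h2 _).trans ih
    have ha : ∀ m n, m < n → a (S n) ∈ (S (m + 1)).1 := fun m n hmn =>
      hmono _ _ hmn (h1 _)
    have hlt : ∀ m n, m < n → a (S m) < a (S n) := fun m n hmn =>
      h3 _ _ (ha m n hmn)
    have hsm : StrictMono (fun n => a (S n)) := fun m n h => hlt m n h
    obtain ⟨c0, hc0⟩ := Finite.exists_infinite_fiber (fun n => c (S n))
    refine ⟨(fun n => a (S n)) '' ((fun n => c (S n)) ⁻¹' {c0}), ?_, ?_, c0, ?_⟩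
    · rintro _ ⟨n, _, rfl⟩
      exact hmono 0 n (Nat.zero_le _) (h1 _)
    · exact (Set.infinite_coe_iff.1 hc0).image hsm.injective.injOn
    · intro s hs hcard
      have hne : s.Nonempty := Finset.card_pos.1 (by omega)
      obtain ⟨n, hn, hn'⟩ := hs (Finset.min'_mem s hne)
      have hn : c (S n) = c0 := hn
      simp only at hn'
      have hs' : s = insert (a (S n)) (s.erase (s.min' hne)) := by
        rw [hn', Finset.insert_erase (Finset.min'_mem s hne)]
      rw [hs', h4 (S n) (s.erase (s.min' hne)), hn]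
      · intro x hx
        have hx' : x ∈ s.erase (s.min' hne) := hx
        rw [Finset.mem_erase] at hx'
        obtain ⟨m, hm, rfl⟩ := hs hx'.2
        have : s.min' hne < a (S m) := lt_of_le_of_ne (Finset.min'_le _ _ hx'.2) (Ne.symm hx'.1)
        rw [← hn'] at this
        exact ha n m (hsm.lt_iff_lt.1 this)
      · rw [Finset.card_erase_of_mem (Finset.min'_mem s hne)]; omega

end Pool.Agent.P5bf
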