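import Pool.Agent.P5bf.Helly

/-! Simultaneous form of the finite Goldstine theorem. -/

set_option autoImplicit false

open Filter Topology

namespace Pool.Agent.P5bf

universe u v

variable {X : Type u} [NormedAddCommGroup X] [NormedSpace ℝ X]

/-- finitely many bidual vectors with bounds on their norms and on the norms of their
differences are approximated by vectors of `X` with almost the same bounds -/
theorem simHelly {T : Type v} [Fintype T] [DecidableEq T]
    (w : T → StrongDual ℝ (StrongDual ℝ X)) (R : ℝ) (hR : ∀ i, ‖w i‖ ≤ R) (d : T → T → ℝ)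
    (hd : ∀ i j, ‖w i - w j‖ ≤ d i j) (Φ : Finset (StrongDual ℝ X)) (ε : ℝ) (hε : 0 < ε) :
    ∃ x : T → X, (∀ i, ‖x i‖ ≤ R + ε) ∧ (∀ i j, ‖x i - x j‖ ≤ d i j + ε) ∧
      ∀ i, ∀ φ ∈ Φ, |φ (x i) - w i φ| ≤ ε := by
  classical
  -- the convex set
  let 𝒜 : Set (T × T → X) := {y | ∃ (x : T → X) (z : T × T → X),
    (∀ i, ‖x i‖ ≤ R + ε) ∧ (∀ i, ∀ φ ∈ Φ, |φ (x i) - w i φ| ≤ ε) ∧
    (∀ c, ‖z c‖ ≤ d c.1 c.2 + ε / 2) ∧ y = fun c => (x c.1 - x c.2) - z c}
  have hconv : Convex ℝ 𝒜 := by
    rintro y ⟨x, z, h1, h2, h3, rfl⟩ y' ⟨x', z', h1', h2', h3', rfl⟩ a b ha hb hab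
    refine ⟨fun i => a • x i + b • x' i, fun c => a • z c + b • z' c, ?_, ?_, ?_, ?_⟩
    · intro i
      refine (norm_add_le _ _).trans ?_
      rw [norm_smul, norm_smul, Real.norm_eq_abs, Real.norm_eq_abs, abs_of_nonneg ha,
        abs_of_nonneg hb]
      calc a * ‖x i‖ + b * ‖x' i‖ ≤ a * (R + ε) + b * (R + ε) := by
            gcongr
            · exact h1 i
            · exact h1' i
        _ = R + ε := by rw [← add_mul, hab, one_mul]
    · intro i φ hφ
      have e : φ (a • x i + b • x' i) - w i φ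
          = a * (φ (x i) - w i φ) + b * (φ (x' i) - w i φ) := by
        rw [map_add, map_smul, map_smul, smul_eq_mul, smul_eq_mul]
        have : w i φ = (a + b) * w i φ := by rw [hab, one_mul]
        linear_combination (-1 : ℝ) * this
      rw [e]
      refine (abs_add_le _ _).trans ?_
      rw [abs_mul, abs_mul, abs_of_nonneg ha, abs_of_nonneg hb]
      calc a * |φ (x i) - w i φ| + b * |φ (x' i) - w i φ| ≤ a * ε + b * ε := by
            gcongr
            · exact h2 i φ hφ
            · exact h2' i φ hφ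
        _ = ε := by rw [← add_mul, hab, one_mul]
    · intro c
      refine (norm_add_le _ _).trans ?_
      rw [norm_smul, norm_smul, Real.norm_eq_abs, Real.norm_eq_abs, abs_of_nonneg ha,
        abs_of_nonneg hb]
      calc a * ‖z c‖ + b * ‖z' c‖ ≤ a * (d c.1 c.2 + ε / 2) + b * (d c.1 c.2 + ε / 2) := by
            gcongr
            · exact h3 c
            · exact h3' c
        _ = d c.1 c.2 + ε / 2 := by rw [← add_mul, hab, one_mul]
    · funext c
      simp only [Pi.add_apply, Pi.smul_apply, smul_sub, smul_add]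
      abel
  have hmem : (0 : T × T → X) ∈ closure 𝒜 := by
    by_contra hnot
    obtain ⟨Λ, c, hΛ1, hΛ2⟩ := geometric_hahn_banach_closed_point hconv.closure
      isClosed_closure hnot
    rw [map_zero] at hΛ2
    -- coordinates of Λ
    let lam : T × T → StrongDual ℝ X := fun e =>
      Λ.comp (ContinuousLinearMap.single ℝ (fun _ : T × T => X) e)
    have hlam : ∀ y : T × T → X, Λ y = ∑ e, lam e (y e) := by
      intro y
      have hy : y = ∑ e, (Pi.single e (y e) : T × T → X) := by
        ext e
        simp [Finset.sum_apply, Pi.single_apply]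
      conv_lhs => rw [hy]
      rw [map_sum]
      rfl
    set N : ℝ := ((Fintype.card (T × T) : ℕ) : ℝ) with hN
    have hN0 : 0 ≤ N := Nat.cast_nonneg _
    set η : ℝ := min (ε / 2) (-c / (4 * (N + 1))) with hη
    have hc : 0 < -c := by linarith
    have hηpos : 0 < η := by positivity
    choose x hx1 hx2 using fun i => helly (w i) (Φ ∪ Finset.univ.image lam) η hηpos
    choose z hz1 hz2 using fun e : T × T => helly (w e.1 - w e.2) (Finset.univ.image lam) η hηpos
    have hη1 : η ≤ ε / 2 := min_le_left _ _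
    have hη2 : η ≤ -c / (4 * (N + 1)) := min_le_right _ _
    have hmemA : (fun e : T × T => (x e.1 - x e.2) - z e) ∈ 𝒜 := by
      refine ⟨x, z, fun i => (hx1 i).trans ?_, fun i φ hφ => ?_, fun e => (hz1 e).trans ?_, rfl⟩
      · have := hR i; linarith
      · exact (hx2 i φ (Finset.mem_union_left _ hφ)).trans (by linarith)
      · have := hd e.1 e.2; linarith
    have h1 := hΛ1 _ (subset_closure hmemA)
    rw [hlam] at h1
    have h2 : ∀ e : T × T, |lam e ((x e.1 - x e.2) - z e)| ≤ 3 * η := by
      intro e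
      have hle : lam e ∈ Finset.univ.image lam := Finset.mem_image_of_mem _ (Finset.mem_univ _)
      have a1 := hx2 e.1 (lam e) (Finset.mem_union_right _ hle)
      have a2 := hx2 e.2 (lam e) (Finset.mem_union_right _ hle)
      have a3 := hz2 e (lam e) hle
      have a4 : (w e.1 - w e.2) (lam e) = w e.1 (lam e) - w e.2 (lam e) := rfl
      rw [a4] at a3
      rw [map_sub, map_sub]
      rw [abs_le] at a1 a2 a3 ⊢
      constructor <;> linarith
    have h3 : |∑ e, lam e ((x e.1 - x e.2) - z e)| ≤ N * (3 * η) := by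
      refine (Finset.abs_sum_le_sum_abs _ _).trans ?_
      refine (Finset.sum_le_sum fun e _ => h2 e).trans ?_
      rw [Finset.sum_const, nsmul_eq_mul, Finset.card_univ]
    have h4 := (abs_le.1 h3).1
    have h5 : N * (3 * η) < -c := by
      have : (N + 1) * (4 * η) ≤ -c := by
        rw [le_div_iff₀ (by positivity)] at hη2
        linarith
      nlinarith
    linarith
  obtain ⟨_, ⟨x, z, h1, h2, h3, rfl⟩, hdist⟩ := Metric.mem_closure_iff.1 hmem (ε / 2) (by positivity)
  refine ⟨x, h1, fun i j => ?_, h2⟩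
  have h4 : ‖(x i - x j) - z (i, j)‖ ≤ ε / 2 := by
    rw [dist_comm, dist_zero_right] at hdist
    exact (norm_le_pi_norm (fun e : T × T => (x e.1 - x e.2) - z e) (i, j)).trans hdist.le
  have h5 := h3 (i, j)
  calc ‖x i - x j‖ = ‖((x i - x j) - z (i, j)) + z (i, j)‖ := by rw [sub_add_cancel]
    _ ≤ ‖(x i - x j) - z (i, j)‖ + ‖z (i, j)‖ := norm_add_le _ _
    _ ≤ d i j + ε := by linarith

end Pool.Agent.P5bf
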