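import Pool.Agent.P5bf.Chain
import Pool.Agent.P5bf.Dich

/-! The three-space property of the concentration property. -/

set_option autoImplicit false

namespace Pool.Agent.P5bf

universe u

theorem hamming_comp {K : ℕ} (t : ℕ → ℕ) (x y : Fin K → ℕ) :
    hammingDist (fun p => t (x p)) (fun p => t (y p)) ≤ hammingDist x y := by
  classical
  unfold hammingDist
  refine Finset.card_le_card fun p hp => ?_
  rw [Finset.mem_filter] at hp ⊢
  refine ⟨hp.1, fun h => hp.2 ?_⟩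
  simp only
  rw [h]

theorem hamming_le {K : ℕ} (x y : Fin K → ℕ) : (hammingDist x y : ℝ) ≤ K := by
  have := hammingDist_le_card_fintype (x := x) (y := y)
  simp only [Fintype.card_fin] at this
  exact_mod_cast this

theorem Lip1.comp {X : Type u} [NormedAddCommGroup X] {K : ℕ} {f : (Fin K → ℕ) → X}
    (hf : Lip1 f) {t : ℕ → ℕ} (ht : StrictMono t) : Lip1 (fun x => f (fun p => t (x p))) := by
  intro x y hx hy
  refine (hf _ _ (fun a b h => ht (hx h)) (fun a b h => ht (hy h))).trans ?_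
  exact_mod_cast hamming_comp t x y

theorem Inter.comp {K : ℕ} {x y : Fin K → ℕ} (h : Inter x y) {t : ℕ → ℕ} (ht : StrictMono t) :
    Inter (fun p => t (x p)) (fun p => t (y p)) :=
  ⟨fun a b hab => ht (h.1 hab), fun a b hab => ht (h.2.1 hab), fun i => ht (h.2.2.1 i),
    fun i j hij => ht (h.2.2.2 i j hij)⟩

/-- interleave two tuples -/
def ilv {K : ℕ} (x y : Fin K → ℕ) (i : Fin (2 * K)) : ℕ :=
  if (i : ℕ) % 2 = 0 then x ⟨i / 2, by omega⟩ else y ⟨i / 2, by omega⟩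

theorem ilv_sm {K : ℕ} {x y : Fin K → ℕ} (h : Inter x y) : StrictMono (ilv x y) := by
  intro i j hij
  rw [Fin.lt_def] at hij
  unfold ilv
  have h1 := h.1
  have h2 := h.2.1
  rcases Nat.lt_or_ge ((i : ℕ) / 2) ((j : ℕ) / 2) with h3 | h3
  · have hlt : (⟨(i : ℕ) / 2, by omega⟩ : Fin K) < ⟨(j : ℕ) / 2, by omega⟩ := by
      rw [Fin.lt_def]; exact h3
    have e1 := h1 hlt
    have e2 := h2 hlt
    have e3 := h.2.2.1 ⟨(i : ℕ) / 2, by omega⟩
    have e4 := h.2.2.1 ⟨(j : ℕ) / 2, by omega⟩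
    have e5 := h.2.2.2 _ _ hlt
    split_ifs <;> omega
  · have h4 : (⟨(i : ℕ) / 2, by omega⟩ : Fin K) = ⟨(j : ℕ) / 2, by omega⟩ := by
      rw [Fin.mk.injEq]; omega
    rw [← h4]
    have e3 := h.2.2.1 ⟨(i : ℕ) / 2, by omega⟩
    rw [if_pos (by omega), if_neg (by omega)]
    exact e3

theorem ilv_dbl {K : ℕ} (x y : Fin K → ℕ) (p : Fin K) : ilv x y (dbl p) = x p := by
  unfold ilv dbl
  have h1 : (⟨(2 * (p : ℕ)) / 2, by omega⟩ : Fin K) = p := by
    rw [Fin.ext_iff]; simp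
  simp only [h1]
  rw [if_pos (by omega)]

theorem ilv_dblA {K : ℕ} (x y : Fin K → ℕ) (p : Fin K) :
    ilv x y (dblA Finset.univ p) = y p := by
  unfold ilv dblA
  have h1 : (⟨(2 * (p : ℕ) + if p ∈ (Finset.univ : Finset (Fin K)) then 1 else 0) / 2,
      by split_ifs <;> omega⟩ : Fin K) = p := by
    rw [Fin.ext_iff]
    simp only [Finset.mem_univ, if_true]
    omega
  simp only [h1]
  simp only [Finset.mem_univ, if_true]
  rw [if_neg (by omega)]

theorem conc_all {Z : Type u} [NormedAddCommGroup Z] [NormedSpace ℝ Z] (hZ : Conc Z) (δ : ℝ)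
    (hδ : 0 < δ) : ∃ K0 : ℕ, ∀ K : ℕ, K0 ≤ K → 0 < K → ∀ G : (Fin K → ℕ) → Z, Lip1 G →
      ∃ t : ℕ → ℕ, StrictMono t ∧ ∀ x y : Fin K → ℕ, Inter x y →
        ‖G (fun p => t (x p)) - G (fun p => t (y p))‖ ≤ δ * K := by
  obtain ⟨K0, hK0⟩ := hZ (δ / 2) (by positivity)
  refine ⟨K0, fun K hK hKpos G hG => ?_⟩
  have hKr : (0 : ℝ) < K := by exact_mod_cast hKpos
  obtain ⟨t, ht⟩ := exists_homog G hG (δ / 2 * K) (by positivity)
  obtain ⟨x, y, h1, h2, h3, h4, h5⟩ := hK0 K hK (fun x => G (fun p => t (x p))) (hG.comp ht.1)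
  refine ⟨t, ht.1, fun x' y' hxy => ?_⟩
  have h6 := ht.2 (ilv x' y') (ilv x y) (ilv_sm hxy) (ilv_sm ⟨h1, h2, h3, h4⟩) dbl
    (dblA Finset.univ) dbl_sm (dblA_sm _)
  simp only [ilv_dbl, ilv_dblA] at h6
  linarith

theorem fail_all {X : Type u} [NormedAddCommGroup X] [NormedSpace ℝ X] (h : ¬ Conc X) :
    ∃ ε : ℝ, 0 < ε ∧ ∀ K : ℕ, Even K → ∃ f : (Fin K → ℕ) → X, Lip1 f ∧
      ∀ x y : Fin K → ℕ, Inter x y → ε * K ≤ ‖f x - f y‖ := by
  classical
  unfold Conc at h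
  push Not at h
  obtain ⟨ε, hε, h⟩ := h
  have h' := maps_of_fail (X := X) ε hε (fun K0 => by
    obtain ⟨K, hK, f, hf, hi⟩ := h K0
    exact ⟨K, hK, f, hf, fun x y hx hy hxy hyx => hi x y hx hy hxy hyx⟩)
  refine ⟨(288 / ε ^ 2)⁻¹, by positivity, fun K hK => ?_⟩
  obtain ⟨κ, hκ⟩ := hK
  have hK2 : K = 2 * κ := by omega
  subst hK2
  obtain ⟨g, hg⟩ := h' κ
  have hL : (0 : ℝ) < 288 / ε ^ 2 := by positivity
  refine ⟨fun x => (288 / ε ^ 2 : ℝ)⁻¹ • g x, ?_, ?_⟩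
  · intro x y hx hy
    rw [← smul_sub, norm_smul, norm_inv, Real.norm_eq_abs, abs_of_pos hL, inv_mul_le_iff₀ hL]
    exact (hg x y hx hy).2
  · intro x y hxy
    rw [← smul_sub, norm_smul, norm_inv, Real.norm_eq_abs, abs_of_pos hL]
    refine mul_le_mul_of_nonneg_left ?_ (by positivity)
    refine le_trans ?_ (hg x y hxy.1 hxy.2.1).1
    have : (Finset.univ.filter (fun i : Fin (2 * κ) => i.val < κ ∧ x i ≠ y i)).card = κ := by
      have e : Finset.univ.filter (fun i : Fin (2 * κ) => i.val < κ ∧ x i ≠ y i) =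
          Finset.univ.filter (fun i : Fin (2 * κ) => i.val < κ) := by
        ext i
        simp only [Finset.mem_filter, Finset.mem_univ, true_and, and_iff_left_iff_imp]
        exact fun _ => (hxy.2.2.1 i).ne
      rw [e]
      have h2 : (Finset.univ.filter (fun i : Fin (2 * κ) => i.val < κ)).card =
          (Finset.range κ).card := by
        refine Finset.card_bij (fun i _ => (i : ℕ)) ?_ ?_ ?_
        · intro i hi
          rw [Finset.mem_filter] at hi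
          exact Finset.mem_range.2 hi.2
        · intro i _ j _ hij
          exact Fin.ext hij
        · intro j hj
          rw [Finset.mem_range] at hj
          exact ⟨⟨j, by omega⟩, Finset.mem_filter.2 ⟨Finset.mem_univ _, hj⟩, rfl⟩
      rw [h2, Finset.card_range]
    rw [this]
    push_cast
    exact le_rfl

theorem three_space {X Y Z : Type u} [NormedAddCommGroup X] [NormedSpace ℝ X]
    [NormedAddCommGroup Y] [NormedSpace ℝ Y] [NormedAddCommGroup Z] [NormedSpace ℝ Z]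
    (J : Y →L[ℝ] X) (Q : X →L[ℝ] Z) (c C : ℝ) (hc : 0 < c) (hC : 0 ≤ C)
    (hJ : ∀ y, c * ‖y‖ ≤ ‖J y‖) (hQ : ∀ x, ∃ y, ‖x - J y‖ ≤ C * ‖Q x‖)
    (hY : Conc Y) (hZ : Conc Z) : Conc X := by
  classical
  by_contra hX
  obtain ⟨ε, hε, hF⟩ := fail_all hX
  set nJ : ℝ := ‖J‖ + 1 with hnJ
  have hnJ0 : 0 < nJ := by positivity
  set κ : ℝ := ‖Q‖ + 1 with hκ
  have hκ0 : 0 < κ := by positivity
  set r : ℕ := ⌊2 / ε⌋₊ + 1 with hr
  have hr1 : 2 / ε < r := by
    rw [hr]; push_cast; exact Nat.lt_floor_add_one _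
  have hr2 : 2 < r * ε := by rwa [div_lt_iff₀ hε] at hr1
  set εY : ℝ := c * ε / (16 * nJ) with hεY
  have hεY0 : 0 < εY := by positivity
  obtain ⟨kY, hkY⟩ := hY εY hεY0
  set k : ℕ := 2 * (kY + 1) with hk
  have hk1 : 0 < k := by omega
  have hkr : (0 : ℝ) < k := by exact_mod_cast hk1
  set σ : ℝ := min (1 / (k : ℝ)) (ε / 16) with hσ
  have hσ0 : 0 < σ := by positivity
  have hσk : σ * k ≤ 1 := by
    have : σ ≤ 1 / (k : ℝ) := min_le_left _ _
    rwa [le_div_iff₀ hkr] at this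
  have hσε : σ ≤ ε / 16 := min_le_right _ _
  set δ : ℝ := σ / ((C + 1) * κ) with hδ
  have hδ0 : 0 < δ := by positivity
  obtain ⟨KZ, hKZ⟩ := conc_all hZ δ hδ0
  set m : ℕ := KZ + 1 with hm
  have hm0 : 0 < m := by omega
  have hmr : (0 : ℝ) < m := by exact_mod_cast hm0
  have hKpos : 0 < k * m := Nat.mul_pos hk1 hm0
  have hKle : KZ ≤ k * m := by nlinarith
  have hKr : (0 : ℝ) < ((k * m : ℕ) : ℝ) := by exact_mod_cast hKpos
  have hKeq : ((k * m : ℕ) : ℝ) = k * m := by push_cast; ring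
  have hEven : Even (k * m) := by
    refine Even.mul_right ?_ m
    exact ⟨kY + 1, by omega⟩
  obtain ⟨f, hf, hfi⟩ := hF (k * m) hEven
  -- the map to `Z`
  have hG : Lip1 (fun x => (κ⁻¹ : ℝ) • Q (f x)) := by
    intro x y hx hy
    rw [← smul_sub, ← map_sub, norm_smul, norm_inv, Real.norm_eq_abs, abs_of_pos hκ0,
      inv_mul_le_iff₀ hκ0]
    refine (Q.le_opNorm _).trans ?_
    have h1 := hf x y hx hy
    have h2 : ‖Q‖ ≤ κ := by rw [hκ]; linarith
    exact mul_le_mul h2 h1 (norm_nonneg _) hκ0.le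
  obtain ⟨t1, ht1, hG1⟩ := hKZ (k * m) hKle hKpos _ hG
  have hF1 : Lip1 (fun x => f (fun p => t1 (x p))) := hf.comp ht1
  obtain ⟨t2, ht2⟩ := exists_homog4 _ hF1 (ε / 8 * ((k * m : ℕ) : ℝ)) (by positivity)
  let F : (Fin (k * m) → ℕ) → X := fun x => f (fun p => t1 (t2 (x p)))
  have hFL : Lip1 F := hF1.comp ht2.1
  have hFi : ∀ x y, Inter x y → ε * ((k * m : ℕ) : ℝ) ≤ ‖F x - F y‖ := fun x y h =>
    hfi _ _ ((h.comp ht2.1).comp ht1)
  have hFQ : ∀ x y, Inter x y → C * ‖Q (F x - F y)‖ ≤ σ * ((k * m : ℕ) : ℝ) := by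
    intro x y h
    have h1 := hG1 _ _ (h.comp ht2.1)
    rw [← smul_sub, ← map_sub, norm_smul, norm_inv, Real.norm_eq_abs, abs_of_pos hκ0,
      inv_mul_le_iff₀ hκ0] at h1
    have h2 : C * ‖Q (F x - F y)‖ ≤ C * (κ * (δ * ((k * m : ℕ) : ℝ))) :=
      mul_le_mul_of_nonneg_left h1 hC
    refine h2.trans ?_
    have h3 : C * (κ * (δ * ((k * m : ℕ) : ℝ))) = C / (C + 1) * (σ * ((k * m : ℕ) : ℝ)) := by
      rw [hδ]; field_simp
    rw [h3]
    have h4 : C / (C + 1) ≤ 1 := by rw [div_le_one (by positivity)]; linarith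
    have h5 : 0 ≤ σ * ((k * m : ℕ) : ℝ) := by positivity
    nlinarith
  choose lam hlam using hQ
  let P : (Fin k → ℕ) → X := fun n => F (bt hm0 n 0) - F (bt hm0 n 1)
  let h' : (Fin k → ℕ) → Y := fun n => lam (P n)
  have hh' : ∀ n, StrictMono n → ‖P n - J (h' n)‖ ≤ σ * ((k * m : ℕ) : ℝ) := fun n hn =>
    (hlam (P n)).trans (hFQ _ _ (bt_inter hm0 n hn))
  have hPP : ∀ n n', StrictMono n → StrictMono n' →
      ‖P n - P n'‖ ≤ 2 * (m * (hammingDist n n' : ℝ)) := by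
    intro n n' hn hn'
    have h1 := hFL _ _ (bt_sm hm0 n hn 0) (bt_sm hm0 n' hn' 0)
    have h2 := hFL _ _ (bt_sm hm0 n hn 1) (bt_sm hm0 n' hn' 1)
    have h3 : (hammingDist (bt hm0 n 0) (bt hm0 n' 0) : ℝ) ≤ m * (hammingDist n n' : ℝ) := by
      exact_mod_cast bt_hamming hm0 n n' 0
    have h4 : (hammingDist (bt hm0 n 1) (bt hm0 n' 1) : ℝ) ≤ m * (hammingDist n n' : ℝ) := by
      exact_mod_cast bt_hamming hm0 n n' 1
    have h5 : P n - P n' = (F (bt hm0 n 0) - F (bt hm0 n' 0)) -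
        (F (bt hm0 n 1) - F (bt hm0 n' 1)) := by simp only [P]; abel
    rw [h5]
    refine (norm_sub_le _ _).trans ?_
    linarith
  have hJh : ∀ n n', StrictMono n → StrictMono n' →
      ‖J (h' n - h' n')‖ ≤ ‖P n - P n'‖ + 2 * (σ * ((k * m : ℕ) : ℝ)) := by
    intro n n' hn hn'
    have h1 : J (h' n - h' n') = (P n - P n') - (P n - J (h' n)) + (P n' - J (h' n')) := by
      rw [map_sub]; abel
    rw [h1]
    refine (norm_add_le _ _).trans ?_
    have h2 := norm_sub_le (P n - P n') (P n - J (h' n))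
    have h3 := hh' n hn
    have h4 := hh' n' hn'
    linarith
  have hPh : ∀ n n', StrictMono n → StrictMono n' →
      ‖P n - P n'‖ ≤ ‖J (h' n - h' n')‖ + 2 * (σ * ((k * m : ℕ) : ℝ)) := by
    intro n n' hn hn'
    have h1 : P n - P n' = J (h' n - h' n') + (P n - J (h' n)) - (P n' - J (h' n')) := by
      rw [map_sub]; abel
    rw [h1]
    refine (norm_sub_le _ _).trans ?_
    have h2 := norm_add_le (J (h' n - h' n')) (P n - J (h' n))
    have h3 := hh' n hn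
    have h4 := hh' n' hn'
    linarith
  have hH : Lip1 (fun n => (c / (4 * m) : ℝ) • h' n) := by
    intro n n' hn hn'
    by_cases hnn : n = n'
    · subst hnn; simp
    have hd : (1 : ℝ) ≤ hammingDist n n' := by
      exact_mod_cast Nat.one_le_iff_ne_zero.2 (fun h => hnn (hammingDist_eq_zero.1 h))
    rw [← smul_sub, norm_smul, Real.norm_eq_abs, abs_of_pos (by positivity)]
    have h1 := hJ (h' n - h' n')
    have h2 := hJh n n' hn hn'
    have h3 := hPP n n' hn hn'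
    have h4 : σ * ((k * m : ℕ) : ℝ) ≤ m := by
      rw [hKeq]; nlinarith
    have h5 : c * ‖h' n - h' n'‖ ≤ 4 * m * (hammingDist n n' : ℝ) := by nlinarith
    have h6 : c / (4 * m) * ‖h' n - h' n'‖ = (c * ‖h' n - h' n'‖) / (4 * m) := by ring
    rw [h6, div_le_iff₀ (by positivity)]
    linarith
  obtain ⟨n, n', hn, hn', hnn, hnn', hle⟩ := hkY k (by omega) _ hH
  have hsmall : ‖P n - P n'‖ ≤ 3 * ε / 8 * ((k * m : ℕ) : ℝ) := by
    have h1 := hPh n n' hn hn'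
    have h2 : ‖J (h' n - h' n')‖ ≤ nJ * ‖h' n - h' n'‖ := by
      refine (J.le_opNorm _).trans ?_
      exact mul_le_mul_of_nonneg_right (by rw [hnJ]; linarith) (norm_nonneg _)
    rw [← smul_sub, norm_smul, Real.norm_eq_abs, abs_of_pos (by positivity)] at hle
    have h6 : c / (4 * m) * ‖h' n - h' n'‖ = (c * ‖h' n - h' n'‖) / (4 * m) := by ring
    rw [h6, div_le_iff₀ (by positivity)] at hle
    have h7 : nJ * (c * ‖h' n - h' n'‖) ≤ nJ * (εY * k * (4 * m)) :=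
      mul_le_mul_of_nonneg_left hle hnJ0.le
    have h8 : nJ * (εY * k * (4 * m)) = c * (ε / 4 * ((k * m : ℕ) : ℝ)) := by
      rw [hεY, hKeq]; field_simp; norm_num
    rw [h8] at h7
    have h9 : c * (nJ * ‖h' n - h' n'‖) ≤ c * (ε / 4 * ((k * m : ℕ) : ℝ)) := by linarith
    have h10 := le_of_mul_le_mul_left h9 hc
    have h11 : σ * ((k * m : ℕ) : ℝ) ≤ ε / 16 * ((k * m : ℕ) : ℝ) :=
      mul_le_mul_of_nonneg_right hσε hKr.le
    linarith
  -- transfer by homogeneity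
  have hstep : ∀ i, i < r → ‖(F (xt hm0 (r + 1) i) - F (xt hm0 (r + 1) (i + 1))) -
      (F (yt hm0 (r + 1) 0) - F (yt hm0 (r + 1) 1))‖ ≤ ε / 2 * ((k * m : ℕ) : ℝ) := by
    intro i hi
    have h1 := ht2.2 (Uc hm0 (psi2 m (r + 1) i)) (Uc hm0 (psi1 m n n'))
      (psi2_sm hm0 (r + 1) i (by omega)) (psi1_sm hm0 n n' hnn hnn')
      (qd hm0 0 (by omega)) (qd hm0 1 (by omega)) (qd hm0 (2 * m + 0) (by omega))
      (qd hm0 (2 * m + 1) (by omega)) (qd_sm _ _ _) (qd_sm _ _ _) (qd_sm _ _ _) (qd_sm _ _ _)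
    simp only [psi2_qd0, psi2_qd1, psi2_qd2 hm0 (r + 1) i 0 (by omega),
      psi2_qd2 hm0 (r + 1) i 1 (by omega), psi1_qd0 hm0 n n' 0 (by omega),
      psi1_qd0 hm0 n n' 1 (by omega), psi1_qd1 hm0 n n' 0 (by omega),
      psi1_qd1 hm0 n n' 1 (by omega)] at h1
    have h2 : ‖P n - P n'‖ = ‖dd (fun x => f (fun p => t1 (x p))) (fun p => t2 (bt hm0 n 0 p))
        (fun p => t2 (bt hm0 n 1 p)) (fun p => t2 (bt hm0 n' 0 p))
        (fun p => t2 (bt hm0 n' 1 p))‖ := rfl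
    rw [← h2] at h1
    have h3 : dd (fun x => f (fun p => t1 (x p))) (fun p => t2 (xt hm0 (r + 1) i p))
        (fun p => t2 (xt hm0 (r + 1) (i + 1) p)) (fun p => t2 (yt hm0 (r + 1) 0 p))
        (fun p => t2 (yt hm0 (r + 1) 1 p)) = (F (xt hm0 (r + 1) i) - F (xt hm0 (r + 1) (i + 1))) -
      (F (yt hm0 (r + 1) 0) - F (yt hm0 (r + 1) 1)) := rfl
    rw [h3] at h1
    linarith
  have hsum : ∀ j, j ≤ r → ‖(F (xt hm0 (r + 1) 0) - F (xt hm0 (r + 1) j)) -
      (j : ℝ) • (F (yt hm0 (r + 1) 0) - F (yt hm0 (r + 1) 1))‖ ≤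
        j * (ε / 2 * ((k * m : ℕ) : ℝ)) := by
    intro j
    induction j with
    | zero => intro _; simp
    | succ j ih =>
      intro hj
      have h1 := ih (by omega)
      have h2 := hstep j (by omega)
      have h3 : (F (xt hm0 (r + 1) 0) - F (xt hm0 (r + 1) (j + 1))) -
          ((j + 1 : ℕ) : ℝ) • (F (yt hm0 (r + 1) 0) - F (yt hm0 (r + 1) 1)) =
          ((F (xt hm0 (r + 1) 0) - F (xt hm0 (r + 1) j)) -
            (j : ℝ) • (F (yt hm0 (r + 1) 0) - F (yt hm0 (r + 1) 1))) +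
          ((F (xt hm0 (r + 1) j) - F (xt hm0 (r + 1) (j + 1))) -
            (F (yt hm0 (r + 1) 0) - F (yt hm0 (r + 1) 1))) := by
        push_cast
        rw [add_smul, one_smul]
        abel
      rw [h3]
      refine (norm_add_le _ _).trans ?_
      rw [Nat.cast_succ, add_mul, one_mul]
      exact add_le_add h1 h2
  have h1 := hsum r le_rfl
  have h2 := hFi _ _ (yt_inter (k := k) hm0 (r + 1))
  have h3 := (hFL _ _ (xt_sm (k := k) hm0 (r + 1) 0 (by omega))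
    (xt_sm (k := k) hm0 (r + 1) r (by omega))).trans (hamming_le _ _)
  have h4 : ‖(r : ℝ) • (F (yt hm0 (r + 1) 0) - F (yt hm0 (r + 1) 1))‖ ≤
      ‖F (xt hm0 (r + 1) 0) - F (xt hm0 (r + 1) r)‖ +
      ‖(F (xt hm0 (r + 1) 0) - F (xt hm0 (r + 1) r)) -
        (r : ℝ) • (F (yt hm0 (r + 1) 0) - F (yt hm0 (r + 1) 1))‖ := by
    have := norm_sub_le (F (xt hm0 (r + 1) 0) - F (xt hm0 (r + 1) r))
      ((F (xt hm0 (r + 1) 0) - F (xt hm0 (r + 1) r)) -
        (r : ℝ) • (F (yt hm0 (r + 1) 0) - F (yt hm0 (r + 1) 1)))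
    rwa [sub_sub_cancel] at this
  rw [norm_smul, Real.norm_natCast] at h4
  have h5 : (r : ℝ) * (ε * ((k * m : ℕ) : ℝ)) ≤
      r * ‖F (yt hm0 (r + 1) 0) - F (yt hm0 (r + 1) 1)‖ :=
    mul_le_mul_of_nonneg_left h2 (Nat.cast_nonneg _)
  have h6 : (r : ℝ) * (ε * ((k * m : ℕ) : ℝ)) ≤
      ((k * m : ℕ) : ℝ) + r * (ε / 2 * ((k * m : ℕ) : ℝ)) := by linarith
  have h7 : (r : ℝ) * ε / 2 * ((k * m : ℕ) : ℝ) ≤ 1 * ((k * m : ℕ) : ℝ) := by linarith
  have h8 := le_of_mul_le_mul_right h7 hKr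
  linarith

end Pool.Agent.P5bf
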