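import Pool.Agent.P5bf.Three
import Pool.Agent.P5bf.Coarse

/-! The three-space property for closed subspaces. -/

set_option autoImplicit false

open Filter Topology

namespace Pool.Agent.P5bf

universe u

theorem conc_three_sub (X : Type u) [NormedAddCommGroup X] [NormedSpace ℝ X]
    (Y : Submodule ℝ X) [hY : IsClosed (Y : Set X)] (h1 : Conc Y) (h2 : Conc (X ⧸ Y)) :
    Conc X := by
  refine three_space (Y.subtypeL) (Y.mkQL) 1 2 one_pos (by norm_num)
    (fun y => by simp) (fun x => ?_) h1 h2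
  by_cases h0 : (Y.mkQ x : X ⧸ Y) = 0
  · have hx : x ∈ Y := (Submodule.Quotient.mk_eq_zero Y).1 h0
    refine ⟨⟨x, hx⟩, ?_⟩
    have : x - Y.subtypeL ⟨x, hx⟩ = 0 := by simp
    rw [this, norm_zero]
    positivity
  · have hpos : 0 < ‖(Y.mkQ x : X ⧸ Y)‖ := norm_pos_iff.2 h0
    obtain ⟨z, hz1, hz2⟩ := QuotientAddGroup.exists_norm_mk_lt (Y.mkQ x : X ⧸ Y) hpos
    have hz3 : x - z ∈ Y := by
      have h3 : (Y.mkQ z : X ⧸ Y) = Y.mkQ x := hz1
      have h4 : (Y.mkQ (x - z) : X ⧸ Y) = 0 := by rw [map_sub, h3, sub_self]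
      exact (Submodule.Quotient.mk_eq_zero Y).1 h4
    refine ⟨⟨x - z, hz3⟩, ?_⟩
    have h5 : x - Y.subtypeL ⟨x - z, hz3⟩ = z := by simp
    rw [h5, two_mul]
    exact hz2.le

/-- the concentration property passes to closed subspaces -/
theorem conc_sub (X : Type u) [NormedAddCommGroup X] [NormedSpace ℝ X]
    (Y : Submodule ℝ X) (h : Conc X) : Conc Y := by
  intro ε hε
  obtain ⟨K0, hK0⟩ := h ε hε
  refine ⟨K0, fun K hK f hf => ?_⟩
  obtain ⟨x, y, hx, hy, hxy, hyx, hle⟩ := hK0 K hK (fun x => (f x : X)) (fun x y hx hy => by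
    have := hf x y hx hy
    rwa [← Submodule.norm_coe, Submodule.coe_sub] at this)
  refine ⟨x, y, hx, hy, hxy, hyx, ?_⟩
  rw [← Submodule.norm_coe, Submodule.coe_sub]
  exact hle

end Pool.Agent.P5bf
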