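import Mathlib

/-! Spaces of nontrivial type do not contain the Hamming cubes uniformly. -/

set_option autoImplicit false

open Finset

namespace Pool.Agent.P5bf

universe u

/-- `X` has Rademacher type `p` for some `p > 1`. -/
def NontrivialType (X : Type u) [NormedAddCommGroup X] [NormedSpace ℝ X] : Prop :=
  ∃ p : ℝ, 1 < p ∧ ∃ T : ℝ, ∀ (n : ℕ) (x : Fin n → X),
    (2 ^ n : ℝ)⁻¹ * ∑ s : Fin n → Bool, ‖∑ i, (if s i then (1 : ℝ) else -1) • x i‖
      ≤ T * (∑ i, ‖x i‖ ^ p) ^ (1 / p)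

variable {X : Type u} [NormedAddCommGroup X] [NormedSpace ℝ X] {n : ℕ}

/-- probability of the bit `b` if `true` has probability `t` -/
def pb (t : ℝ) (b : Bool) : ℝ := if b then t else 1 - t

/-- product weights -/
def wt (t : ℝ) (e : Fin n → Bool) : ℝ := ∏ i, pb t (e i)

/-- the mean zero function of a bit -/
noncomputable def psi (t : ℝ) (b : Bool) : ℝ := if b then -(1 / (2 * t)) else 1 / (2 * (1 - t))

/-- pointwise exclusive or -/
def xr (a e : Fin n → Bool) : Fin n → Bool := fun i => xor (a i) (e i)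

/-- flip one bit -/
def flp (i : Fin n) (a : Fin n → Bool) : Fin n → Bool := Function.update a i (!(a i))

/-- difference in direction `i` -/
def Dd (h : (Fin n → Bool) → X) (i : Fin n) (a : Fin n → Bool) : X := h (flp i a) - h a

theorem pb_nonneg {t : ℝ} (h0 : 0 ≤ t) (h1 : t ≤ 1) (b : Bool) : 0 ≤ pb t b := by
  unfold pb
  split_ifs <;> linarith

theorem wt_nonneg {t : ℝ} (h0 : 0 ≤ t) (h1 : t ≤ 1) (e : Fin n → Bool) : 0 ≤ wt t e := by
  unfold wt
  exact Finset.prod_nonneg fun i _ => pb_nonneg h0 h1 _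

theorem sum_wt_mul (t : ℝ) (c : Fin n → Bool → ℝ) :
    ∑ e : Fin n → Bool, ∏ i, (pb t (e i) * c i (e i)) =
      ∏ i, (t * c i true + (1 - t) * c i false) := by
  have h := (Finset.prod_univ_sum (fun _ : Fin n => (Finset.univ : Finset Bool))
    (fun i b => pb t b * c i b)).symm
  rw [Fintype.piFinset_univ] at h
  rw [h]
  refine Finset.prod_congr rfl fun i _ => ?_
  rw [Fintype.sum_bool]
  simp [pb]

theorem sum_wt (t : ℝ) : ∑ e : Fin n → Bool, wt t e = 1 := by
  have h := sum_wt_mul (n := n) t (fun _ _ => 1)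
  simp only [mul_one] at h
  unfold wt
  rw [h]
  refine Finset.prod_eq_one fun i _ => ?_
  ring

/-- expectation of a function of one bit -/
theorem sum_wt_one (t : ℝ) (c : Bool → ℝ) (i : Fin n) :
    ∑ e : Fin n → Bool, wt t e * c (e i) = t * c true + (1 - t) * c false := by
  have h := sum_wt_mul (n := n) t (fun j b => if j = i then c b else 1)
  have h2 : ∀ e : Fin n → Bool,
      ∏ j, (pb t (e j) * (if j = i then c (e j) else 1)) = wt t e * c (e i) := by
    intro e
    rw [Finset.prod_mul_distrib]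
    unfold wt
    congr 1
    rw [Finset.prod_ite_eq']
    simp
  rw [← Finset.sum_congr rfl (fun e _ => h2 e), h]
  rw [Finset.prod_eq_single i]
  · simp
  · intro j _ hj
    simp [hj]
  · intro hi
    exact absurd (Finset.mem_univ i) hi

/-- the flip is a bijection that changes the weight of one bit -/
theorem flp_flp (i : Fin n) (a : Fin n → Bool) : flp i (flp i a) = a := by
  unfold flp
  rw [Function.update_idem, Function.update_self, Bool.not_not, Function.update_eq_self]

theorem sum_flp {M : Type*} [AddCommMonoid M] (i : Fin n) (F : (Fin n → Bool) → M) :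
    ∑ e, F (flp i e) = ∑ e, F e :=
  Fintype.sum_bijective (flp i) (Function.Involutive.bijective (flp_flp i)) _ _ (fun _ => rfl)

theorem xr_xr (a e : Fin n → Bool) : xr (xr a e) e = a := by
  funext i
  unfold xr
  cases a i <;> cases e i <;> rfl

theorem xr_comm (a e : Fin n → Bool) : xr a e = xr e a := by
  funext i
  unfold xr
  cases a i <;> cases e i <;> rfl

theorem sum_xr {M : Type*} [AddCommMonoid M] (e : Fin n → Bool) (F : (Fin n → Bool) → M) :
    ∑ a, F (xr a e) = ∑ a, F a :=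
  Fintype.sum_bijective (fun a => xr a e)
    (Function.Involutive.bijective (fun a => xr_xr a e)) _ _ (fun _ => rfl)

theorem xr_flp (a e : Fin n → Bool) (i : Fin n) : xr a (flp i e) = flp i (xr a e) := by
  funext j
  unfold xr flp
  by_cases hj : j = i
  · subst hj
    simp
  · simp [Function.update_of_ne hj]

/-- swap two bit strings where `s` is false -/
def sw (s : Fin n → Bool) (q : (Fin n → Bool) × (Fin n → Bool)) :
    (Fin n → Bool) × (Fin n → Bool) :=
  (fun i => if s i then q.1 i else q.2 i, fun i => if s i then q.2 i else q.1 i)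

theorem sw_sw (s : Fin n → Bool) (q : (Fin n → Bool) × (Fin n → Bool)) : sw s (sw s q) = q := by
  unfold sw
  ext i <;> by_cases h : s i <;> simp [h]

theorem wt_sw (t : ℝ) (s : Fin n → Bool) (q : (Fin n → Bool) × (Fin n → Bool)) :
    wt t (sw s q).1 * wt t (sw s q).2 = wt t q.1 * wt t q.2 := by
  unfold wt sw
  rw [← Finset.prod_mul_distrib, ← Finset.prod_mul_distrib]
  refine Finset.prod_congr rfl fun i _ => ?_
  by_cases h : s i
  · simp [h]
  · simp [h, mul_comm]

/-- Jensen with an independent copy -/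
theorem sym_bound {t : ℝ} (h0 : 0 ≤ t) (h1 : t ≤ 1) (c : Bool → ℝ)
    (hc : t * c true + (1 - t) * c false = 0) (y : Fin n → X) :
    ∑ d : Fin n → Bool, wt t d * ‖∑ i, c (d i) • y i‖ ≤
      ∑ q : (Fin n → Bool) × (Fin n → Bool),
        wt t q.1 * wt t q.2 * ‖∑ i, (c (q.1 i) - c (q.2 i)) • y i‖ := by
  rw [Fintype.sum_prod_type]
  refine Finset.sum_le_sum fun d _ => ?_
  have key : ∑ i, c (d i) • y i =
      ∑ d' : Fin n → Bool, wt t d' • ∑ i, (c (d i) - c (d' i)) • y i := by
    have e1 : ∀ d' : Fin n → Bool, wt t d' • ∑ i, (c (d i) - c (d' i)) • y i =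
        wt t d' • (∑ i, c (d i) • y i) - ∑ i, (wt t d' * c (d' i)) • y i := by
      intro d'
      have : ∑ i, (c (d i) - c (d' i)) • y i = ∑ i, c (d i) • y i - ∑ i, c (d' i) • y i := by
        rw [← Finset.sum_sub_distrib]
        exact Finset.sum_congr rfl fun i _ => sub_smul _ _ _
      rw [this, smul_sub]
      congr 1
      rw [Finset.smul_sum]
      exact Finset.sum_congr rfl fun i _ => by rw [smul_smul]
    rw [Finset.sum_congr rfl (fun d' _ => e1 d'), Finset.sum_sub_distrib, ← Finset.sum_smul,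
      sum_wt, one_smul, Finset.sum_comm]
    have e2 : ∀ i : Fin n, ∑ d' : Fin n → Bool, (wt t d' * c (d' i)) • y i = 0 := by
      intro i
      rw [← Finset.sum_smul, sum_wt_one, hc, zero_smul]
    rw [Finset.sum_congr rfl (fun i _ => e2 i), Finset.sum_const_zero, sub_zero]
  have hle : ‖∑ i, c (d i) • y i‖ ≤
      ∑ d' : Fin n → Bool, wt t d' * ‖∑ i, (c (d i) - c (d' i)) • y i‖ := by
    rw [key]
    refine (norm_sum_le _ _).trans (le_of_eq ?_)
    refine Finset.sum_congr rfl fun d' _ => ?_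
    rw [norm_smul, Real.norm_of_nonneg (wt_nonneg h0 h1 d')]
  calc wt t d * ‖∑ i, c (d i) • y i‖
      ≤ wt t d * ∑ d' : Fin n → Bool, wt t d' * ‖∑ i, (c (d i) - c (d' i)) • y i‖ :=
        mul_le_mul_of_nonneg_left hle (wt_nonneg h0 h1 d)
    _ = ∑ d' : Fin n → Bool, wt t d * wt t d' * ‖∑ i, (c (d i) - c (d' i)) • y i‖ := by
        rw [Finset.mul_sum]
        exact Finset.sum_congr rfl fun d' _ => by ring

/-- inserting signs -/
theorem sign_eq (t : ℝ) (c : Bool → ℝ) (y : Fin n → X) (s : Fin n → Bool) :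
    ∑ q : (Fin n → Bool) × (Fin n → Bool),
        wt t q.1 * wt t q.2 * ‖∑ i, (c (q.1 i) - c (q.2 i)) • y i‖ =
    ∑ q : (Fin n → Bool) × (Fin n → Bool),
        wt t q.1 * wt t q.2 *
          ‖∑ i, (if s i then (1 : ℝ) else -1) • ((c (q.1 i) - c (q.2 i)) • y i)‖ := by
  symm
  refine Fintype.sum_bijective (sw s) (Function.Involutive.bijective (sw_sw s)) _ _ (fun q => ?_)
  rw [wt_sw]
  congr 2
  refine Finset.sum_congr rfl fun i _ => ?_
  unfold sw
  by_cases h : s i
  · simp [h]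
  · simp only [h, Bool.false_eq_true, if_false, smul_smul]
    congr 1
    ring

theorem type_bound {p T : ℝ} (hp : 1 < p)
    (hT : ∀ (n : ℕ) (x : Fin n → X),
      (2 ^ n : ℝ)⁻¹ * ∑ s : Fin n → Bool, ‖∑ i, (if s i then (1 : ℝ) else -1) • x i‖
        ≤ T * (∑ i, ‖x i‖ ^ p) ^ (1 / p)) (hT0 : 0 ≤ T)
    {t : ℝ} (h0 : 0 ≤ t) (h1 : t ≤ 1) (c : Bool → ℝ)
    (hc : t * c true + (1 - t) * c false = 0) {K D : ℝ} (hK : ∀ b b', |c b - c b'| ≤ K)
    (y : Fin n → X) (hy : ∀ i, ‖y i‖ ≤ D) :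
    ∑ d : Fin n → Bool, wt t d * ‖∑ i, c (d i) • y i‖ ≤ T * ((n : ℝ) ^ (1 / p) * (K * D)) := by
  have hp0 : 0 < p := by linarith
  refine (sym_bound h0 h1 c hc y).trans ?_
  set A := ∑ q : (Fin n → Bool) × (Fin n → Bool),
        wt t q.1 * wt t q.2 * ‖∑ i, (c (q.1 i) - c (q.2 i)) • y i‖ with hA
  have hcard : (2 ^ n : ℝ)⁻¹ * ∑ _s : Fin n → Bool, A = A := by
    rw [Finset.sum_const, Finset.card_univ, Fintype.card_fun, Fintype.card_bool, Fintype.card_fin]
    rw [nsmul_eq_mul]
    push_cast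
    field_simp
  have hKD : 0 ≤ K := (abs_nonneg _).trans (hK true false)
  rw [← hcard]
  rw [Finset.sum_congr rfl (fun s _ => sign_eq t c y s)]
  rw [Finset.sum_comm, Finset.mul_sum]
  have hq : ∀ q : (Fin n → Bool) × (Fin n → Bool),
      (2 ^ n : ℝ)⁻¹ * ∑ s : Fin n → Bool, wt t q.1 * wt t q.2 *
          ‖∑ i, (if s i then (1 : ℝ) else -1) • ((c (q.1 i) - c (q.2 i)) • y i)‖
      ≤ wt t q.1 * wt t q.2 * (T * ((n : ℝ) ^ (1 / p) * (K * D))) := by
    intro q
    have hw : 0 ≤ wt t q.1 * wt t q.2 := mul_nonneg (wt_nonneg h0 h1 _) (wt_nonneg h0 h1 _)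
    rw [← Finset.mul_sum, mul_left_comm]
    refine mul_le_mul_of_nonneg_left ?_ hw
    refine (hT n _).trans (mul_le_mul_of_nonneg_left ?_ hT0)
    rcases Nat.eq_zero_or_pos n with hn | hn
    · subst hn
      have : (0 : ℝ) ^ p⁻¹ = 0 := Real.zero_rpow (by positivity)
      simp [this]
    · have hD0 : 0 ≤ D := (norm_nonneg _).trans (hy ⟨0, hn⟩)
      have hb : ∀ i, ‖(c (q.1 i) - c (q.2 i)) • y i‖ ^ p ≤ (K * D) ^ p := by
        intro i
        refine Real.rpow_le_rpow (norm_nonneg _) ?_ hp0.le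
        rw [norm_smul, Real.norm_eq_abs]
        exact mul_le_mul (hK _ _) (hy i) (norm_nonneg _) hKD
      have hs : ∑ i, ‖(c (q.1 i) - c (q.2 i)) • y i‖ ^ p ≤ n * (K * D) ^ p := by
        refine (Finset.sum_le_sum fun i _ => hb i).trans (le_of_eq ?_)
        rw [Finset.sum_const, Finset.card_univ, Fintype.card_fin, nsmul_eq_mul]
      have hs0 : 0 ≤ ∑ i, ‖(c (q.1 i) - c (q.2 i)) • y i‖ ^ p :=
        Finset.sum_nonneg fun i _ => Real.rpow_nonneg (norm_nonneg _) _
      refine (Real.rpow_le_rpow hs0 hs (by positivity)).trans (le_of_eq ?_)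
      rw [Real.mul_rpow (Nat.cast_nonneg _) (Real.rpow_nonneg (mul_nonneg hKD hD0) _),
        ← Real.rpow_mul (mul_nonneg hKD hD0), mul_one_div_cancel hp0.ne', Real.rpow_one]
  refine (Finset.sum_le_sum fun q _ => hq q).trans (le_of_eq ?_)
  rw [← Finset.sum_mul, Fintype.sum_prod_type]
  have : ∑ x : Fin n → Bool, ∑ y : Fin n → Bool, wt t x * wt t y = 1 := by
    have e : ∀ x : Fin n → Bool, ∑ y : Fin n → Bool, wt t x * wt t y = wt t x := by
      intro x
      rw [← Finset.mul_sum, sum_wt, mul_one]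
    rw [Finset.sum_congr rfl (fun x _ => e x), sum_wt]
  rw [this, one_mul]

/-- derivative of `pb` in `t` -/
def dpb (b : Bool) : ℝ := if b then 1 else -1

theorem hasDerivAt_pb (b : Bool) (t : ℝ) : HasDerivAt (fun t => pb t b) (dpb b) t := by
  unfold pb dpb
  cases b
  · simpa using (hasDerivAt_id' t).const_sub 1
  · simpa using hasDerivAt_id' t

theorem hasDerivAt_wt (e : Fin n → Bool) (t : ℝ) :
    HasDerivAt (fun t => wt t e)
      (∑ i, (∏ j ∈ Finset.univ.erase i, pb t (e j)) • dpb (e i)) t := by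
  unfold wt
  exact HasDerivAt.fun_finsetProd (fun i _ => hasDerivAt_pb (e i) t)

theorem prod_erase_flp (t : ℝ) (i : Fin n) (e : Fin n → Bool) :
    ∏ j ∈ Finset.univ.erase i, pb t (flp i e j) = ∏ j ∈ Finset.univ.erase i, pb t (e j) := by
  refine Finset.prod_congr rfl fun j hj => ?_
  have hj : j ≠ i := Finset.ne_of_mem_erase hj
  unfold flp
  rw [Function.update_of_ne hj]

theorem wt_erase (t : ℝ) (i : Fin n) (e : Fin n → Bool) :
    wt t e = (∏ j ∈ Finset.univ.erase i, pb t (e j)) * pb t (e i) := by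
  unfold wt
  rw [Finset.prod_erase_mul _ _ (Finset.mem_univ i)]

theorem flp_self (i : Fin n) (e : Fin n → Bool) : flp i e i = !(e i) := by
  unfold flp
  rw [Function.update_self]

theorem deriv_id_i {t : ℝ} (h0 : 0 < t) (h1 : t < 1) (h : (Fin n → Bool) → X)
    (a : Fin n → Bool) (i : Fin n) :
    ∑ e : Fin n → Bool, ((∏ j ∈ Finset.univ.erase i, pb t (e j)) * dpb (e i)) • h (xr a e) =
    ∑ e : Fin n → Bool, (wt t e * psi t (e i)) • Dd h i (xr a e) := by
  have e1 := sum_flp i (fun e : Fin n → Bool =>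
    ((∏ j ∈ Finset.univ.erase i, pb t (e j)) * dpb (e i)) • h (xr a e))
  have e2 := sum_flp i (fun e : Fin n → Bool =>
    (wt t e * psi t (e i)) • Dd h i (xr a e))
  have e3 : ∀ e : Fin n → Bool,
      ((∏ j ∈ Finset.univ.erase i, pb t (e j)) * dpb (e i)) • h (xr a e) +
      ((∏ j ∈ Finset.univ.erase i, pb t (flp i e j)) * dpb (flp i e i)) • h (xr a (flp i e)) =
      (wt t e * psi t (e i)) • Dd h i (xr a e) +
      (wt t (flp i e) * psi t (flp i e i)) • Dd h i (xr a (flp i e)) := by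
    intro e
    rw [wt_erase t i e, wt_erase t i (flp i e), prod_erase_flp, flp_self]
    unfold Dd
    rw [xr_flp, flp_flp]
    set P := ∏ j ∈ Finset.univ.erase i, pb t (e j)
    set u := h (xr a e)
    set v := h (flp i (xr a e))
    have h2 : (1 - t) ≠ 0 := by linarith
    have h3 : t ≠ 0 := h0.ne'
    have k1 : pb t true * psi t true = -(1 / 2) := by
      simp only [pb, psi, if_true]
      field_simp
    have k2 : pb t false * psi t false = 1 / 2 := by
      simp only [pb, psi, Bool.false_eq_true, if_false]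
      field_simp
    cases e i
    · simp only [Bool.not_false]
      rw [mul_assoc P, mul_assoc P, k1, k2]
      simp only [dpb, Bool.false_eq_true, if_false, if_true]
      module
    · simp only [Bool.not_true]
      rw [mul_assoc P, mul_assoc P, k1, k2]
      simp only [dpb, Bool.false_eq_true, if_false, if_true]
      module
  have e4 : ∀ (S R : X), S + S = R + R → S = R := by
    intro S R hh
    rw [← two_smul ℝ, ← two_smul ℝ] at hh
    exact smul_right_injective X (two_ne_zero) hh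
  apply e4
  nth_rewrite 1 [← e1]
  rw [← Finset.sum_add_distrib]
  nth_rewrite 1 [← e2]
  rw [← Finset.sum_add_distrib]
  refine Finset.sum_congr rfl fun e _ => ?_
  rw [add_comm, e3 e, add_comm]

/-- The smoothing operator. -/
def Sm (h : (Fin n → Bool) → X) (t : ℝ) (a : Fin n → Bool) : X :=
  ∑ e : Fin n → Bool, wt t e • h (xr a e)

theorem hasDerivAt_Sm {t : ℝ} (h0 : 0 < t) (h1 : t < 1) (h : (Fin n → Bool) → X)
    (a : Fin n → Bool) :
    HasDerivAt (fun t => Sm h t a)
      (∑ e : Fin n → Bool, wt t e • ∑ i, psi t (e i) • Dd h i (xr a e)) t := by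
  have hd : HasDerivAt (fun t => Sm h t a)
      (∑ e : Fin n → Bool,
        (∑ i, (∏ j ∈ Finset.univ.erase i, pb t (e j)) • dpb (e i)) • h (xr a e)) t := by
    unfold Sm
    exact HasDerivAt.fun_sum (fun e _ => (hasDerivAt_wt e t).smul_const (h (xr a e)))
  convert hd using 1
  have e1 : ∀ e : Fin n → Bool, wt t e • ∑ i, psi t (e i) • Dd h i (xr a e) =
      ∑ i, (wt t e * psi t (e i)) • Dd h i (xr a e) := by
    intro e
    rw [Finset.smul_sum]
    exact Finset.sum_congr rfl fun i _ => by rw [smul_smul]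
  have e2 : ∀ e : Fin n → Bool,
      (∑ i, (∏ j ∈ Finset.univ.erase i, pb t (e j)) • dpb (e i)) • h (xr a e) =
      ∑ i, ((∏ j ∈ Finset.univ.erase i, pb t (e j)) * dpb (e i)) • h (xr a e) := by
    intro e
    rw [Finset.sum_smul]
    rfl
  rw [Finset.sum_congr rfl (fun e _ => e1 e), Finset.sum_congr rfl (fun e _ => e2 e),
    Finset.sum_comm, Finset.sum_comm (s := Finset.univ) (t := Finset.univ)
      (f := fun (e : Fin n → Bool) i =>
        ((∏ j ∈ Finset.univ.erase i, pb t (e j)) * dpb (e i)) • h (xr a e))]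
  exact Finset.sum_congr rfl fun i _ => (deriv_id_i h0 h1 h a i).symm

theorem Sm_half (h : (Fin n → Bool) → X) (a : Fin n → Bool) :
    Sm h (1 / 2) a = ((1 : ℝ) / 2) ^ n • ∑ b, h b := by
  unfold Sm
  have e1 : ∀ e : Fin n → Bool, wt (1 / 2) e = ((1 : ℝ) / 2) ^ n := by
    intro e
    unfold wt
    have : ∀ i : Fin n, pb (1 / 2) (e i) = (1 : ℝ) / 2 := by
      intro i
      unfold pb
      split_ifs
      · rfl
      · norm_num
    rw [Finset.prod_congr rfl (fun i _ => this i), Finset.prod_const, Finset.card_univ,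
      Fintype.card_fin]
  rw [Finset.sum_congr rfl (fun e _ => by rw [e1 e]), ← Finset.smul_sum]
  congr 1
  rw [← sum_xr a h]
  exact Finset.sum_congr rfl fun e _ => by rw [xr_comm]

theorem Sm_near {h : (Fin n → Bool) → X} {D : ℝ}
    (hlip : ∀ a e : Fin n → Bool, ‖h a - h (xr a e)‖ ≤ D * ∑ i, (if e i then (1 : ℝ) else 0))
    {t : ℝ} (h0 : 0 ≤ t) (h1 : t ≤ 1) (a : Fin n → Bool) :
    ‖h a - Sm h t a‖ ≤ D * (n * t) := by
  have e0 : h a = ∑ e : Fin n → Bool, wt t e • h a := by
    rw [← Finset.sum_smul, sum_wt, one_smul]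
  have e1 : h a - Sm h t a = ∑ e : Fin n → Bool, wt t e • (h a - h (xr a e)) := by
    unfold Sm
    nth_rewrite 1 [e0]
    rw [← Finset.sum_sub_distrib]
    exact Finset.sum_congr rfl fun e _ => (smul_sub _ _ _).symm
  rw [e1]
  have e2 : ∀ e : Fin n → Bool, ‖wt t e • (h a - h (xr a e))‖ ≤
      D * ∑ i, wt t e * (if e i then (1 : ℝ) else 0) := by
    intro e
    rw [norm_smul, Real.norm_of_nonneg (wt_nonneg h0 h1 e), ← Finset.mul_sum, mul_left_comm]
    exact mul_le_mul_of_nonneg_left (hlip a e) (wt_nonneg h0 h1 e)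
  refine (norm_sum_le _ _).trans ((Finset.sum_le_sum fun e _ => e2 e).trans (le_of_eq ?_))
  rw [← Finset.mul_sum, Finset.sum_comm]
  congr 1
  have e3 : ∀ i : Fin n, ∑ e : Fin n → Bool, wt t e * (if e i then (1 : ℝ) else 0) = t := by
    intro i
    rw [sum_wt_one t (fun b => if b then (1 : ℝ) else 0) i]
    simp
  rw [Finset.sum_congr rfl (fun i _ => e3 i), Finset.sum_const, Finset.card_univ,
    Fintype.card_fin, nsmul_eq_mul]

theorem far_mean {h : (Fin n → Bool) → X}
    (hlow : ∀ a : Fin n → Bool, (n : ℝ) ≤ ‖h a - h (xr a (fun _ => true))‖) (m : X) :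
    2 ^ n * ((n : ℝ) / 2) ≤ ∑ a : Fin n → Bool, ‖h a - m‖ := by
  have e1 : ∑ a : Fin n → Bool, ‖h (xr a (fun _ => true)) - m‖ = ∑ a, ‖h a - m‖ :=
    sum_xr (fun _ => true) (fun a => ‖h a - m‖)
  have e2 : ∑ _a : Fin n → Bool, (n : ℝ) ≤
      ∑ a : Fin n → Bool, (‖h a - m‖ + ‖h (xr a (fun _ => true)) - m‖) := by
    refine Finset.sum_le_sum fun a _ => (hlow a).trans ?_
    have : h a - h (xr a (fun _ => true)) = (h a - m) - (h (xr a (fun _ => true)) - m) := by
      abel
    rw [this]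
    exact norm_sub_le _ _
  rw [Finset.sum_add_distrib, e1, Finset.sum_const, Finset.card_univ, Fintype.card_fun,
    Fintype.card_bool, Fintype.card_fin, nsmul_eq_mul] at e2
  push_cast at e2
  linarith

theorem psi_diff {D t : ℝ} (hD : 1 ≤ D) (ht0 : 1 / (8 * D) < t) (ht1 : t < 1 / 2)
    (b b' : Bool) : |psi t b - psi t b'| ≤ 1 + 4 * D := by
  have h8 : 0 < 1 / (8 * D) := by positivity
  have ht : 0 < t := h8.trans ht0
  have h1 : 0 ≤ 1 / (2 * t) := by positivity
  have h2 : 1 / (2 * t) ≤ 4 * D := by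
    rw [div_le_iff₀ (by positivity)]
    rw [div_lt_iff₀ (by positivity)] at ht0
    linarith
  have h3 : 0 ≤ 1 / (2 * (1 - t)) := by
    have : 0 < 1 - t := by linarith
    positivity
  have h4 : 1 / (2 * (1 - t)) ≤ 1 := by
    rw [div_le_iff₀ (by linarith)]
    linarith
  unfold psi
  rw [abs_le]
  cases b <;> cases b' <;> simp only [Bool.false_eq_true, if_false, if_true] <;>
    constructor <;> linarith

theorem cube_bound {p T : ℝ} (hp : 1 < p)
    (hT : ∀ (n : ℕ) (x : Fin n → X),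
      (2 ^ n : ℝ)⁻¹ * ∑ s : Fin n → Bool, ‖∑ i, (if s i then (1 : ℝ) else -1) • x i‖
        ≤ T * (∑ i, ‖x i‖ ^ p) ^ (1 / p)) (hT0 : 0 ≤ T)
    {h : (Fin n → Bool) → X} {D : ℝ} (hD : 1 ≤ D)
    (hlip : ∀ a e : Fin n → Bool, ‖h a - h (xr a e)‖ ≤ D * ∑ i, (if e i then (1 : ℝ) else 0))
    (hflip : ∀ (i : Fin n) (a : Fin n → Bool), ‖Dd h i a‖ ≤ D)
    (hlow : ∀ a : Fin n → Bool, (n : ℝ) ≤ ‖h a - h (xr a (fun _ => true))‖) :
    3 / 4 * (n : ℝ) ≤ T * ((n : ℝ) ^ (1 / p) * ((1 + 4 * D) * D)) := by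
  classical
  set t0 : ℝ := 1 / (8 * D) with ht0
  have h8 : 0 < t0 := by positivity
  have ht08 : t0 ≤ 1 / 8 := by
    rw [ht0]
    exact one_div_le_one_div_of_le (by norm_num) (by linarith)
  have hDt : D * (n * t0) = n / 8 := by
    rw [ht0]
    field_simp
  set m : X := ((1 : ℝ) / 2) ^ n • ∑ b, h b with hm
  -- the distance of the smoothing from the mean
  have hsum : 2 ^ n * (3 * (n : ℝ) / 8) ≤ ∑ a : Fin n → Bool, ‖Sm h t0 a - m‖ := by
    have k1 := far_mean hlow m
    have k2 : ∑ a : Fin n → Bool, ‖h a - m‖ ≤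
        ∑ a : Fin n → Bool, ((n : ℝ) / 8 + ‖Sm h t0 a - m‖) := by
      refine Finset.sum_le_sum fun a _ => ?_
      have : h a - m = (h a - Sm h t0 a) + (Sm h t0 a - m) := by abel
      rw [this]
      refine (norm_add_le _ _).trans ?_
      have := Sm_near hlip h8.le (by linarith) a
      rw [hDt] at this
      linarith
    rw [Finset.sum_add_distrib, Finset.sum_const, Finset.card_univ, Fintype.card_fun,
      Fintype.card_bool, Fintype.card_fin, nsmul_eq_mul] at k2
    push_cast at k2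
    linarith
  -- norming functionals
  have hφ : ∀ a : Fin n → Bool, ∃ g : StrongDual ℝ X, ‖g‖ ≤ 1 ∧
      g (Sm h t0 a - m) = ‖Sm h t0 a - m‖ := fun a => exists_dual_vector'' ℝ _
  choose φ hφ1 hφ2 using hφ
  set G : ℝ → ℝ := fun t => ∑ a : Fin n → Bool, φ a (Sm h t a) with hG
  set G' : ℝ → ℝ := fun t => ∑ a : Fin n → Bool,
    φ a (∑ e : Fin n → Bool, wt t e • ∑ i, psi t (e i) • Dd h i (xr a e)) with hG'
  have hder : ∀ t : ℝ, 0 < t → t < 1 → HasDerivAt G (G' t) t := by
    intro t hta htb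
    rw [hG]
    exact HasDerivAt.fun_sum (fun a _ =>
      (φ a).hasFDerivAt.comp_hasDerivAt t (hasDerivAt_Sm hta htb h a))
  have hlt : t0 < 1 / 2 := by linarith
  obtain ⟨t, ht, hslope⟩ := exists_hasDerivAt_eq_slope G G' hlt
    (fun x hx => (hder x (by linarith [hx.1]) (by linarith [hx.2])).continuousAt.continuousWithinAt)
    (fun x hx => hder x (by linarith [hx.1]) (by linarith [hx.2]))
  have hdiff : G (1 / 2) - G t0 = -∑ a : Fin n → Bool, ‖Sm h t0 a - m‖ := by
    rw [hG]
    simp only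
    rw [← Finset.sum_sub_distrib, ← Finset.sum_neg_distrib]
    refine Finset.sum_congr rfl fun a _ => ?_
    rw [Sm_half, ← hm, ← hφ2 a, ← map_sub, ← map_neg]
    congr 1
    abel
  have hlow' : 2 ^ n * (3 / 4 * (n : ℝ)) ≤ |G' t| := by
    rw [hslope, hdiff, neg_div, abs_neg]
    refine le_trans ?_ (le_abs_self _)
    rw [le_div_iff₀ (by linarith)]
    refine le_trans ?_ hsum
    have : (0 : ℝ) ≤ 2 ^ n * (3 / 4 * (n : ℝ)) := by positivity
    calc 2 ^ n * (3 / 4 * (n : ℝ)) * (1 / 2 - t0)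
        ≤ 2 ^ n * (3 / 4 * (n : ℝ)) * (1 / 2) :=
          mul_le_mul_of_nonneg_left (by linarith) this
      _ = 2 ^ n * (3 * (n : ℝ) / 8) := by ring
  have hta : 0 < t := h8.trans ht.1
  have htb : t < 1 / 2 := ht.2
  have hup' : |G' t| ≤ 2 ^ n * (T * ((n : ℝ) ^ (1 / p) * ((1 + 4 * D) * D))) := by
    have hw : ∀ e : Fin n → Bool, 0 ≤ wt t e := wt_nonneg hta.le (by linarith)
    have k1 : ∀ a : Fin n → Bool,
        |φ a (∑ e : Fin n → Bool, wt t e • ∑ i, psi t (e i) • Dd h i (xr a e))| ≤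
        ∑ e : Fin n → Bool, wt t e * ‖∑ i, psi t (e i) • Dd h i (xr a e)‖ := by
      intro a
      rw [← Real.norm_eq_abs]
      refine ((φ a).le_of_opNorm_le (hφ1 a) _).trans ?_
      rw [one_mul]
      refine (norm_sum_le _ _).trans (le_of_eq ?_)
      exact Finset.sum_congr rfl fun e _ => by rw [norm_smul, Real.norm_of_nonneg (hw e)]
    have k2 : |G' t| ≤ ∑ a : Fin n → Bool, ∑ e : Fin n → Bool,
        wt t e * ‖∑ i, psi t (e i) • Dd h i (xr a e)‖ := by
      rw [hG']
      exact (Finset.abs_sum_le_sum_abs _ _).trans (Finset.sum_le_sum fun a _ => k1 a)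
    refine k2.trans ?_
    rw [Finset.sum_comm]
    have k3 : ∀ e : Fin n → Bool,
        ∑ a : Fin n → Bool, wt t e * ‖∑ i, psi t (e i) • Dd h i (xr a e)‖ =
        ∑ a : Fin n → Bool, wt t e * ‖∑ i, psi t (e i) • Dd h i a‖ := by
      intro e
      exact sum_xr e (fun a => wt t e * ‖∑ i, psi t (e i) • Dd h i a‖)
    rw [Finset.sum_congr rfl (fun e _ => k3 e), Finset.sum_comm]
    have k4 : ∀ a : Fin n → Bool,
        ∑ e : Fin n → Bool, wt t e * ‖∑ i, psi t (e i) • Dd h i a‖ ≤
        T * ((n : ℝ) ^ (1 / p) * ((1 + 4 * D) * D)) := by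
      intro a
      refine type_bound hp hT hT0 hta.le (by linarith) (psi t) ?_ (psi_diff hD ht.1 ht.2)
        (fun i => Dd h i a) (fun i => hflip i a)
      unfold psi
      have h2 : (1 - t) ≠ 0 := by linarith
      simp only [Bool.false_eq_true, if_false, if_true]
      field_simp
      ring
    refine (Finset.sum_le_sum fun a _ => k4 a).trans (le_of_eq ?_)
    rw [Finset.sum_const, Finset.card_univ, Fintype.card_fun, Fintype.card_bool,
      Fintype.card_fin, nsmul_eq_mul]
    push_cast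
    ring
  have := hlow'.trans hup'
  have h2n : (0 : ℝ) < 2 ^ n := by positivity
  exact le_of_mul_le_mul_left this h2n

end Pool.Agent.P5bf
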