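import Pool.Agent.P5bf.Cubes
import Pool.Agent.P5bf.TypeCube

/-! Spaces of nontrivial type have the concentration property. -/

set_option autoImplicit false

namespace Pool.Agent.P5bf

universe u

/-- a bit as an element of `Fin 2` -/
def bt (b : Bool) : Fin 2 := if b then 1 else 0

theorem bt_inj : Function.Injective bt := by
  intro a b h
  cases a <;> cases b <;> simp_all [bt]

theorem dist_xr {n : ℕ} (a e : Fin n → Bool) :
    (hammingDist (fun i => bt (a i)) (fun i => bt (xr a e i)) : ℝ) =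
      ∑ i, (if e i then (1 : ℝ) else 0) := by
  have h1 : hammingDist (fun i => bt (a i)) (fun i => bt (xr a e i)) = hammingDist a (xr a e) :=
    hammingDist_comp (fun _ => bt) (fun _ => bt_inj)
  rw [h1, Finset.sum_boole]
  unfold hammingDist
  congr 2
  ext i
  rw [Finset.mem_filter, Finset.mem_filter]
  unfold xr
  cases a i <;> cases e i <;> simp

theorem no_cubes {X : Type u} [NormedAddCommGroup X] [NormedSpace ℝ X] (hX : NontrivialType X)
    (D : ℝ) : ∃ n : ℕ, ¬ ∃ g : (Fin n → Fin 2) → X, ∀ a b : Fin n → Fin 2,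
      (hammingDist a b : ℝ) ≤ ‖g a - g b‖ ∧ ‖g a - g b‖ ≤ D * (hammingDist a b : ℝ) := by
  obtain ⟨p, hp, T, hT⟩ := hX
  have hT' : ∀ (n : ℕ) (x : Fin n → X),
      (2 ^ n : ℝ)⁻¹ * ∑ s : Fin n → Bool, ‖∑ i, (if s i then (1 : ℝ) else -1) • x i‖
        ≤ |T| * (∑ i, ‖x i‖ ^ p) ^ (1 / p) := by
    intro n x
    refine (hT n x).trans (mul_le_mul_of_nonneg_right (le_abs_self _) ?_)
    exact Real.rpow_nonneg (Finset.sum_nonneg fun i _ => Real.rpow_nonneg (norm_nonneg _) _) _
  set E : ℝ := max D 1 with hE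
  have hE1 : 1 ≤ E := le_max_right _ _
  have hp1 : 0 < 1 - 1 / p := by
    have : 1 / p < 1 := by
      rw [div_lt_one (by linarith)]
      exact hp
    linarith
  have ht := (tendsto_rpow_atTop hp1).comp (tendsto_natCast_atTop_atTop (R := ℝ))
  obtain ⟨n, hn1, hn2⟩ := ((ht.eventually_gt_atTop (4 / 3 * (|T| * ((1 + 4 * E) * E)))).and
    (Filter.eventually_ge_atTop 1)).exists
  refine ⟨n, ?_⟩
  rintro ⟨g, hg⟩
  have hD : ∀ a b : Fin n → Fin 2, ‖g a - g b‖ ≤ E * (hammingDist a b : ℝ) := fun a b =>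
    (hg a b).2.trans (mul_le_mul_of_nonneg_right (le_max_left _ _) (Nat.cast_nonneg _))
  have hb := cube_bound (X := X) (n := n) (h := fun a => g (fun i => bt (a i))) (D := E) hp hT'
    (abs_nonneg _) hE1 ?_ ?_ ?_
  · have hn0 : (0 : ℝ) < n := by exact_mod_cast hn2
    have e1 : (n : ℝ) = (n : ℝ) ^ (1 / p) * (n : ℝ) ^ (1 - 1 / p) := by
      rw [← Real.rpow_add hn0]
      simp
    have hpos : 0 < (n : ℝ) ^ (1 / p) := Real.rpow_pos_of_pos hn0 _
    simp only [Function.comp_apply] at hn1
    have e2 : (n : ℝ) ^ (1 / p) * (4 / 3 * (|T| * ((1 + 4 * E) * E))) <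
        (n : ℝ) ^ (1 / p) * (n : ℝ) ^ (1 - 1 / p) := mul_lt_mul_of_pos_left hn1 hpos
    rw [← e1] at e2
    nlinarith
  · intro a e
    refine (hD _ _).trans (le_of_eq ?_)
    rw [dist_xr]
  · intro i a
    unfold Dd
    refine (hD _ _).trans ?_
    have h1 : hammingDist (fun j => bt (flp i a j)) (fun j => bt (a j)) ≤ 1 := by
      rw [hammingDist_comp (fun _ => bt) (fun _ => bt_inj)]
      unfold hammingDist
      rw [Finset.card_le_one]
      intro j hj k hk
      rw [Finset.mem_filter] at hj hk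
      have hj' : j = i := by
        by_contra hji
        apply hj.2
        unfold flp
        rw [Function.update_of_ne hji]
      have hk' : k = i := by
        by_contra hki
        apply hk.2
        unfold flp
        rw [Function.update_of_ne hki]
      rw [hj', hk']
    have h2 : ((hammingDist (fun j => bt (flp i a j)) (fun j => bt (a j)) : ℕ) : ℝ) ≤ 1 := by
      exact_mod_cast h1
    calc E * ((hammingDist (fun j => bt (flp i a j)) (fun j => bt (a j)) : ℕ) : ℝ) ≤ E * 1 :=
          mul_le_mul_of_nonneg_left h2 (by linarith)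
      _ = E := mul_one E
  · intro a
    refine le_trans (le_of_eq ?_) (hg _ _).1
    rw [dist_xr]
    simp

theorem conc_of_type {X : Type u} [NormedAddCommGroup X] [NormedSpace ℝ X]
    (hX : NontrivialType X) : Conc X := by
  by_contra hC
  obtain ⟨ε, hε, hb⟩ := (not_conc_iff X).1 hC
  obtain ⟨n, hn⟩ := no_cubes hX (144 / ε ^ 2)
  exact hn (cubes_of_bad ε hε hb n 2)

end Pool.Agent.P5bf
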