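import Pool.Agent.P5bf.ExtL

/-! Limits along the ultrafilter in the bidual. -/

set_option autoImplicit false

open Filter Topology

namespace Pool.Agent.P5bf

universe u

variable {E : Type u} [NormedAddCommGroup E] [NormedSpace ℝ E]

/-- bounded real sequences converge along the ultrafilter -/
theorem exists_lim (a : ℕ → ℝ) (M : ℝ) (h : ∀ n, |a n| ≤ M) :
    ∃ r : ℝ, |r| ≤ M ∧ Tendsto a (U : Filter ℕ) (𝓝 r) := by
  have hc : IsCompact (Metric.closedBall (0 : ℝ) M) := isCompact_closedBall 0 M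
  obtain ⟨r, hr, hlim⟩ := hc.ultrafilter_le_nhds (U.map a) (by
    rw [Filter.le_principal_iff]
    have : ∀ᶠ n in (U : Filter ℕ), a n ∈ Metric.closedBall (0 : ℝ) M :=
      Eventually.of_forall (fun n => by simpa [Real.norm_eq_abs] using h n)
    exact this)
  exact ⟨r, by simpa [Real.norm_eq_abs] using hr, hlim⟩

/-- bounded sequences of the bidual converge along the ultrafilter in the weak star sense -/
theorem exists_wl (h : ℕ → StrongDual ℝ E) (M : ℝ) (hM : ∀ n, ‖h n‖ ≤ M) :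
    ∃ e : StrongDual ℝ E,
      ∀ φ : E, Tendsto (fun n => h n φ) (U : Filter ℕ) (𝓝 (e φ)) := by
  have hb : ∀ φ : E, ∀ n, |h n φ| ≤ M * ‖φ‖ := fun φ n => by
    have := (h n).le_opNorm φ
    rw [Real.norm_eq_abs] at this
    exact this.trans (mul_le_mul_of_nonneg_right (hM n) (norm_nonneg _))
  choose r hr1 hr2 using fun φ => exists_lim (fun n => h n φ) (M * ‖φ‖) (hb φ)
  refine ⟨LinearMap.mkContinuous
    { toFun := r
      map_add' := fun φ ψ => ?_
      map_smul' := fun c φ => ?_ } M (fun φ => ?_), fun φ => ?_⟩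
  · refine tendsto_nhds_unique (hr2 (φ + ψ)) ?_
    simpa using (hr2 φ).add (hr2 ψ)
  · refine tendsto_nhds_unique (hr2 (c • φ)) ?_
    simpa using (hr2 φ).const_mul c
  · simpa [Real.norm_eq_abs] using hr1 φ
  · simpa using hr2 φ

theorem wl_tendsto (h : ℕ → StrongDual ℝ E) (M : ℝ) (hM : ∀ n, ‖h n‖ ≤ M)
    (φ : E) : Tendsto (fun n => h n φ) (U : Filter ℕ) (𝓝 (wl h φ)) := by
  have H := exists_wl h M hM
  rw [wl, dif_pos H]
  exact H.choose_spec φ

/-- weak star lower semicontinuity of the norm of a difference -/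
theorem wl_sub_le (h h' : ℕ → StrongDual ℝ E) (M r : ℝ) (hM : ∀ n, ‖h n‖ ≤ M)
    (hM' : ∀ n, ‖h' n‖ ≤ M) (hr : ∀ᶠ n in (U : Filter ℕ), ‖h n - h' n‖ ≤ r) :
    ‖wl h - wl h'‖ ≤ r := by
  have hr0 : 0 ≤ r := by
    obtain ⟨n, hn⟩ := hr.exists
    exact (norm_nonneg (h n - h' n)).trans hn
  refine ContinuousLinearMap.opNorm_le_bound _ hr0 fun φ => ?_
  have h1 : Tendsto (fun n => ‖(h n - h' n) φ‖) (U : Filter ℕ) (𝓝 ‖(wl h - wl h') φ‖) := by
    have := (wl_tendsto h M hM φ).sub (wl_tendsto h' M hM' φ)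
    simpa using this.norm
  refine le_of_tendsto h1 (hr.mono fun n hn => ?_)
  exact ((h n - h' n).le_opNorm φ).trans (mul_le_mul_of_nonneg_right hn (norm_nonneg _))

theorem wl_const (v : StrongDual ℝ E) : wl (fun _ => v) = v := by
  refine ContinuousLinearMap.ext fun φ => ?_
  exact tendsto_nhds_unique (wl_tendsto (fun _ => v) ‖v‖ (fun _ => le_rfl) φ) tendsto_const_nhds

theorem wl_norm_le (h : ℕ → StrongDual ℝ E) (M : ℝ) (hM : ∀ n, ‖h n‖ ≤ M) :
    ‖wl h‖ ≤ M := by
  have hM0 : 0 ≤ M := (norm_nonneg (h 0)).trans (hM 0)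
  have := wl_sub_le h (fun _ => 0) M M hM (fun _ => by simpa using hM0)
    (Eventually.of_forall fun n => by simpa using hM n)
  rwa [wl_const, sub_zero] at this

/-- distance of a limit to a fixed vector -/
theorem sub_wl_le (v : StrongDual ℝ E) (h : ℕ → StrongDual ℝ E)
    (M r : ℝ) (hM : ∀ n, ‖h n‖ ≤ M) (hr : ∀ᶠ n in (U : Filter ℕ), ‖v - h n‖ ≤ r) :
    ‖v - wl h‖ ≤ r := by
  have := wl_sub_le (fun _ => v) h (max M ‖v‖) r (fun _ => le_max_right _ _)
    (fun n => (hM n).trans (le_max_left _ _)) hr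
  rwa [wl_const] at this

end Pool.Agent.P5bf
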